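import Pool.Agent.H1TV.DefsP
import Pool.Agent.H2CV.Asm

/-!
Project TV: the assembly of the parts (with the statements of the parts as hypotheses).
-/

set_option autoImplicit false

open MeasureTheory Set Metric Filter Topology
open scoped ContDiff
open H459R3.NS Pool.Agent.W268.NS Pool.Agent.Q67.VD

namespace Pool.Agent.H1TV

open Pool.Agent.Q85.CC Pool.Agent.Q85.CL Pool.Agent.Q85.VL Pool.Agent.H2CV
open Pool.Agent.Q85.VL (vol_shell)

lemma Turn.mono {v : V → V} {D D' : Set V} {ε ε' : ℝ} (h : Turn v D ε) (hD : D' ⊆ D)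
    (hε : ε ≤ ε') : Turn v D' ε' := by
  intro p q l ⟨hl, γ, h1, h2, h3⟩
  exact (h p q l ⟨hl, γ, h1, h2, fun s hs => ⟨hD (h3 s hs).1, (h3 s hs).2⟩⟩).trans hε

lemma Dm_sub {v : V → V} {x a : V} {r R m : ℝ} (h : ‖x - a‖ + r ≤ R) :
    Dm v x r m ⊆ Dm v a R m := by
  intro y hy
  refine ⟨?_, hy.2⟩
  have h1 : ‖y - a‖ ≤ ‖y - x‖ + ‖x - a‖ := norm_sub_le_norm_sub_add_norm_sub _ _ _
  linarith [hy.1]

lemma small_scale {A κ : ℝ} (hA : 0 ≤ A) (hκ : 0 < κ) :
    ∃ S₁ : ℝ, 0 < S₁ ∧ ∀ S, 0 < S → S ≤ S₁ → A * √(√S) ≤ κ := by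
  refine ⟨(κ / (A + 1)) ^ 4, by positivity, fun S hS hS1 => ?_⟩
  have h1 : √(√S) ≤ κ / (A + 1) := by
    refine Real.sqrt_le_iff.2 ⟨by positivity, Real.sqrt_le_iff.2 ⟨by positivity, ?_⟩⟩
    rw [← pow_mul]
    exact hS1
  have h2 : A * (κ / (A + 1)) ≤ κ := by
    rw [mul_div_assoc', div_le_iff₀ (by linarith)]
    nlinarith
  exact (mul_le_mul_of_nonneg_left h1 hA).trans h2

set_option maxHeartbeats 1600000 in
theorem asmP {P : (V → V) → Set V → ℝ → Prop} (hPm : PMono P) (hVel : StmVelL) (hEn : StmEnL) (hEnS : StmEnS) (hReg : Pool.Agent.Q95.CL.StmRegK)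
    (hGood : StmGoodT) (hVelT : StmVelT) (hPinM : StmPinP P) (hCvM : StmCvP P)
    (hLk : StmLk) (hShR : StmShlR) {T E : ℝ} {O : Set V}
    {u : ℝ → V → V} {p : ℝ → V → ℝ}
    (hT : 0 < T) (hu : LSl T E O u p) {T₀ K ρ₀ : ℝ} {a : V} (hT₀ : 0 ≤ T₀) (hT₀T : T₀ < T)
    (hK : 0 < K) (hρ₀ : 0 < ρ₀) (hO : closedBall a ρ₀ ⊆ O)
    (hMor : ∀ t ∈ Ioo T₀ T, MorB K a ρ₀ (om (u t)))
    (hTu : ∀ ε : ℝ, 0 < ε → ∃ m T₂ R₂ : ℝ, 0 < m ∧ T₂ < T ∧ 0 < R₂ ∧
      ∀ t ∈ Ioo T₂ T, 0 < t → P (u t) (Dm (u t) a R₂ m) ε) :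
    ∃ B δ : ℝ, 0 < δ ∧ ∀ t ∈ Ioo (T - δ) T, 0 < t → ∀ x ∈ closedBall a δ, ‖u t x‖ ≤ B := by
  obtain ⟨CV, hCV, hVel⟩ := hVel
  obtain ⟨cG, hcG, hGood⟩ := hGood
  by_contra hcon
  have hIoo : ∀ t ∈ Ioo T₀ T, t ∈ Ioo 0 T := fun t ht => ⟨hT₀.trans_lt ht.1, ht.2⟩
  have hE0 : 0 ≤ E := by
    have h1 : (T₀ + T) / 2 ∈ Ioo 0 T := ⟨by linarith, by linarith⟩
    exact (integral_nonneg fun y => nsq_nnL _ _).trans (hu.en _ h1)
  -- the dissipation
  obtain ⟨C₁, r₁, hC₁, hr₁, hdis⟩ := hEn T E O u p hT hu T₀ K ρ₀ a hT₀ hT₀T hK hρ₀ hO hMor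
  -- the mollified velocity
  obtain ⟨KV, hKVd⟩ : ∃ KV, KV = CV * (K + √(E / ρ₀ ^ 3)) := ⟨_, rfl⟩
  have hKV : 0 ≤ KV := by rw [hKVd]; positivity
  have hen2 : ∀ τ ∈ Ioo T₀ T, √((∫ z in closedBall a ρ₀, W221.NS.nsq (u τ) z) / ρ₀ ^ 3)
      ≤ √(E / ρ₀ ^ 3) := by
    intro τ hτ
    have hτI := hIoo τ hτ
    have henb : ∫ z in closedBall a ρ₀, W221.NS.nsq (u τ) z ≤ E :=
      (setIntegral_mono_set (hu.en_int τ hτI) (Eventually.of_forall fun y => nsq_nnL _ _)
        hO.eventuallyLE).trans (hu.en τ hτI)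
    exact Real.sqrt_le_sqrt (div_le_div_of_nonneg_right henb (by positivity))
  have hmol : ∀ τ ∈ Ioo T₀ T, ∀ y, ‖y - a‖ ≤ ρ₀ / 2 → ∀ ρ, 0 < ρ → ρ ≤ ρ₀ / 4 → ρ ≤ 1 →
      ‖W221.NS.mol ρ u τ y‖ ≤ KV / ρ := by
    intro τ hτ y hy ρ hρ hρR hρ1
    have hτI := hIoo τ hτ
    rw [pi_norm_le_iff_of_nonneg (by positivity)]
    intro i
    have h1 := (hVel (u τ) a K ρ₀ ρ (slice_u hu.toLEq hτI)
      (fun x hx => hu.divfree τ hτI x (hO (ball_subset_closedBall hx))) hK.le hρ hρR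
      (hMor τ hτ) y hy i).2
    rw [Real.norm_eq_abs]
    refine h1.trans ?_
    rw [hKVd, mul_div_assoc]
    refine mul_le_mul_of_nonneg_left ?_ hCV.le
    rw [add_div]
    have h2 := hen2 τ hτ
    have h3 : √(E / ρ₀ ^ 3) ≤ √(E / ρ₀ ^ 3) / ρ := by
      rw [le_div_iff₀ hρ]
      exact mul_le_of_le_one_right (Real.sqrt_nonneg _) hρ1
    linarith
  obtain ⟨ε, hε, hReg⟩ := hReg KV hKV
  obtain ⟨cS, hcS, hSmall⟩ := hEnS ε hε
  -- the constants of the parts
  obtain ⟨cP, hcP, hcP1, hPin⟩ := hPinM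
  obtain ⟨h, L, hh, hh1, hL, hGood⟩ := hGood KV C₁ hKV hC₁
  obtain ⟨r₀, hr₀, hGood⟩ := hGood T E O u p hT hu a ρ₀ hρ₀ hO
  obtain ⟨η, hηd⟩ : ∃ η, η = min cS 1 := ⟨_, rfl⟩
  have hη : 0 < η := by rw [hηd]; exact lt_min hcS one_pos
  have hη1 : η ≤ 1 := by rw [hηd]; exact min_le_right _ _
  have hηc : η ≤ cS := by rw [hηd]; exact min_le_left _ _
  -- the bounds of the derivatives
  obtain ⟨Cv, hCv1, hVelT⟩ := hVelT cG K hcG hK.le
  obtain ⟨g, hgd⟩ : ∃ g, g = min (h / 2) (1 / 128) := ⟨_, rfl⟩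
  have hg : 0 < g := by rw [hgd]; exact lt_min (by positivity) (by norm_num)
  have hgh : g ≤ h / 2 := by rw [hgd]; exact min_le_left _ _
  have hg1 : g ≤ 1 / 128 := by rw [hgd]; exact min_le_right _ _
  obtain ⟨Q, hQd⟩ : ∃ Q, Q = √(E / ρ₀ ^ 3) := ⟨_, rfl⟩
  have hQ : 0 ≤ Q := by rw [hQd]; exact Real.sqrt_nonneg _
  obtain ⟨M, hMd⟩ : ∃ M, M = 1 + ∑ n ∈ Finset.range 6,
      ((cG ^ (n + 1) * n.factorial / g ^ (n + 2)) ^ 2 + (Cv * (1 + Q) / g ^ (n + 1)) ^ 2) := ⟨_, rfl⟩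
  have hMn : ∀ n ≤ 5, (cG ^ (n + 1) * n.factorial / g ^ (n + 2)) ^ 2
      + (Cv * (1 + Q) / g ^ (n + 1)) ^ 2 ≤ M := by
    intro n hn
    have h1 := Finset.single_le_sum (s := Finset.range 6) (f := fun n : ℕ =>
      (cG ^ (n + 1) * n.factorial / g ^ (n + 2)) ^ 2 + (Cv * (1 + Q) / g ^ (n + 1)) ^ 2)
      (fun n _ => by positivity) (Finset.mem_range.2 (by omega : n < 6))
    rw [hMd]
    linarith
  have hM1 : 1 ≤ M := by
    have h1 : 0 ≤ ∑ n ∈ Finset.range 6,
      ((cG ^ (n + 1) * n.factorial / g ^ (n + 2)) ^ 2 + (Cv * (1 + Q) / g ^ (n + 1)) ^ 2) :=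
      Finset.sum_nonneg fun n _ => by positivity
    rw [hMd]
    linarith
  obtain ⟨τ, w₀, hτ, hw₀, hw₀g, hShR⟩ := hShR M (g / 2) (8 * cP * η) hM1 (by positivity)
    (by linarith) (by positivity)
  obtain ⟨τ', hτ'd⟩ : ∃ τ', τ' = min (τ * g ^ 2 / (2 * cG)) 1 := ⟨_, rfl⟩
  have hcG0 : 0 < cG := by linarith
  have hτ' : 0 < τ' := by rw [hτ'd]; exact lt_min (by positivity) one_pos
  have hτ'1 : τ' ≤ 1 := by rw [hτ'd]; exact min_le_right _ _
  have hτ'τ : 2 * cG / g ^ 2 * τ' ≤ τ := by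
    have h1 : τ' ≤ τ * g ^ 2 / (2 * cG) := by rw [hτ'd]; exact min_le_left _ _
    rw [le_div_iff₀ (by positivity)] at h1
    rw [div_mul_eq_mul_div, div_le_iff₀ (by positivity)]
    linarith
  obtain ⟨N, ε₁, hε₁, hPin⟩ := hPin K η τ' hK.le hη hη1 hτ' hτ'1
  obtain ⟨ε₂, δ₂, hε₂, hδ₂, hCvM⟩ := hCvM M g τ hM1 hg hg1 hτ
  -- the turning
  obtain ⟨m, T₂, R₂, hm, hT₂T, hR₂, hTu⟩ := hTu (min ε₁ ε₂) (lt_min hε₁ hε₂)
  -- the large scale
  obtain ⟨T₃, hT₃d⟩ : ∃ T₃, T₃ = max T₀ T₂ := ⟨_, rfl⟩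
  have hT₃0 : T₀ ≤ T₃ := by rw [hT₃d]; exact le_max_left _ _
  have hT₃2 : T₂ ≤ T₃ := by rw [hT₃d]; exact le_max_right _ _
  have hT₃T : T₃ < T := by rw [hT₃d]; exact max_lt hT₀T hT₂T
  -- the leak
  obtain ⟨CL, rL, hCL, hrL, hlk⟩ := hLk T E O u p hT hu ((T₀ + T) / 2) ρ₀ a (by linarith)
    (by linarith) hρ₀ hO
  obtain ⟨S₁, hS₁, hlk1⟩ := small_scale (A := CL * (1 + m)) (κ := cP * η)
    (mul_nonneg hCL (by linarith)) (by positivity)
  obtain ⟨S₀, hS₀d⟩ : ∃ S₀, S₀ = min (min S₁ rL) (min (R₂ / 2) (min (cP * η * τ' / m) (δ₂ / m))) :=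
    ⟨_, rfl⟩
  have hS₀ : 0 < S₀ := by
    rw [hS₀d]
    exact lt_min (lt_min hS₁ hrL) (lt_min (by positivity) (lt_min (by positivity) (by positivity)))
  have hS₀1 : S₀ ≤ S₁ := by rw [hS₀d]; exact (min_le_left _ _).trans (min_le_left _ _)
  have hS₀L : S₀ ≤ rL := by rw [hS₀d]; exact (min_le_left _ _).trans (min_le_right _ _)
  have hS₀R : S₀ ≤ R₂ / 2 := by rw [hS₀d]; exact (min_le_right _ _).trans (min_le_left _ _)
  have hS₀m : m * S₀ ≤ cP * η * τ' := by
    have h1 : S₀ ≤ cP * η * τ' / m := by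
      rw [hS₀d]
      exact (min_le_right _ _).trans ((min_le_right _ _).trans (min_le_left _ _))
    rwa [le_div_iff₀ hm, mul_comm] at h1
  have hS₀δ : m * S₀ ≤ δ₂ := by
    have h1 : S₀ ≤ δ₂ / m := by
      rw [hS₀d]
      exact (min_le_right _ _).trans ((min_le_right _ _).trans (min_le_right _ _))
    rwa [le_div_iff₀ hm, mul_comm] at h1
  have hL0 : 0 < L := by linarith
  obtain ⟨S, hSd⟩ : ∃ S, S = min (min S₀ (min (ρ₀ / 4) 1)) (min r₀ (min (r₁ / L)
    ((T - T₃) / (2 * L)))) := ⟨_, rfl⟩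
  have hS : 0 < S := by
    rw [hSd]
    refine lt_min (lt_min hS₀ (lt_min (by positivity) one_pos)) (lt_min hr₀ (lt_min (by positivity)
      ?_))
    exact div_pos (by linarith) (by positivity)
  have hS0 : S ≤ S₀ := by rw [hSd]; exact (min_le_left _ _).trans (min_le_left _ _)
  have hS1 : S ≤ ρ₀ / 4 := by
    rw [hSd]; exact (min_le_left _ _).trans ((min_le_right _ _).trans (min_le_left _ _))
  have hSle1 : S ≤ 1 := by
    rw [hSd]; exact (min_le_left _ _).trans ((min_le_right _ _).trans (min_le_right _ _))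
  have hS2 : S ≤ r₀ := by rw [hSd]; exact (min_le_right _ _).trans (min_le_left _ _)
  have hS3 : S ≤ r₁ / L := by
    rw [hSd]; exact (min_le_right _ _).trans ((min_le_right _ _).trans (min_le_left _ _))
  have hS4 : S ≤ (T - T₃) / (2 * L) := by
    rw [hSd]; exact (min_le_right _ _).trans ((min_le_right _ _).trans (min_le_right _ _))
  -- concentration
  obtain ⟨ρ', hρ'd⟩ : ∃ ρ', ρ' = min ((1 / 256) ^ N * S) (min (ρ₀ / 4) (R₂ / 2)) := ⟨_, rfl⟩
  have hρ' : 0 < ρ' := by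
    rw [hρ'd]; exact lt_min (by positivity) (lt_min (by positivity) (by positivity))
  have hρ'1 : ρ' ≤ (1 / 256) ^ N * S := by rw [hρ'd]; exact min_le_left _ _
  have hρ'2 : ρ' ≤ ρ₀ / 4 := by
    rw [hρ'd]; exact (min_le_right _ _).trans (min_le_left _ _)
  have hρ'3 : ρ' ≤ R₂ / 2 := by
    rw [hρ'd]; exact (min_le_right _ _).trans (min_le_right _ _)
  obtain ⟨T₁, hT₁d⟩ : ∃ T₁, T₁ = max ((T₃ + T) / 2) (T / 2) := ⟨_, rfl⟩
  have hT₁1 : (T₃ + T) / 2 ≤ T₁ := by rw [hT₁d]; exact le_max_left _ _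
  have hT₁2 : T / 2 ≤ T₁ := by rw [hT₁d]; exact le_max_right _ _
  have hT₁T : T₁ < T := by rw [hT₁d]; exact max_lt (by linarith) (by linarith)
  have hex : ∃ t, T₁ < t ∧ t < T ∧ ∃ x ρ, 0 < ρ ∧ ‖x - a‖ + ρ ≤ ρ' ∧
      η * ρ ≤ ∫ y in closedBall x ρ, om (u t) y := by
    by_contra hno
    push Not at hno
    obtain ⟨r₂, hr₂, hsm⟩ := hSmall T E O u p hT hu T₁ ρ' a (by linarith) hT₁T hρ'
      ((closedBall_subset_closedBall (by linarith)).trans hO) (by
        intro t ht x r hr hxr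
        have h1 := hno t ht.1 ht.2 x r hr hxr
        rw [abs_omL]
        exact h1.le.trans (mul_le_mul_of_nonneg_right hηc hr.le))
    obtain ⟨r₃, hr₃d⟩ : ∃ r₃, r₃ = min r₂ (min (ρ₀ / 4) 1) := ⟨_, rfl⟩
    have hr₃ : 0 < r₃ := by rw [hr₃d]; exact lt_min hr₂ (lt_min (by positivity) one_pos)
    have hr₃2 : r₃ ≤ r₂ := by rw [hr₃d]; exact min_le_left _ _
    have hr₃3 : r₃ ≤ ρ₀ / 4 := by rw [hr₃d]; exact (min_le_right _ _).trans (min_le_left _ _)
    have hr₃4 : r₃ ≤ 1 := by rw [hr₃d]; exact (min_le_right _ _).trans (min_le_right _ _)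
    obtain ⟨B, δ, hδ, hbd⟩ := hReg T E O u p hT hu ((T₁ + T) / 2) r₃ (ρ' / 2) a
      (by linarith) (by linarith) hr₃ (by positivity)
      ((closedBall_subset_closedBall (by linarith)).trans hO)
      (fun t ht x hx r hr => hmol t ⟨by linarith [ht.1], ht.2⟩ x (by
        rw [mem_closedBall, dist_eq_norm] at hx
        linarith) r hr.1 (hr.2.trans hr₃3) (hr.2.trans hr₃4))
      (fun t ht x hx r hr => hsm t ht x hx r ⟨hr.1, hr.2.trans hr₃2⟩)
    refine hcon ⟨B, min δ (ρ' / 4), lt_min hδ (by positivity), fun t ht ht0 x hx => ?_⟩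
    refine hbd t ⟨?_, ht.2⟩ ht0 x (closedBall_subset_closedBall ?_ hx)
    · linarith [ht.1, min_le_left δ (ρ' / 4)]
    · linarith [min_le_right δ (ρ' / 4)]
  obtain ⟨t, ht1, ht2, x, ρ, hρ, hxρ, hconc⟩ := hex
  have htT : t ∈ Ioo T₀ T := ⟨by linarith, ht2⟩
  have hxa : ‖x - a‖ ≤ ρ₀ / 4 := by linarith
  have hρρ' : ρ ≤ ρ' := by linarith [norm_nonneg (x - a)]
  have hsm := slice_u hu.toLEq (hIoo t htT)
  have hxR : ‖x - a‖ ≤ R₂ / 2 := by linarith
  have hSS : m * S ^ 2 ≤ m * S₀ := by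
    refine mul_le_mul_of_nonneg_left ?_ hm.le
    have h1 : S ^ 2 ≤ S := pow_le_of_le_one hS.le hSle1 two_ne_zero
    linarith
  have htu : ∀ t' ∈ Ioo T₃ T, ∀ r' : ℝ, 0 < r' → r' ≤ S →
      P (u t') (Dm (u t') x r' m) (min ε₁ ε₂) := by
    intro t' ht' r' hr' hrS'
    refine hPm _ _ _ _ _ (hTu t' ⟨by linarith [ht'.1], ht'.2⟩ (by linarith [ht'.1])) (Dm_sub ?_)
      le_rfl
    linarith
  have hMorx : ∫ y in closedBall x S, om (u t) y ≤ K * S := by
    have h1 := hMor t htT x S hS (by linarith)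
    rwa [abs_omL] at h1
  -- the scale
  have hlkx : Lk (u t) m x S ≤ cP * η := by
    refine (hlk t ⟨by linarith, ht2⟩ x ?_ S m hS (hS0.trans hS₀L) hm).trans
      (hlk1 S hS (hS0.trans hS₀1))
    rw [mem_closedBall, dist_eq_norm]
    linarith
  obtain ⟨k, hk, hrad, hflux⟩ := hPin (u t) x S ρ m hsm hS hm
    (hPm _ _ _ _ _ (htu t ⟨by linarith, ht2⟩ S hS le_rfl) le_rfl (min_le_left _ _)) hlkx
    (hSS.trans hS₀m) hMorx hρ (hρρ'.trans hρ'1) hconc
  obtain ⟨r, hrd⟩ : ∃ r, r = (1 / 256) ^ k * (S / 4) := ⟨_, rfl⟩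
  rw [← hrd] at hrad hflux
  have hr : 0 < r := by rw [hrd]; positivity
  have hrS : r ≤ S := by
    rw [hrd]
    have h1 : (1 / 256 : ℝ) ^ k ≤ 1 := pow_le_one₀ (by norm_num) (by norm_num)
    have h2 : (1 / 256) ^ k * (S / 4) ≤ 1 * (S / 4) := mul_le_mul_of_nonneg_right h1 (by positivity)
    linarith
  have hr1 : r ≤ 1 := hrS.trans hSle1
  have hLr : L * r ≤ r₁ := by
    rw [le_div_iff₀ hL0] at hS3
    have h2 : L * r ≤ L * S := mul_le_mul_of_nonneg_left hrS hL0.le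
    linarith
  have hLr2 : L * r ^ 2 ≤ (T - T₃) / 2 := by
    rw [le_div_iff₀ (by positivity)] at hS4
    have h1 : r ^ 2 ≤ r := pow_le_of_le_one hr.le hr1 two_ne_zero
    have h2 : L * r ^ 2 ≤ L * S := mul_le_mul_of_nonneg_left (h1.trans hrS) hL0.le
    linarith
  have hball : ∀ y ∈ closedBall x (ρ₀ / 4), ‖y - a‖ ≤ ρ₀ / 2 := by
    intro y hy
    have h1 : ‖y - a‖ ≤ ‖y - x‖ + ‖x - a‖ := by
      have e1 : y - a = (y - x) + (x - a) := by abel
      rw [e1]
      exact norm_add_le _ _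
    rw [mem_closedBall, dist_eq_norm] at hy
    linarith
  obtain ⟨s, hs, hgd2⟩ := hGood t r x hr (hrS.trans hS2) (by linarith) ht2 (by linarith)
    (fun τ hτ y hy ρ hρ => hmol τ ⟨by linarith [hτ.1], hτ.2.trans ht2⟩ y (hball y hy) ρ hρ.1
      (hρ.2.trans (hrS.trans hS1)) (hρ.2.trans hr1))
    (fun y hy ρ hρ => hdis t ⟨by linarith, ht2⟩ y (by
      rw [mem_closedBall, dist_eq_norm]
      exact hball y hy) ρ ⟨hρ.1, hρ.2.trans hLr⟩)
  have hs0 : 0 < s := lt_of_lt_of_le (by positivity) hs.1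
  -- the time interval
  have hgr : 0 < g * r := by positivity
  have hgr2 : (g * r) ^ 2 ≤ (h * r) ^ 2 := pow_le_pow_left₀ hgr.le
    (mul_le_mul_of_nonneg_right (by linarith) hr.le) 2
  have hgr3 : (g * r) ^ 2 ≤ L * r ^ 2 := by
    have h1 : g ^ 2 ≤ 1 := pow_le_one₀ hg.le (by linarith)
    have h2 : (g * r) ^ 2 = g ^ 2 * r ^ 2 := by ring
    rw [h2]
    exact mul_le_mul_of_nonneg_right (h1.trans hL) (sq_nonneg r)
  have htI : ∀ t' ∈ Ioc (t - (g * r) ^ 2) t, t' ∈ Ioo T₀ T ∧ t' ∈ Ioo T₂ T ∧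
      t' ∈ Ioc (t - (h * r) ^ 2) t := by
    intro t' ht'
    have h1 := ht'.1
    have h2 := ht'.2
    exact ⟨⟨by linarith, by linarith⟩, ⟨by linarith, by linarith⟩, ⟨by linarith, h2⟩⟩
  -- the points near the surface
  have hnear : ∀ y : V, |‖y - x‖ - s| ≤ g * r → ∃ y', ‖y' - x‖ = s ∧ ‖y - y'‖ ≤ g * r := by
    intro y hy
    have hy' := abs_le.1 hy
    have hp : 0 < ‖y - x‖ := by
      have h1 : g * r ≤ 1 / 128 * r := mul_le_mul_of_nonneg_right hg1 hr.le
      linarith [hs.1]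
    refine ⟨x + (s / ‖y - x‖) • (y - x), ?_, ?_⟩
    · rw [add_sub_cancel_left, norm_smul, Real.norm_eq_abs, abs_of_pos (by positivity)]
      field_simp
    · have e1 : y - (x + (s / ‖y - x‖) • (y - x)) = (1 - s / ‖y - x‖) • (y - x) := by
        module
      rw [e1, norm_smul, Real.norm_eq_abs]
      have e2 : (1 - s / ‖y - x‖) = (‖y - x‖ - s) / ‖y - x‖ := by field_simp
      rw [e2, abs_div, abs_of_pos hp]
      have e3 : |‖y - x‖ - s| / ‖y - x‖ * ‖y - x‖ = |‖y - x‖ - s| := by field_simp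
      rw [e3]
      exact hy
  have hGdy : ∀ y : V, |‖y - x‖ - s| ≤ g * r → ∀ t' ∈ Ioc (t - (g * r) ^ 2) t,
      Gd cG (g * r) (u t') y := by
    intro y hy t' ht'
    obtain ⟨y', hy1, hy2⟩ := hnear y hy
    have h1 : g * r ≤ h / 2 * r := mul_le_mul_of_nonneg_right hgh hr.le
    have h3 := mul_pos hh hr
    exact Gd.mono' hcG0.le hgr (by linarith only [h1, h3]) (by linarith only [h1, h3, hy2])
      (hgd2 y' hy1 t' (htI t' ht').2.2)
  have hgrr : g * r ≤ 1 / 128 * r := mul_le_mul_of_nonneg_right hg1 hr.le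
  have hya : ∀ y : V, |‖y - x‖ - s| ≤ g * r → ‖y - a‖ + g * r ≤ ρ₀ / 2 := by
    intro y hy
    have hy' := abs_le.1 hy
    have h1 : ‖y - a‖ ≤ ‖y - x‖ + ‖x - a‖ := by
      have e1 : y - a = (y - x) + (x - a) := by abel
      rw [e1]
      exact norm_add_le _ _
    linarith [hs.2]
  -- the bounds
  have hbounds : ∀ t' ∈ Ioc (t - (g * r) ^ 2) t, ∀ y, |‖y - x‖ - s| < g * r → y ∈ O ∧
      (∀ n ≤ 5, ∀ i j, r ^ (2 * n + 4) * SQ n (cur i j (u t')) y ≤ M) ∧
      ∀ n ≤ 4, ∀ i, r ^ (2 * n + 2) * SQ n (fun z => u t' z i) y ≤ M := by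
    intro t' ht' y hy
    have hG := hGdy y hy.le t' ht'
    have hya' := hya y hy.le
    have htT' := (htI t' ht').1
    refine ⟨hO ?_, fun n hn i j => ?_, fun n hn i => ?_⟩
    · rw [mem_closedBall, dist_eq_norm]
      linarith
    · have h1 := hG y (mem_ball_self hgr) n i j
      have h2 := hMn n hn
      have h3 : 0 ≤ (Cv * (1 + Q) / g ^ (n + 1)) ^ 2 := sq_nonneg _
      have h4 : r ^ (2 * n + 4) * (cG ^ (n + 1) * n.factorial / (g * r) ^ (n + 2)) ^ 2
          = (cG ^ (n + 1) * n.factorial / g ^ (n + 2)) ^ 2 := by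
        have e : r ^ (2 * n + 4) = (r ^ (n + 2)) ^ 2 := by rw [← pow_mul]; congr 1; ring
        rw [e, mul_pow g r, ← mul_pow]
        congr 1
        field_simp
      have h5 : r ^ (2 * n + 4) * SQ n (cur i j (u t')) y
          ≤ r ^ (2 * n + 4) * (cG ^ (n + 1) * n.factorial / (g * r) ^ (n + 2)) ^ 2 :=
        mul_le_mul_of_nonneg_left h1 (by positivity)
      linarith
    · have h1 := hVelT (u t') a y ρ₀ (g * r) Q (slice_u hu.toLEq (hIoo t' htT')) hQ hgr
        (by linarith) (by linarith)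
        (fun x hx => hu.divfree t' (hIoo t' htT') x (hO (ball_subset_closedBall hx)))
        (hMor t' htT') (by rw [hQd]; exact hen2 t' htT') hya' hG n hn i
      have h2 := hMn n (by omega)
      have h3 : 0 ≤ (cG ^ (n + 1) * n.factorial / g ^ (n + 2)) ^ 2 := sq_nonneg _
      have h4 : r ^ (2 * n + 2) * (Cv * (1 + Q) / (g * r) ^ (n + 1)) ^ 2
          = (Cv * (1 + Q) / g ^ (n + 1)) ^ 2 := by
        have e : r ^ (2 * n + 2) = (r ^ (n + 1)) ^ 2 := by rw [← pow_mul]; congr 1; ring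
        rw [e, mul_pow g r, ← mul_pow]
        congr 1
        field_simp
      have h5 : r ^ (2 * n + 2) * SQ n (fun z => u t' z i) y
          ≤ r ^ (2 * n + 2) * (Cv * (1 + Q) / (g * r) ^ (n + 1)) ^ 2 :=
        mul_le_mul_of_nonneg_left h1 (by positivity)
      linarith
  -- the shells are compact
  have hShc : ∀ w : ℝ, IsCompact (Shell x s w) := by
    intro w
    refine (isCompact_closedBall x (s + w)).of_isClosed_subset ?_ ?_
    · have : Continuous fun y : V => |‖y - x‖ - s| := by fun_prop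
      exact isClosed_le this continuous_const
    · intro y hy
      have hy' : |‖y - x‖ - s| ≤ w := hy
      have := (abs_le.1 hy').2
      rw [mem_closedBall, dist_eq_norm]
      linarith
  -- the vorticity is nearly radial
  have hradI : ∫ y in Shell x s (g * r), len (crossProduct (y - x) (vort (u t) y)) ^ 2 ≤ τ * r := by
    have hsub : Shell x s (g * r) ⊆ closedBall x (r / 16) \ ball x (r / 128) := by
      intro y hy
      have hy' : |‖y - x‖ - s| ≤ g * r := hy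
      have hy'' := abs_le.1 hy'
      refine ⟨?_, ?_⟩
      · rw [mem_closedBall, dist_eq_norm]
        linarith [hs.2]
      · rw [Metric.mem_ball, dist_eq_norm, not_lt]
        linarith [hs.1]
    have hpt : ∀ y ∈ Shell x s (g * r), len (crossProduct (y - x) (vort (u t) y)) ^ 2
        ≤ 2 * cG / (g * r) ^ 2 *
          (len (crossProduct (y - x) (vort (u t) y)) ^ 2 / om (u t) y) := by
      intro y hy
      by_cases h0 : om (u t) y = 0
      · have h3 : vort (u t) y = 0 := by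
          by_contra hc
          have := Pool.Agent.H1CV.len_pos_of_ne hc
          unfold om at h0
          linarith
        rw [h3, h0]
        simp [len]
      · have hp : 0 < om (u t) y := lt_of_le_of_ne (om_nnL _ _) (Ne.symm h0)
        have hG := hGdy y hy t ⟨by
          have := pow_pos hgr 2
          linarith, le_rfl⟩
        have h4 : om (u t) y ^ 2 ≤ (2 * cG / (g * r) ^ 2) ^ 2 := by
          rw [om_sq]
          have h5 : ∀ i, vc (u t) i y ^ 2 ≤ (cG / (g * r) ^ 2) ^ 2 := by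
            intro i
            have h6 := hG y (mem_ball_self hgr) 0 (Pool.Agent.Q129.VD3.aI i)
              (Pool.Agent.Q129.VD3.bI i)
            have h7 : vc (u t) i y = cur (Pool.Agent.Q129.VD3.aI i)
              (Pool.Agent.Q129.VD3.bI i) (u t) y := by
              rw [vc_eq]
              rfl
            rw [h7]
            simpa [SQ] using h6
          refine (Finset.sum_le_sum fun i _ => h5 i).trans ?_
          simp only [Finset.sum_const, Finset.card_univ, Fintype.card_fin, nsmul_eq_mul]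
          have e : (2 * cG / (g * r) ^ 2) ^ 2 = 4 * (cG / (g * r) ^ 2) ^ 2 := by ring
          rw [e]
          have : 0 ≤ (cG / (g * r) ^ 2) ^ 2 := sq_nonneg _
          push_cast
          linarith
        have h8 : om (u t) y ≤ 2 * cG / (g * r) ^ 2 :=
          abs_le_of_sq_le_sq' h4 (by positivity) |>.2
        have h9 : len (crossProduct (y - x) (vort (u t) y)) ^ 2
            = om (u t) y * (len (crossProduct (y - x) (vort (u t) y)) ^ 2 / om (u t) y) := by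
          field_simp
        calc len (crossProduct (y - x) (vort (u t) y)) ^ 2
            = om (u t) y * (len (crossProduct (y - x) (vort (u t) y)) ^ 2 / om (u t) y) := h9
          _ ≤ _ := mul_le_mul_of_nonneg_right h8 (div_nonneg (sq_nonneg _) hp.le)
    have hlc : Continuous fun y => len (crossProduct (y - x) (vort (u t) y)) ^ 2 :=
      (len_cont.comp (cross_cont (continuous_id.sub continuous_const)
        (vort_c1 hsm).continuous)).pow 2
    have hqi : IntegrableOn (fun y => len (crossProduct (y - x) (vort (u t) y)) ^ 2 / om (u t) y)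
        (closedBall x (r / 16)) := by
      have h1 : IntegrableOn (fun y => len (y - x) ^ 2 * om (u t) y) (closedBall x (r / 16)) := by
        have : Continuous fun y => len (y - x) ^ 2 * om (u t) y :=
          ((len_cont.comp (continuous_id.sub continuous_const)).pow 2).mul (om_cont' hsm)
        exact this.continuousOn.integrableOn_compact (isCompact_closedBall _ _)
      refine Integrable.mono' h1 (hlc.measurable.div (om_cont' hsm).measurable).aestronglyMeasurable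
        (Eventually.of_forall fun y => ?_)
      have h0 := om_nnL (u t) y
      rw [Real.norm_eq_abs, abs_of_nonneg (div_nonneg (sq_nonneg _) h0)]
      by_cases h2 : om (u t) y = 0
      · rw [h2]
        simp
      · have hp : 0 < om (u t) y := lt_of_le_of_ne h0 (Ne.symm h2)
        rw [div_le_iff₀ hp]
        have h3 := cross_len (y - x) (vort (u t) y)
        have h4 : len (crossProduct (y - x) (vort (u t) y)) ^ 2
            ≤ (len (y - x) * len (vort (u t) y)) ^ 2 := pow_le_pow_left₀ (len_nn _) h3 2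
        refine h4.trans (le_of_eq ?_)
        unfold om
        ring
    calc ∫ y in Shell x s (g * r), len (crossProduct (y - x) (vort (u t) y)) ^ 2
        ≤ ∫ y in Shell x s (g * r), 2 * cG / (g * r) ^ 2 *
          (len (crossProduct (y - x) (vort (u t) y)) ^ 2 / om (u t) y) := by
          apply setIntegral_mono_on (hlc.continuousOn.integrableOn_compact (hShc _))
            ((hqi.mono_set (hsub.trans sdiff_subset)).const_mul _) (hShc _).measurableSet hpt
      _ = 2 * cG / (g * r) ^ 2 * ∫ y in Shell x s (g * r),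
          len (crossProduct (y - x) (vort (u t) y)) ^ 2 / om (u t) y := integral_const_mul _ _
      _ ≤ 2 * cG / (g * r) ^ 2 * ∫ y in closedBall x (r / 16) \ ball x (r / 128),
          len (crossProduct (y - x) (vort (u t) y)) ^ 2 / om (u t) y := by
          refine mul_le_mul_of_nonneg_left ?_ (by positivity)
          exact setIntegral_mono_set (hqi.mono_set sdiff_subset)
            (Eventually.of_forall fun y => div_nonneg (sq_nonneg _) (om_nnL _ _))
            hsub.eventuallyLE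
      _ ≤ 2 * cG / (g * r) ^ 2 * (τ' * r ^ 3) := mul_le_mul_of_nonneg_left hrad (by positivity)
      _ = 2 * cG / g ^ 2 * τ' * r := by
          field_simp
      _ ≤ τ * r := mul_le_mul_of_nonneg_right hτ'τ hr.le
  -- the smaller shell
  have hhg : g / 2 * r ≤ g * r := by
    have := mul_pos hg hr
    linarith only [this]
  have hhg2 : (g / 2 * r) ^ 2 ≤ (g * r) ^ 2 := pow_le_pow_left₀ (by positivity) hhg 2
  have hmono : ∀ t' ∈ Ioc (t - (g / 2 * r) ^ 2) t, t' ∈ Ioc (t - (g * r) ^ 2) t := fun t' ht' =>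
    ⟨by linarith [ht'.1], ht'.2⟩
  have hradI' : ∫ y in Shell x s (g / 2 * r),
      len (crossProduct (y - x) (vort (u t) y)) ^ 2 ≤ τ * r := by
    have hlc : Continuous fun y => len (crossProduct (y - x) (vort (u t) y)) ^ 2 :=
      (len_cont.comp (cross_cont (continuous_id.sub continuous_const)
        (vort_c1 hsm).continuous)).pow 2
    refine (setIntegral_mono_set (hlc.continuousOn.integrableOn_compact (hShc _))
      (Eventually.of_forall fun y => sq_nonneg _) (LE.le.eventuallyLE ?_)).trans hradI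
    intro y hy
    exact le_trans (show |‖y - x‖ - s| ≤ g / 2 * r from hy) hhg
  -- the curvature is small
  have hcvI : ∀ t' ∈ Ioc (t - (g / 2 * r) ^ 2) t, ∫ y in Shell x s (g / 2 * r),
      cv (u t') y ≤ τ := by
    intro t' ht'
    have ht'' := hmono t' ht'
    obtain ⟨h1, h2, -⟩ := htI t' ht''
    have hsm' := slice_u hu.toLEq (hIoo t' h1)
    have h3 := hCvM (u t') x r s m hsm' hr hm (by
      have h4 : m * r ^ 2 ≤ m * S ^ 2 :=
        mul_le_mul_of_nonneg_left (pow_le_pow_left₀ hr.le hrS 2) hm.le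
      linarith) hs.1 hs.2 (fun y hy => (hbounds t' ht'' y hy).2.1)
      (hPm _ _ _ _ _ (htu t' ⟨by linarith [ht''.1], h2.2⟩ r hr hrS) le_rfl (min_le_right _ _))
    have e : g * r / 2 = g / 2 * r := by ring
    rwa [e] at h3
  have hgt : (g / 2 * r) ^ 2 < t := by linarith
  have hsml := hShR T O u p t r s x hu.toLEq hr hgt ht2 hs.1 hs.2
    (fun t' ht' y hy => hbounds t' (hmono t' ht') y (hy.trans_le hhg)) hradI' hcvI
  -- the contradiction
  obtain ⟨w, hwd⟩ : ∃ w, w = min (w₀ * r) (s / 4) := ⟨_, rfl⟩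
  have hw : 0 < w := by rw [hwd]; exact lt_min (by positivity) (by positivity)
  have hw1 : w ≤ w₀ * r := by rw [hwd]; exact min_le_left _ _
  have hw2 : w ≤ s / 4 := by rw [hwd]; exact min_le_right _ _
  have hflux := hflux s w hs.1 hs.2 hw hw2
  have hvol := vol_shell x s w hw hw2
  have hfin : volume (Shell x s w) < ⊤ := hvol.trans_lt ENNReal.ofReal_lt_top
  have hint : ∫ y in Shell x s w, om (u t) y
      ≤ 8 * cP * η / r ^ 2 * (volume (Shell x s w)).toReal := by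
    have h1 := norm_setIntegral_le_of_norm_le_const (μ := volume) (s := Shell x s w)
      (f := om (u t)) (C := 8 * cP * η / r ^ 2) hfin
      (fun y hy => by
        rw [Real.norm_eq_abs, abs_of_nonneg (om_nnL _ _)]
        exact hsml y (le_trans hy hw1))
    exact (Real.le_norm_self _).trans h1
  have hvr : (volume (Shell x s w)).toReal ≤ 64 * s ^ 2 * w :=
    ENNReal.toReal_le_of_le_ofReal (by positivity) hvol
  have hs2 : s ^ 2 ≤ (r / 32) ^ 2 := pow_le_pow_left₀ hs0.le hs.2 2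
  have hvr2 : (volume (Shell x s w)).toReal ≤ r ^ 2 * w / 16 := by
    refine hvr.trans ?_
    have h1 : 64 * s ^ 2 * w ≤ 64 * (r / 32) ^ 2 * w := by gcongr
    refine h1.trans (le_of_eq ?_)
    ring
  have hfinal : ∫ y in Shell x s w, om (u t) y ≤ cP * η * w / 2 := by
    refine hint.trans ((mul_le_mul_of_nonneg_left hvr2 (by positivity)).trans (le_of_eq ?_))
    field_simp
    ring
  have hpos : 0 < cP * η * w := by positivity
  linarith

end Pool.Agent.H1TV
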