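import Pool.Agent.H1TV.Lk
import Pool.Agent.H2CV.Shl2

/-!
Project TV: the leak controls the gradient where the vorticity is small.
-/

set_option autoImplicit false

open MeasureTheory Set Metric Filter Topology
open scoped ContDiff ENNReal
open H459R3.NS Pool.Agent.W268.NS Pool.Agent.Q67.VD

namespace Pool.Agent.H1TV

open Pool.Agent.Q85.CC Pool.Agent.Q85.CL Pool.Agent.Q85.VL Pool.Agent.H2CV

lemma fd_le {v : V → V} (hv : SM v) (y : V) :
    ‖fderiv ℝ (vort v) y‖ ≤ ∑ i, ∑ j, |pd j (fun z => vort v z i) y| := by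
  have hd : ∀ i, DifferentiableAt ℝ (fun z => vort v z i) y := fun i =>
    ((sm_vc hv i).differentiable (by norm_cast)).differentiableAt
  refine ContinuousLinearMap.opNorm_le_bound _ (Finset.sum_nonneg fun i _ =>
    Finset.sum_nonneg fun j _ => abs_nonneg _) fun h => ?_
  rw [pi_norm_le_iff_of_nonneg (mul_nonneg (Finset.sum_nonneg fun i _ =>
    Finset.sum_nonneg fun j _ => abs_nonneg _) (norm_nonneg _))]
  intro i
  have e1 : fderiv ℝ (vort v) y h i = ∑ j, h j * pd j (fun z => vort v z i) y := by
    have e2 : fderiv ℝ (vort v) y h i = fderiv ℝ (fun z => vort v z i) y h := by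
      rw [fderiv_pi hd]
      rfl
    rw [e2]
    conv_lhs => rw [← Finset.univ_sum_single h]
    rw [map_sum]
    refine Finset.sum_congr rfl fun j _ => ?_
    have e3 : (Pi.single j (h j) : V) = h j • (Pi.single j 1 : V) := by
      rw [← Pi.single_smul, smul_eq_mul, mul_one]
    rw [e3, map_smul, smul_eq_mul]
    rfl
  rw [e1, Real.norm_eq_abs]
  calc |∑ j, h j * pd j (fun z => vort v z i) y|
      ≤ ∑ j, |h j * pd j (fun z => vort v z i) y| := Finset.abs_sum_le_sum_abs _ _
    _ ≤ ∑ j, ‖h‖ * |pd j (fun z => vort v z i) y| := by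
        refine Finset.sum_le_sum fun j _ => ?_
        rw [abs_mul]
        exact mul_le_mul_of_nonneg_right (norm_le_pi_norm h j) (abs_nonneg _)
    _ = ‖h‖ * ∑ j, |pd j (fun z => vort v z i) y| := by rw [Finset.mul_sum]
    _ ≤ ‖h‖ * ∑ i, ∑ j, |pd j (fun z => vort v z i) y| := by
        refine mul_le_mul_of_nonneg_left ?_ (norm_nonneg _)
        exact Finset.single_le_sum (f := fun i => ∑ j, |pd j (fun z => vort v z i) y|)
          (fun i _ => Finset.sum_nonneg fun j _ => abs_nonneg _) (Finset.mem_univ i)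
    _ = _ := mul_comm _ _

/-- Where the vorticity is small the gradient is controlled by the leak. -/
lemma grad_lkd {v : V → V} {m k : ℝ} (hm : 0 < m) {y : V} (h : om v y ≤ k * m) :
    ∑ i, ∑ j, |pd j (fun z => vort v z i) y|
      ≤ (1 + k ^ 2) * ∑ i, ∑ j, lkd (vc v i) m j y := by
  rw [Finset.mul_sum]
  refine Finset.sum_le_sum fun i _ => ?_
  rw [Finset.mul_sum]
  refine Finset.sum_le_sum fun j _ => ?_
  unfold lkd
  rw [mul_div_assoc', le_div_iff₀ (by positivity), mul_comm]
  refine mul_le_mul_of_nonneg_right ?_ (abs_nonneg _)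
  have h1 : (vc v i y / m) ^ 2 ≤ k ^ 2 := by
    rw [div_pow, div_le_iff₀ (by positivity), ← mul_pow]
    have h2 : vc v i y ^ 2 ≤ om v y ^ 2 := by
      rw [om_sq]
      exact Finset.single_le_sum (f := fun i => vc v i y ^ 2) (fun i _ => sq_nonneg _)
        (Finset.mem_univ i)
    have h3 : om v y ^ 2 ≤ (k * m) ^ 2 := pow_le_pow_left₀ (Pool.Agent.H2CV.len_nn _) h 2
    linarith
  linarith

lemma lk_eq {v : V → V} (hv : SM v) (m : ℝ) (x : V) (r : ℝ) :
    Lk v m x r = ∫ y in closedBall x r, ∑ i, ∑ j, lkd (vc v i) m j y := by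
  have hi : ∀ i j, IntegrableOn (lkd (vc v i) m j) (closedBall x r) := fun i j =>
    (lkd_cont (sm_vc hv i) m j).continuousOn.integrableOn_compact (isCompact_closedBall _ _)
  rw [integral_finsetSum _ fun i _ => integrable_finsetSum _ fun j _ => hi i j]
  unfold Lk
  refine Finset.sum_congr rfl fun i _ => ?_
  rw [integral_finsetSum _ fun j _ => hi i j]
  rfl

lemma lks_int {v : V → V} (hv : SM v) (m : ℝ) (x : V) (r : ℝ) :
    IntegrableOn (fun y => ∑ i, ∑ j, lkd (vc v i) m j y) (closedBall x r) := by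
  refine integrable_finsetSum _ fun i _ => integrable_finsetSum _ fun j _ => ?_
  exact (lkd_cont (sm_vc hv i) m j).continuousOn.integrableOn_compact (isCompact_closedBall _ _)

lemma lks_nn (v : V → V) (m : ℝ) (y : V) : 0 ≤ ∑ i, ∑ j, lkd (vc v i) m j y :=
  Finset.sum_nonneg fun _ _ => Finset.sum_nonneg fun _ _ => lkd_nonneg _ _ _ _

/-- The curvature where the vorticity is small. -/
lemma weak_cv {v : V → V} (hv : SM v) {m : ℝ} (hm : 0 < m) (x : V) (r : ℝ) :
    ∫ y in closedBall x r ∩ {y | om v y ≤ m}, cv v y ≤ 4 * Lk v m x r := by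
  have hmeas : MeasurableSet {y | om v y ≤ m} :=
    (isClosed_le (om_cont' hv) continuous_const).measurableSet
  rw [lk_eq hv, ← integral_const_mul]
  calc ∫ y in closedBall x r ∩ {y | om v y ≤ m}, cv v y
      ≤ ∫ y in closedBall x r ∩ {y | om v y ≤ m}, 4 * ∑ i, ∑ j, lkd (vc v i) m j y := by
        refine setIntegral_mono_on ((cv_int hv (isCompact_closedBall x r)).mono_set inter_subset_left)
          (((lks_int hv m x r).mono_set inter_subset_left).const_mul 4)
          (isClosed_closedBall.measurableSet.inter hmeas) fun y hy => ?_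
        have h1 := grad_lkd (k := 1) hm (y := y) (v := v) (by
          rw [one_mul]
          exact hy.2)
        have h2 := fd_le hv y
        have h3 := cv_le v y
        norm_num at h1
        linarith
    _ ≤ ∫ y in closedBall x r, 4 * ∑ i, ∑ j, lkd (vc v i) m j y := by
        refine setIntegral_mono_set ((lks_int hv m x r).const_mul 4)
          (Eventually.of_forall fun y => mul_nonneg (by norm_num) (lks_nn v m y))
          inter_subset_left.eventuallyLE

end Pool.Agent.H1TV
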