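import Pool.Agent.H1TV.PotV
import Pool.Agent.H1TV.LkB

/-!
Project TV: the flux inequality.
-/

set_option autoImplicit false

open MeasureTheory Set Metric Filter Topology
open scoped ContDiff ENNReal NNReal
open H459R3.NS Pool.Agent.W268.NS Pool.Agent.Q67.VD

namespace Pool.Agent.H1TV

open Pool.Agent.Q85.CC Pool.Agent.Q85.CL Pool.Agent.Q85.VL Pool.Agent.H2CV

/-- Integration by parts for a Lipschitz function and a field. -/
lemma ibp {F : V → ℝ} {C : ℝ≥0} (hF : LipschitzWith C F) {W : Fin 3 → V → ℝ}
    (hW : ∀ i, ContDiff ℝ 1 (W i)) (hWc : ∀ i, HasCompactSupport (W i)) :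
    (∀ i, Integrable fun y => lineDeriv ℝ F y (Pi.single i 1) * W i y) ∧
    (∀ i, Integrable fun y => pd i (W i) y * F y) ∧
    ∫ y, ∑ i, lineDeriv ℝ F y (Pi.single i 1) * W i y = -∫ y, (∑ i, pd i (W i) y) * F y := by
  have hi : ∀ i, Integrable fun y => lineDeriv ℝ F y (Pi.single i 1) * W i y := by
    intro i
    have h1 := ((hW i).continuous.integrable_of_hasCompactSupport (μ := volume)
      (hWc i)).smul_of_top_left (hF.memLp_lineDeriv (μ := volume) (Pi.single i 1 : V))
    refine h1.congr (Eventually.of_forall fun y => ?_)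
    simp only [Pi.smul_apply', smul_eq_mul]
    ring
  have hj : ∀ i, Integrable fun y => pd i (W i) y * F y := by
    intro i
    refine Continuous.integrable_of_hasCompactSupport ?_ ?_
    · exact (((hW i).continuous_fderiv one_ne_zero).clm_apply continuous_const).mul hF.continuous
    · exact ((((hWc i).fderiv ℝ).comp_left
        (g := fun L : V →L[ℝ] ℝ => L (Pi.single i 1)) rfl)).mul_right
  refine ⟨hi, hj, ?_⟩
  rw [integral_finsetSum _ fun i _ => hi i]
  have e1 : ∫ y, (∑ i, pd i (W i) y) * F y = ∑ i, ∫ y, pd i (W i) y * F y := by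
    rw [← integral_finsetSum _ fun i _ => hj i]
    refine integral_congr_ae (Eventually.of_forall fun y => ?_)
    simp only
    rw [Finset.sum_mul]
  rw [e1, ← Finset.sum_neg_distrib]
  refine Finset.sum_congr rfl fun i _ => ?_
  obtain ⟨D, hD⟩ := ContDiff.lipschitzWith_of_hasCompactSupport (hWc i) (hW i) (by simp)
  rw [hF.integral_lineDeriv_mul_eq hD (hWc i), ← integral_neg]
  refine integral_congr_ae (Eventually.of_forall fun y => ?_)
  simp only
  rw [(((hW i).differentiable one_ne_zero).differentiableAt).lineDeriv_eq_fderiv, map_neg,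
    neg_mul]
  rfl

lemma kap_eq (m : ℝ) (v : V → V) : kap m v
    = fun y => stp ((5 * m ^ 2)⁻¹ * (∑ j, vc v j y ^ 2 - 4 * m ^ 2)) := by
  funext y
  unfold kap
  rw [om_sq, div_eq_inv_mul]

lemma kap_smooth {v : V → V} (hv : SM v) (m : ℝ) : ContDiff ℝ 1 (kap m v) := by
  rw [kap_eq]
  refine Pool.Agent.H2VL.stp_smooth.comp (contDiff_const.mul (ContDiff.sub ?_ contDiff_const))
  exact ContDiff.sum fun j _ => ((sm_vc hv j).of_le (by norm_cast)).pow 2

lemma pd_kap {v : V → V} (hv : SM v) (m : ℝ) (i : Fin 3) (y : V) :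
    pd i (kap m v) y = stp' ((om v y ^ 2 - 4 * m ^ 2) / (5 * m ^ 2)) * ((5 * m ^ 2)⁻¹ *
      ∑ j, 2 * vc v j y * pd i (vc v j) y) := by
  have hd : ∀ j, HasFDerivAt (vc v j) (fderiv ℝ (vc v j) y) y := fun j =>
    (((sm_vc hv j).differentiable (by norm_cast)).differentiableAt).hasFDerivAt
  have h1 : HasFDerivAt (fun y => ∑ j, vc v j y ^ 2)
      (∑ j, (2 * vc v j y) • fderiv ℝ (vc v j) y) y := by
    refine HasFDerivAt.fun_sum fun j _ => ?_
    have := (hd j).pow 2
    simpa using this
  have h2 : HasFDerivAt (fun y => (5 * m ^ 2)⁻¹ * (∑ j, vc v j y ^ 2 - 4 * m ^ 2))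
      ((5 * m ^ 2)⁻¹ • ∑ j, (2 * vc v j y) • fderiv ℝ (vc v j) y) y :=
    (h1.sub_const _).const_mul _
  have h3 := (Pool.Agent.H2VL.stp_hasDerivAt
    ((5 * m ^ 2)⁻¹ * (∑ j, vc v j y ^ 2 - 4 * m ^ 2))).comp_hasFDerivAt y h2
  have h4 : HasFDerivAt (kap m v) (stp' ((5 * m ^ 2)⁻¹ * (∑ j, vc v j y ^ 2 - 4 * m ^ 2)) •
      ((5 * m ^ 2)⁻¹ • ∑ j, (2 * vc v j y) • fderiv ℝ (vc v j) y)) y := by
    rw [kap_eq]
    exact h3
  unfold pd
  rw [h4.fderiv, om_sq, div_eq_inv_mul]
  rw [_root_.smul_apply, _root_.smul_apply, _root_.sum_apply]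
  simp only [_root_.smul_apply, smul_eq_mul]

/-- The gradient of the step function along the vorticity. -/
lemma kap_grad {v : V → V} (hv : SM v) {m : ℝ} (hm : 0 < m) (y : V) :
    |∑ i, pd i (kap m v) y * vc v i y| ≤ 72 * ∑ i, ∑ j, lkd (vc v i) m j y := by
  have hnn := lks_nn v m y
  obtain ⟨u, hu⟩ : ∃ u, u = (om v y ^ 2 - 4 * m ^ 2) / (5 * m ^ 2) := ⟨_, rfl⟩
  by_cases h0 : stp' u = 0
  · have h1 : ∀ i, pd i (kap m v) y = 0 := fun i => by
      rw [pd_kap hv, ← hu, h0, zero_mul]
    simp only [h1, zero_mul, Finset.sum_const_zero, abs_zero]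
    positivity
  · obtain ⟨h1, h2⟩ := Pool.Agent.H2VL.stp'_ne h0
    have hom0 : 0 ≤ om v y := Pool.Agent.H2CV.len_nn _
    have h3 : om v y ≤ 3 * m := by
      rw [hu, div_lt_one (by positivity)] at h2
      nlinarith
    have hc : ∀ i, |vc v i y| ≤ 3 * m := by
      intro i
      have h4 : vc v i y ^ 2 ≤ om v y ^ 2 := by
        rw [om_sq]
        exact Finset.single_le_sum (f := fun i => vc v i y ^ 2) (fun i _ => sq_nonneg _)
          (Finset.mem_univ i)
      exact (abs_le_of_sq_le_sq h4 hom0).trans h3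
    have hs0 := Pool.Agent.H2VL.stp'_nonneg u
    have hs2 := Pool.Agent.H2VL.stp'_le2 u
    have h5 : ∀ i, |pd i (kap m v) y * vc v i y|
        ≤ 36 / 5 * ∑ j, |pd i (vc v j) y| := by
      intro i
      rw [pd_kap hv, ← hu, abs_mul, abs_mul, abs_of_nonneg hs0, abs_mul,
        abs_of_pos (inv_pos.2 (by positivity : 0 < 5 * m ^ 2))]
      have h6 : |∑ j, 2 * vc v j y * pd i (vc v j) y| ≤ 6 * m * ∑ j, |pd i (vc v j) y| := by
        refine (Finset.abs_sum_le_sum_abs _ _).trans ?_
        rw [Finset.mul_sum]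
        refine Finset.sum_le_sum fun j _ => ?_
        rw [abs_mul, abs_mul, abs_of_pos (by norm_num : (0 : ℝ) < 2)]
        refine mul_le_mul_of_nonneg_right ?_ (abs_nonneg _)
        linarith [hc j]
      have hSn : 0 ≤ ∑ j, |pd i (vc v j) y| := Finset.sum_nonneg fun j _ => abs_nonneg _
      have e : 36 / 5 * ∑ j, |pd i (vc v j) y|
          = 2 * ((5 * m ^ 2)⁻¹ * (6 * m * ∑ j, |pd i (vc v j) y|)) * (3 * m) := by
        field_simp
        ring
      rw [e]
      refine mul_le_mul ?_ (hc i) (abs_nonneg _) (by positivity)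
      refine mul_le_mul hs2 ?_ (by positivity) (by norm_num)
      exact mul_le_mul_of_nonneg_left h6 (by positivity)
    have h7 : |∑ i, pd i (kap m v) y * vc v i y|
        ≤ 36 / 5 * ∑ i, ∑ j, |pd i (vc v j) y| := by
      refine (Finset.abs_sum_le_sum_abs _ _).trans ?_
      rw [Finset.mul_sum]
      exact Finset.sum_le_sum fun i _ => h5 i
    have h8 : ∑ i, ∑ j, |pd i (vc v j) y| = ∑ i, ∑ j, |pd j (vc v i) y| := Finset.sum_comm
    have h9 := grad_lkd hm h3
    have h10 : ∑ i, ∑ j, |pd j (fun z => vort v z i) y| = ∑ i, ∑ j, |pd j (vc v i) y| := rfl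
    rw [h10] at h9
    rw [h8] at h7
    linarith

set_option maxHeartbeats 1600000 in
theorem flx : StmFlx := by
  refine ⟨72, by norm_num, ?_⟩
  intro v x R m ℓ H L D h χ hv hR hm hℓ hH hL h0 hχ hχb hχs hχD harc
  obtain ⟨F, ⟨CF, hFL⟩, hFb, hFd⟩ := potV hv hR hm hℓ hH hL h0 harc
  have hL0 : 0 ≤ L := by
    have h1 := (abs_nonneg _).trans (hL (fun _ => 1) 0)
    have h2 : 0 < ‖(fun _ => 1 : V) - 0‖ := by
      rw [sub_zero, norm_pos_iff]
      intro h3
      have := congrFun h3 0
      norm_num at this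
    exact nonneg_of_mul_nonneg_left h1 h2
  have hD : 0 ≤ D := (abs_nonneg _).trans (hχD x 0)
  have hhc : Continuous h := by
    have : LipschitzWith ⟨L, hL0⟩ h := LipschitzWith.of_dist_le_mul fun y z => by
      rw [Real.dist_eq, dist_eq_norm]
      exact hL y z
    exact this.continuous
  have hkb : ∀ y, 0 ≤ kap m v y ∧ kap m v y ≤ 1 := fun y =>
    ⟨Pool.Agent.H2VL.stp_nonneg _, Pool.Agent.H2VL.stp_le_one _⟩
  have hks := kap_smooth hv m
  -- the cut-off function
  have hχz : ∀ y, y ∉ closedBall x (R / 2) → χ y = 0 := by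
    intro y hy
    by_contra hne
    have := hχs y hne
    rw [mem_closedBall, dist_eq_norm] at hy
    exact hy this
  have hψc : HasCompactSupport (fun y => χ y * kap m v y) :=
    HasCompactSupport.intro (isCompact_closedBall x (R / 2)) fun y hy => by
      rw [hχz y hy, zero_mul]
  have hψs : ContDiff ℝ 1 (fun y => χ y * kap m v y) := hχ.mul hks
  have hvc1 : ∀ i, ContDiff ℝ 1 (vc v i) := fun i => (sm_vc hv i).of_le (by norm_cast)
  obtain ⟨W, hWd⟩ : ∃ W : Fin 3 → V → ℝ, W = fun i y => (χ y * kap m v y) * vc v i y := ⟨_, rfl⟩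
  have hW : ∀ i, ContDiff ℝ 1 (W i) := fun i => by
    rw [hWd]
    exact hψs.mul (hvc1 i)
  have hWc : ∀ i, HasCompactSupport (W i) := fun i => by
    rw [hWd]
    exact hψc.mul_right
  obtain ⟨hint, hint2, hibp⟩ := ibp hFL hW hWc
  -- the divergence
  have hdiv : ∀ y, ∑ i, pd i (W i) y = kap m v y * (∑ i, pd i χ y * vc v i y)
      + χ y * ∑ i, pd i (kap m v) y * vc v i y := by
    intro y
    have e1 : ∀ i, pd i (W i) y = (χ y * kap m v y) * pd i (vc v i) y
        + vc v i y * (χ y * pd i (kap m v) y + kap m v y * pd i χ y) := by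
      intro i
      rw [hWd]
      have hA : HasFDerivAt χ (fderiv ℝ χ y) y :=
        ((hχ.differentiable one_ne_zero).differentiableAt).hasFDerivAt
      have hB : HasFDerivAt (kap m v) (fderiv ℝ (kap m v) y) y :=
        ((hks.differentiable one_ne_zero).differentiableAt).hasFDerivAt
      have hC : HasFDerivAt (vc v i) (fderiv ℝ (vc v i) y) y :=
        (((hvc1 i).differentiable one_ne_zero).differentiableAt).hasFDerivAt
      have hE := ((hA.mul hB).mul hC).fderiv
      show fderiv ℝ (fun y => (χ y * kap m v y) * vc v i y) y (Pi.single i 1) = _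
      have hE' : fderiv ℝ (fun y => (χ y * kap m v y) * vc v i y) y = _ := hE
      rw [hE']
      simp only [_root_.add_apply, _root_.smul_apply, smul_eq_mul, Pi.mul_apply]
      rfl
    simp only [e1]
    have hdv := div_vc hv y
    simp only [Fin.sum_univ_three] at hdv ⊢
    linear_combination (χ y * kap m v y) * hdv
  -- the left side
  have hLHS : ∫ y, χ y * (kap m v y * (h y * om v y))
      ≤ -∫ y, ∑ i, lineDeriv ℝ F y (Pi.single i 1) * W i y := by
    rw [← integral_neg]
    refine integral_mono_ae ?_ (integrable_finsetSum _ fun i _ => hint i).neg ?_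
    · refine Continuous.integrable_of_hasCompactSupport ?_ ?_
      · exact hχ.continuous.mul (hks.continuous.mul (hhc.mul (om_cont' hv)))
      · exact HasCompactSupport.intro (isCompact_closedBall x (R / 2)) fun y hy => by
          rw [hχz y hy, zero_mul]
    · filter_upwards [hFL.ae_differentiableAt_of_real (μ := volume)] with y hy
      have h1 : ∀ i, lineDeriv ℝ F y (Pi.single i 1) = fderiv ℝ F y (Pi.single i 1) := fun i =>
        hy.lineDeriv_eq_fderiv
      have h2 : ∑ i, lineDeriv ℝ F y (Pi.single i 1) * W i y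
          = (χ y * kap m v y) * fderiv ℝ F y (vort v y) := by
        have h3 : fderiv ℝ F y (vort v y) = ∑ i, vc v i y * fderiv ℝ F y (Pi.single i 1) := by
          conv_lhs => rw [← Finset.univ_sum_single (vort v y)]
          rw [map_sum]
          refine Finset.sum_congr rfl fun j _ => ?_
          have e3 : (Pi.single j (vort v y j) : V) = vort v y j • (Pi.single j 1 : V) := by
            rw [← Pi.single_smul, smul_eq_mul, mul_one]
          rw [e3, map_smul]
          rfl
        rw [h3, hWd, Finset.mul_sum]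
        refine Finset.sum_congr rfl fun i _ => ?_
        rw [h1 i]
        ring
      rw [h2]
      by_cases hz : χ y = 0
      · rw [hz]
        simp
      · by_cases hk0 : kap m v y = 0
        · rw [hk0]
          simp
        · have h4 : 2 * m ≤ om v y := by
            have h5 := Pool.Agent.H2VL.stp_ne_zero hk0
            have h6 : 0 < om v y ^ 2 - 4 * m ^ 2 := by
              by_contra hcon
              have := div_nonpos_of_nonpos_of_nonneg (not_lt.1 hcon)
                (by positivity : 0 ≤ 5 * m ^ 2)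
              linarith
            have h7 : 0 ≤ om v y := Pool.Agent.H2CV.len_nn _
            nlinarith
          have h8 := hFd y (hχs y hz) h4 _ hy.hasFDerivAt
          have h9 : 0 ≤ χ y * kap m v y := mul_nonneg (hχb y).1 (hkb y).1
          nlinarith [mul_nonneg h9 (neg_nonneg.2 h8)]
  -- the right side
  obtain ⟨G, hG⟩ : ∃ G : Set V, G = {y | pd 0 χ y ≠ 0 ∨ pd 1 χ y ≠ 0 ∨ pd 2 χ y ≠ 0} := ⟨_, rfl⟩
  have hpdc : ∀ i, Continuous (pd i χ) := fun i =>
    (hχ.continuous_fderiv one_ne_zero).clm_apply continuous_const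
  have hGm : MeasurableSet G := by
    rw [hG]
    have h1 : ∀ i, MeasurableSet {y | pd i χ y ≠ 0} := fun i =>
      (isOpen_ne_fun (hpdc i) continuous_const).measurableSet
    exact (h1 0).union ((h1 1).union (h1 2))
  have hGsub : G ⊆ closedBall x (R / 2) := by
    intro y hy
    by_contra hn
    have h1 : ∀ i, pd i χ y = 0 := by
      intro i
      have h2 : χ =ᶠ[𝓝 y] fun _ => 0 := by
        filter_upwards [isClosed_closedBall.isOpen_compl.mem_nhds hn] with z hz
        exact hχz z hz
      unfold pd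
      rw [h2.fderiv_eq]
      simp
    rw [hG] at hy
    rcases hy with h2 | h2 | h2 <;> exact h2 (h1 _)
  have hGI : IntegrableOn (fun y => D * om v y) G :=
    ((continuous_const.mul (om_cont' hv)).continuousOn.integrableOn_compact
      (isCompact_closedBall x (R / 2))).mono_set hGsub
  have hKI : IntegrableOn (fun y => ∑ i, ∑ j, lkd (vc v i) m j y) (closedBall x R) :=
    lks_int hv m x R
  have hRHS : ∫ y, (∑ i, pd i (W i) y) * F y
      ≤ ∫ y, (G.indicator (fun y => 2 * H * (D * om v y)) y
        + (closedBall x R).indicator (fun y => 72 * H * ∑ i, ∑ j, lkd (vc v i) m j y) y) := by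
    have hI1 : Integrable (G.indicator (fun y => 2 * H * (D * om v y))) :=
      (integrable_indicator_iff hGm).2 (hGI.const_mul _)
    have hI2 : Integrable ((closedBall x R).indicator
        (fun y => 72 * H * ∑ i, ∑ j, lkd (vc v i) m j y)) :=
      (integrable_indicator_iff isClosed_closedBall.measurableSet).2 (hKI.const_mul _)
    have hI0 : Integrable fun y => (∑ i, pd i (W i) y) * F y := by
      have h1 : Integrable fun y => ∑ i, pd i (W i) y * F y :=
        integrable_finsetSum Finset.univ fun i _ => hint2 i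
      refine h1.congr (Eventually.of_forall fun y => ?_)
      simp only
      rw [Finset.sum_mul]
    refine integral_mono hI0 (hI1.add hI2) fun y => ?_
    have hG0 : 0 ≤ G.indicator (fun y => 2 * H * (D * om v y)) y :=
      indicator_nonneg (fun y _ => mul_nonneg (by positivity)
        (mul_nonneg hD (Pool.Agent.H2CV.len_nn _))) y
    have hK0 : 0 ≤ (closedBall x R).indicator (fun y => 72 * H * ∑ i, ∑ j, lkd (vc v i) m j y) y :=
      indicator_nonneg (fun y _ => mul_nonneg (by positivity) (lks_nn v m y)) y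
    by_cases hy : y ∈ closedBall x (R / 2)
    · have hyR : y ∈ closedBall x R := closedBall_subset_closedBall (by linarith) hy
      obtain ⟨hF0, hFH⟩ := hFb y hyR
      simp only
      rw [hdiv, indicator_of_mem hyR]
      have h1 := (abs_le.1 (kap_grad hv hm y)).2
      have h2 : χ y * ∑ i, pd i (kap m v) y * vc v i y
          ≤ 72 * ∑ i, ∑ j, lkd (vc v i) m j y := by
        have h3 := mul_le_mul_of_nonneg_left h1 (hχb y).1
        have h4 := mul_le_mul_of_nonneg_right (hχb y).2
          (mul_nonneg (by norm_num : (0 : ℝ) ≤ 72) (lks_nn v m y))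
        linarith
      have h5 : (kap m v y * (∑ i, pd i χ y * vc v i y)) * F y
          ≤ G.indicator (fun y => 2 * H * (D * om v y)) y := by
        by_cases hyG : y ∈ G
        · rw [indicator_of_mem hyG]
          have h6 : |∑ i, pd i χ y * vc v i y| ≤ 2 * (D * om v y) := by
            refine (Finset.abs_sum_le_sum_abs _ _).trans ?_
            have h7 : ∀ i, |pd i χ y * vc v i y| ≤ D * |vc v i y| := fun i => by
              rw [abs_mul]
              exact mul_le_mul_of_nonneg_right (hχD y i) (abs_nonneg _)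
            have h8 : (∑ i, |vc v i y|) ≤ 2 * om v y := by
              have h9 : (∑ i, |vc v i y|) ^ 2 ≤ (2 * om v y) ^ 2 := by
                rw [mul_pow, om_sq]
                simp only [Fin.sum_univ_three]
                rw [← sq_abs (vc v 0 y), ← sq_abs (vc v 1 y), ← sq_abs (vc v 2 y)]
                nlinarith [sq_nonneg (|vc v 0 y| - |vc v 1 y|), sq_nonneg (|vc v 0 y| - |vc v 2 y|),
                  sq_nonneg (|vc v 1 y| - |vc v 2 y|), sq_nonneg (|vc v 0 y|),
                  sq_nonneg (|vc v 1 y|), sq_nonneg (|vc v 2 y|)]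
              exact (abs_le_of_sq_le_sq' h9 (mul_nonneg (by norm_num)
                (Pool.Agent.H2CV.len_nn _))).2
            calc ∑ i, |pd i χ y * vc v i y| ≤ ∑ i, D * |vc v i y| :=
                  Finset.sum_le_sum fun i _ => h7 i
              _ = D * ∑ i, |vc v i y| := by rw [Finset.mul_sum]
              _ ≤ D * (2 * om v y) := mul_le_mul_of_nonneg_left h8 hD
              _ = _ := by ring
          have h7 : kap m v y * (∑ i, pd i χ y * vc v i y) ≤ 2 * (D * om v y) := by
            have h8 := mul_le_mul (hkb y).2 h6 (abs_nonneg _) zero_le_one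
            have h9 := mul_le_mul_of_nonneg_left (le_abs_self (∑ i, pd i χ y * vc v i y))
              (hkb y).1
            linarith
          have h8 : 0 ≤ 2 * (D * om v y) :=
            mul_nonneg (by norm_num) (mul_nonneg hD (Pool.Agent.H2CV.len_nn _))
          calc (kap m v y * (∑ i, pd i χ y * vc v i y)) * F y ≤ (2 * (D * om v y)) * F y :=
                mul_le_mul_of_nonneg_right h7 hF0
            _ ≤ (2 * (D * om v y)) * H := mul_le_mul_of_nonneg_left hFH h8
            _ = _ := by ring
        · have h6 : ∀ i, pd i χ y = 0 := by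
            rw [hG] at hyG
            simp only [mem_ofPred_eq, not_or, not_not] at hyG
            intro i
            fin_cases i
            · exact hyG.1
            · exact hyG.2.1
            · exact hyG.2.2
          rw [indicator_of_notMem hyG]
          simp only [h6, zero_mul, Finset.sum_const_zero, mul_zero, le_refl]
      have h6 : (χ y * ∑ i, pd i (kap m v) y * vc v i y) * F y
          ≤ 72 * H * ∑ i, ∑ j, lkd (vc v i) m j y := by
        calc (χ y * ∑ i, pd i (kap m v) y * vc v i y) * F y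
            ≤ (72 * ∑ i, ∑ j, lkd (vc v i) m j y) * F y := mul_le_mul_of_nonneg_right h2 hF0
          _ ≤ (72 * ∑ i, ∑ j, lkd (vc v i) m j y) * H :=
              mul_le_mul_of_nonneg_left hFH (mul_nonneg (by norm_num) (lks_nn v m y))
          _ = _ := by ring
      rw [add_mul]
      exact add_le_add h5 h6
    · have h1 : ∀ i, pd i χ y = 0 := by
        by_contra hcon
        push Not at hcon
        obtain ⟨i, hi⟩ := hcon
        refine hy (hGsub ?_)
        rw [hG]
        fin_cases i
        · exact Or.inl hi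
        · exact Or.inr (Or.inl hi)
        · exact Or.inr (Or.inr hi)
      simp only
      rw [hdiv, hχz y hy]
      simp only [h1, zero_mul, Finset.sum_const_zero, mul_zero, add_zero]
      exact add_nonneg hG0 hK0
  have hI1 : Integrable (G.indicator (fun y => 2 * H * (D * om v y))) :=
    (integrable_indicator_iff hGm).2 (hGI.const_mul _)
  have hI2 : Integrable ((closedBall x R).indicator
      (fun y => 72 * H * ∑ i, ∑ j, lkd (vc v i) m j y)) :=
    (integrable_indicator_iff isClosed_closedBall.measurableSet).2 (hKI.const_mul _)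
  rw [integral_add hI1 hI2, integral_indicator hGm,
    integral_indicator isClosed_closedBall.measurableSet,
    integral_const_mul (2 * H) (fun y => D * om v y),
    integral_const_mul (72 * H) (fun y => ∑ i, ∑ j, lkd (vc v i) m j y), ← lk_eq hv] at hRHS
  rw [hibp, neg_neg] at hLHS
  have hG1 : 0 ≤ ∫ y in G, D * om v y := integral_nonneg fun y =>
    mul_nonneg hD (Pool.Agent.H2CV.len_nn _)
  have h1 : 0 ≤ H * ∫ y in G, D * om v y := mul_nonneg hH hG1
  rw [hG] at hRHS h1
  calc ∫ y, χ y * (kap m v y * (h y * om v y)) ≤ _ := hLHS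
    _ ≤ _ := hRHS
    _ ≤ _ := by
        have e : 72 * H * ((∫ y in {y | pd 0 χ y ≠ 0 ∨ pd 1 χ y ≠ 0 ∨ pd 2 χ y ≠ 0}, D * om v y)
            + Lk v m x R) = 72 * (H * (∫ y in {y | pd 0 χ y ≠ 0 ∨ pd 1 χ y ≠ 0 ∨ pd 2 χ y ≠ 0},
              D * om v y)) + 72 * H * Lk v m x R := by ring
        rw [e]
        have e2 : 2 * H * (∫ y in {y | pd 0 χ y ≠ 0 ∨ pd 1 χ y ≠ 0 ∨ pd 2 χ y ≠ 0}, D * om v y)
          = 2 * (H * (∫ y in {y | pd 0 χ y ≠ 0 ∨ pd 1 χ y ≠ 0 ∨ pd 2 χ y ≠ 0},
              D * om v y)) := by ring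
        rw [e2]
        linarith

end Pool.Agent.H1TV
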