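import Pool.Agent.H1TV.DefsK
import Pool.Agent.H2CV.Shl2

/-!
Project TV: Lipschitz majorants of continuous functions.
-/

set_option autoImplicit false

open MeasureTheory Set Metric Filter Topology
open scoped ContDiff ENNReal NNReal
open H459R3.NS Pool.Agent.W268.NS Pool.Agent.Q67.VD

namespace Pool.Agent.H1TV

open Pool.Agent.Q85.CC Pool.Agent.Q85.CL Pool.Agent.Q85.VL Pool.Agent.H2CV

/-- A Lipschitz majorant of a continuous function on a compact set. -/
lemma lip_major {k : V → ℝ} (hk : Continuous k) (hk0 : ∀ y, 0 ≤ k y) {K : Set V}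
    (hK : IsCompact K) {δ : ℝ} (hδ : 0 < δ) : ∃ (L : ℝ) (k' : V → ℝ), 0 ≤ L ∧
      (∀ y z, |k' y - k' z| ≤ L * ‖y - z‖) ∧ (∀ y, 0 ≤ k' y) ∧
      ∀ y ∈ K, k y ≤ k' y ∧ k' y ≤ k y + δ := by
  rcases K.eq_empty_or_nonempty with hKe | hKn
  · refine ⟨0, fun _ => 0, le_rfl, fun y z => by simp, fun _ => le_rfl, fun y hy => ?_⟩
    rw [hKe] at hy
    exact absurd hy (notMem_empty y)
  obtain ⟨B, hB⟩ := hK.exists_bound_of_continuousOn hk.continuousOn
  have hB0 : 0 ≤ B := (norm_nonneg _).trans (hB _ hKn.some_mem)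
  have hkB : ∀ y ∈ K, k y ≤ B := fun y hy => (le_abs_self _).trans (hB y hy)
  have huc := hK.uniformContinuousOn_of_continuous hk.continuousOn
  rw [Metric.uniformContinuousOn_iff] at huc
  obtain ⟨η, hη, huc⟩ := huc δ hδ
  obtain ⟨n, hn⟩ : ∃ n, n = B / η := ⟨_, rfl⟩
  have hn0 : 0 ≤ n := by rw [hn]; positivity
  have hnη : n * η = B := by rw [hn]; field_simp
  obtain ⟨f, hf⟩ : ∃ f : V → ℝ, f = fun y => sSup ((fun z => k z - n * ‖y - z‖) '' K) := ⟨_, rfl⟩
  have hcont : ∀ y, ContinuousOn (fun z => k z - n * ‖y - z‖) K := fun y =>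
    (hk.sub (continuous_const.mul (continuous_const.sub continuous_id).norm)).continuousOn
  have hbd : ∀ y, BddAbove ((fun z => k z - n * ‖y - z‖) '' K) := fun y =>
    (hK.image_of_continuousOn (hcont y)).bddAbove
  have hge : ∀ y, ∀ z ∈ K, k z - n * ‖y - z‖ ≤ f y := fun y z hz => by
    rw [hf]
    exact le_csSup (hbd y) (mem_image_of_mem _ hz)
  have hle : ∀ y c, (∀ z ∈ K, k z - n * ‖y - z‖ ≤ c) → f y ≤ c := fun y c h => by
    rw [hf]
    refine csSup_le (hKn.image _) ?_
    rintro _ ⟨z, hz, rfl⟩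
    exact h z hz
  have hfL : ∀ y z, f y - f z ≤ n * ‖y - z‖ := by
    intro y z
    have h1 := hle y (f z + n * ‖y - z‖) fun w hw => by
      have h2 := hge z w hw
      have h3 : ‖z - w‖ ≤ ‖y - z‖ + ‖y - w‖ := by
        rw [norm_sub_rev y z]
        exact norm_sub_le_norm_sub_add_norm_sub _ _ _
      have h4 := mul_le_mul_of_nonneg_left h3 hn0
      linarith
    linarith
  refine ⟨n, fun y => max (f y) 0, hn0, fun y z => ?_, fun y => le_max_right _ _, fun y hy => ?_⟩
  · refine (abs_max_sub_max_le_abs _ _ _).trans ?_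
    rw [abs_le]
    have h1 := hfL y z
    have h2 := hfL z y
    rw [norm_sub_rev] at h2
    constructor <;> linarith
  · refine ⟨?_, max_le ?_ (by linarith [hk0 y])⟩
    · have h1 := hge y y hy
      rw [sub_self, norm_zero, mul_zero, sub_zero] at h1
      exact h1.trans (le_max_left _ _)
    · refine hle y _ fun z hz => ?_
      rcases lt_or_ge (dist z y) η with h | h
      · have h1 := huc z hz y hy h
        rw [Real.dist_eq] at h1
        have h2 := (le_abs_self _).trans h1.le
        have h3 := mul_nonneg hn0 (norm_nonneg (y - z))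
        linarith
      · rw [dist_eq_norm, norm_sub_rev] at h
        have h1 := mul_le_mul_of_nonneg_left h hn0
        have h2 := hkB z hz
        linarith [hk0 y]

lemma Dm_meas {v : V → V} (hv : SM v) (x : V) (R m : ℝ) : MeasurableSet (Dm v x R m) := by
  have e : Dm v x R m = closedBall x R ∩ {y | m < om v y} := by
    ext y
    simp only [Dm, mem_inter_iff, mem_closedBall, dist_eq_norm]
    rfl
  rw [e]
  exact isClosed_closedBall.measurableSet.inter
    (isOpen_lt continuous_const (om_cont' hv)).measurableSet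

lemma Dm_ball {v : V → V} (x : V) (R m : ℝ) : Dm v x R m ⊆ closedBall x R := fun y hy => by
  rw [mem_closedBall, dist_eq_norm]
  exact hy.1

/-- `StrK` is monotone. -/
lemma strK_mono : PMono StrK := by
  intro v D D' ε ε' ⟨k, hk, hk0, hki, hkε, hA⟩ hD hε
  refine ⟨k, hk, hk0, hki.mono_set hD, ?_, fun γ l hl h => ?_⟩
  · refine le_trans ?_ (hkε.trans hε)
    exact setIntegral_mono_set hki (Eventually.of_forall fun y =>
      mul_nonneg (hk0 y) (Pool.Agent.H2CV.len_nn _)) hD.eventuallyLE
  · have h1 := hA γ l hl fun s hs => ⟨hD (h s hs).1, (h s hs).2⟩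
    refine le_trans (mul_le_mul_of_nonneg_right ?_ hl.le) h1
    linarith

/-- In `StrK` one can use a Lipschitz function. -/
lemma strK_lip {v : V → V} (hv : SM v) {x : V} {R m ε : ℝ} (hε : 0 < ε)
    (h : StrK v (Dm v x R m) ε) : ∃ (L : ℝ) (k : V → ℝ), 0 ≤ L ∧
      (∀ y z, |k y - k z| ≤ L * ‖y - z‖) ∧ (∀ y, 0 ≤ k y) ∧
      ∫ y in Dm v x R m, k y * om v y ≤ 2 * ε ∧ StrA v (Dm v x R m) ε k := by
  obtain ⟨k, hk, hk0, hki, hkε, hA⟩ := h
  have homI : IntegrableOn (om v) (Dm v x R m) :=
    ((om_cont' hv).continuousOn.integrableOn_compact (isCompact_closedBall x R)).mono_set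
      (Dm_ball x R m)
  obtain ⟨J, hJ⟩ : ∃ J, J = ∫ y in Dm v x R m, om v y := ⟨_, rfl⟩
  have hJ0 : 0 ≤ J := by
    rw [hJ]
    exact integral_nonneg fun y => Pool.Agent.H2CV.len_nn _
  obtain ⟨L, k', hL, h1, h2, h3⟩ := lip_major hk hk0 (isCompact_closedBall x R)
    (δ := ε / (J + 1)) (by positivity)
  have hk'c : Continuous k' := by
    have : LipschitzWith ⟨L, hL⟩ k' := LipschitzWith.of_dist_le_mul fun y z => by
      rw [Real.dist_eq, dist_eq_norm]
      exact h1 y z
    exact this.continuous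
  refine ⟨L, k', hL, h1, h2, ?_, fun γ l hl h => ?_⟩
  · have hi1 : IntegrableOn (fun y => k' y * om v y) (Dm v x R m) :=
      ((hk'c.mul (om_cont' hv)).continuousOn.integrableOn_compact
        (isCompact_closedBall x R)).mono_set (Dm_ball x R m)
    have h4 : ∫ y in Dm v x R m, k' y * om v y
        ≤ ∫ y in Dm v x R m, (k y * om v y + ε / (J + 1) * om v y) := by
      refine setIntegral_mono_on hi1 (hki.add (homI.const_mul _)) (Dm_meas hv x R m)
        fun y hy => ?_
      have h5 := (h3 y (Dm_ball x R m hy)).2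
      have h6 := mul_le_mul_of_nonneg_right h5 (Pool.Agent.H2CV.len_nn (vort v y))
      have e : om v y = len (vort v y) := rfl
      rw [e]
      linarith
    rw [integral_add hki (homI.const_mul _), integral_const_mul, ← hJ] at h4
    have h5 : ε / (J + 1) * J ≤ ε := by
      rw [div_mul_eq_mul_div, div_le_iff₀ (by linarith)]
      nlinarith
    linarith
  · have h4 := hA γ l hl h
    refine le_trans (mul_le_mul_of_nonneg_right ?_ hl.le) h4
    have hγc : ContinuousOn γ (Icc 0 l) := fun s hs => ((h s hs).2).continuousWithinAt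
    have h5 : ∫ s in (0 : ℝ)..l, k (γ s) ≤ ∫ s in (0 : ℝ)..l, k' (γ s) := by
      refine intervalIntegral.integral_mono_on hl.le ?_ ?_ fun s hs =>
        (h3 _ (Dm_ball x R m (h s hs).1)).1
      · refine ContinuousOn.intervalIntegrable ?_
        rw [uIcc_of_le hl.le]
        exact hk.comp_continuousOn hγc
      · refine ContinuousOn.intervalIntegrable ?_
        rw [uIcc_of_le hl.le]
        exact hk'c.comp_continuousOn hγc
    linarith

end Pool.Agent.H1TV
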