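import Mathlib

/-!
Project TV: integrals over the pieces of an interval on which a density has a small integral.
-/

set_option autoImplicit false

open MeasureTheory Set Metric Filter Topology

namespace Pool.Agent.H1TV

/-- An integral from the integrals over the pieces. -/
lemma pieces {g k : ℝ → ℝ} {l G G' : ℝ} (hl : 0 ≤ l) (hg : ContinuousOn g (Icc 0 l))
    (hk : ContinuousOn k (Icc 0 l)) (hk0 : ∀ s ∈ Icc 0 l, 0 ≤ k s) (hG : 0 ≤ G)
    (h : ∀ a b, 0 ≤ a → a ≤ b → b ≤ l → ∫ s in a..b, k s ≤ 1 / 4 →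
      ∫ s in a..b, g s ≤ G + G' * ∫ s in a..b, k s) :
    ∫ s in (0 : ℝ)..l, g s ≤ G * (1 + 4 * ∫ s in (0 : ℝ)..l, k s)
      + G' * ∫ s in (0 : ℝ)..l, k s := by
  have hgi : ∀ a b : ℝ, a ∈ Icc 0 l → b ∈ Icc 0 l → IntervalIntegrable g volume a b :=
    fun a b ha hb => (hg.mono (uIcc_subset_Icc ha hb)).intervalIntegrable
  have hki : ∀ a b : ℝ, a ∈ Icc 0 l → b ∈ Icc 0 l → IntervalIntegrable k volume a b :=
    fun a b ha hb => (hk.mono (uIcc_subset_Icc ha hb)).intervalIntegrable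
  have hll : l ∈ Icc 0 l := ⟨hl, le_rfl⟩
  have key : ∀ n : ℕ, ∀ a ∈ Icc 0 l, ∫ s in a..l, k s ≤ (n + 1) / 4 →
      ∫ s in a..l, g s ≤ (n + 1) * G + G' * ∫ s in a..l, k s := by
    intro n
    induction n with
    | zero =>
      intro a ha hka
      have := h a l ha.1 ha.2 le_rfl (by simpa using hka)
      simpa using this
    | succ n ih =>
      intro a ha hka
      by_cases h1 : ∫ s in a..l, k s ≤ 1 / 4
      · have h2 := h a l ha.1 ha.2 le_rfl h1
        push_cast
        nlinarith [mul_nonneg (Nat.cast_nonneg (α := ℝ) (n + 1)) hG]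
      · have h1' : 1 / 4 < ∫ s in a..l, k s := not_le.1 h1
        have hcont : ContinuousOn (fun c => ∫ s in a..c, k s) (Icc a l) := by
          have h2 := intervalIntegral.continuousOn_primitive_interval' (μ := volume)
            (hki a l ha hll) (a := a) (by
              rw [uIcc_of_le ha.2]
              exact ⟨le_rfl, ha.2⟩)
          rwa [uIcc_of_le ha.2] at h2
        obtain ⟨c, hc, hck⟩ := intermediate_value_Icc ha.2 hcont
          (show (1 / 4 : ℝ) ∈ Icc (∫ s in a..a, k s) (∫ s in a..l, k s) from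
            ⟨by rw [intervalIntegral.integral_same]; norm_num, h1'.le⟩)
        simp only at hck
        have hcl : c ∈ Icc 0 l := ⟨ha.1.trans hc.1, hc.2⟩
        have e1 := intervalIntegral.integral_add_adjacent_intervals (hki a c ha hcl)
          (hki c l hcl hll)
        have e2 := intervalIntegral.integral_add_adjacent_intervals (hgi a c ha hcl)
          (hgi c l hcl hll)
        have h3 := h a c ha.1 hc.1 hc.2 hck.le
        have h4 := ih c hcl (by
          push_cast at hka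
          linarith)
        push_cast
        rw [← e1, ← e2]
        nlinarith
  have h1 := key ⌊4 * ∫ s in (0 : ℝ)..l, k s⌋₊ 0 ⟨le_rfl, hl⟩ (by
    have := Nat.lt_floor_add_one (4 * ∫ s in (0 : ℝ)..l, k s)
    linarith)
  have hnn : 0 ≤ ∫ s in (0 : ℝ)..l, k s := intervalIntegral.integral_nonneg hl hk0
  have h2 := Nat.floor_le (show 0 ≤ 4 * ∫ s in (0 : ℝ)..l, k s by positivity)
  have h3 := mul_le_mul_of_nonneg_right h2 hG
  linarith

/-- A function which vanishes unless the density has a definite integral. -/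
lemma dens {h k : ℝ → ℝ} {l l₁ B δ₁ : ℝ} (hl : 0 ≤ l) (hl₁ : 0 < l₁) (hδ₁ : 0 < δ₁) (hB : 0 ≤ B)
    (hh : ContinuousOn h (Icc 0 l)) (hk : ContinuousOn k (Icc 0 l))
    (hk0 : ∀ s ∈ Icc 0 l, 0 ≤ k s) (hhB : ∀ s ∈ Icc 0 l, h s ≤ B)
    (hd : ∀ s, 0 ≤ s → s + l₁ ≤ l → h s ≠ 0 → δ₁ ≤ ∫ τ in s..(s + l₁), k τ) :
    ∫ s in (0 : ℝ)..l, h s ≤ B * l₁ + B * l₁ / δ₁ * ∫ s in (0 : ℝ)..l, k s := by
  have hhi : ∀ a b : ℝ, a ∈ Icc 0 l → b ∈ Icc 0 l → IntervalIntegrable h volume a b :=
    fun a b ha hb => (hh.mono (uIcc_subset_Icc ha hb)).intervalIntegrable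
  have hki : ∀ a b : ℝ, a ∈ Icc 0 l → b ∈ Icc 0 l → IntervalIntegrable k volume a b :=
    fun a b ha hb => (hk.mono (uIcc_subset_Icc ha hb)).intervalIntegrable
  have hll : l ∈ Icc 0 l := ⟨hl, le_rfl⟩
  have h0l : (0 : ℝ) ∈ Icc 0 l := ⟨le_rfl, hl⟩
  have hnn : 0 ≤ ∫ s in (0 : ℝ)..l, k s := intervalIntegral.integral_nonneg hl hk0
  have hint : ∀ a b : ℝ, a ∈ Icc 0 l → b ∈ Icc 0 l → a ≤ b →
      ∫ s in a..b, h s ≤ B * (b - a) := by
    intro a b ha hb hab
    have h1 : ∫ s in a..b, h s ≤ ∫ _s in a..b, B :=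
      intervalIntegral.integral_mono_on hab (hhi a b ha hb) (by simp) fun s hs =>
        hhB s ⟨ha.1.trans hs.1, hs.2.trans hb.2⟩
    rw [intervalIntegral.integral_const, smul_eq_mul] at h1
    linarith
  rcases le_total l l₁ with hll₁ | hll₁
  · have h1 := hint 0 l h0l hll hl
    have h2 : B * (l - 0) ≤ B * l₁ := mul_le_mul_of_nonneg_left (by linarith) hB
    have h3 : 0 ≤ B * l₁ / δ₁ * ∫ s in (0 : ℝ)..l, k s := by positivity
    linarith
  · obtain ⟨c, hc⟩ : ∃ c, c = l - l₁ := ⟨_, rfl⟩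
    have hc0 : 0 ≤ c := by rw [hc]; linarith
    have hcl : c ∈ Icc 0 l := ⟨hc0, by rw [hc]; linarith⟩
    have hl₁l : l₁ ∈ Icc 0 l := ⟨hl₁.le, hll₁⟩
    have e1 := intervalIntegral.integral_add_adjacent_intervals (hhi 0 c h0l hcl)
      (hhi c l hcl hll)
    have h1 := hint c l hcl hll hcl.2
    rw [show l - c = l₁ by rw [hc]; ring] at h1
    -- the primitive
    obtain ⟨K, hK⟩ : ∃ K : ℝ → ℝ, K = fun s => ∫ τ in (0 : ℝ)..s, k τ := ⟨_, rfl⟩
    have hKc : ContinuousOn K (Icc 0 l) := by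
      have h2 := intervalIntegral.continuousOn_primitive_interval' (μ := volume)
        (hki 0 l h0l hll) (a := 0) (by
          rw [uIcc_of_le hl]
          exact h0l)
      rw [uIcc_of_le hl] at h2
      rw [hK]
      exact h2
    have hKi : ∀ a b : ℝ, a ∈ Icc 0 l → b ∈ Icc 0 l → IntervalIntegrable K volume a b :=
      fun a b ha hb => (hKc.mono (uIcc_subset_Icc ha hb)).intervalIntegrable
    have hKadd : ∀ a b : ℝ, a ∈ Icc 0 l → b ∈ Icc 0 l → ∫ τ in a..b, k τ = K b - K a := by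
      intro a b ha hb
      rw [hK]
      have := intervalIntegral.integral_add_adjacent_intervals (hki 0 a h0l ha) (hki a b ha hb)
      simp only
      linarith
    have hKm : ∀ a b : ℝ, a ∈ Icc 0 l → b ∈ Icc 0 l → a ≤ b → K a ≤ K b := by
      intro a b ha hb hab
      have h2 := hKadd a b ha hb
      have h3 : 0 ≤ ∫ τ in a..b, k τ := intervalIntegral.integral_nonneg hab fun s hs =>
        hk0 s ⟨ha.1.trans hs.1, hs.2.trans hb.2⟩
      linarith
    have hK0 : K 0 = 0 := by rw [hK]; exact intervalIntegral.integral_same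
    have hKl : K l = ∫ s in (0 : ℝ)..l, k s := by rw [hK]
    have hshift : ContinuousOn (fun s => K (s + l₁)) (Icc 0 c) := by
      refine hKc.comp (by fun_prop) fun s hs => ?_
      exact ⟨by linarith [hs.1], by linarith [hs.2]⟩
    have hsi : IntervalIntegrable (fun s => K (s + l₁)) volume 0 c := by
      refine ContinuousOn.intervalIntegrable ?_
      rw [uIcc_of_le hc0]
      exact hshift
    have h2 : ∫ s in (0 : ℝ)..c, h s ≤ ∫ s in (0 : ℝ)..c, B / δ₁ * (K (s + l₁) - K s) := by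
      refine intervalIntegral.integral_mono_on hc0 (hhi 0 c h0l hcl)
        ((hsi.sub (hKi 0 c h0l hcl)).const_mul _) fun s hs => ?_
      have hsl : s ∈ Icc 0 l := ⟨hs.1, hs.2.trans hcl.2⟩
      have hsl₁ : s + l₁ ∈ Icc 0 l := ⟨by linarith [hs.1], by linarith [hs.2]⟩
      have h3 := hKm s (s + l₁) hsl hsl₁ (by linarith)
      by_cases hz : h s = 0
      · rw [hz]
        exact mul_nonneg (by positivity) (by linarith)
      · have h4 := hd s hs.1 hsl₁.2 hz
        rw [hKadd s _ hsl hsl₁] at h4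
        refine (hhB s hsl).trans ?_
        rw [div_mul_eq_mul_div, le_div_iff₀ hδ₁]
        exact mul_le_mul_of_nonneg_left h4 hB
    rw [intervalIntegral.integral_const_mul, intervalIntegral.integral_sub hsi (hKi 0 c h0l hcl),
      intervalIntegral.integral_comp_add_right (fun s => K s), zero_add] at h2
    have hcl₁ : c + l₁ = l := by rw [hc]; ring
    rw [hcl₁] at h2
    have e2 := intervalIntegral.integral_add_adjacent_intervals (hKi 0 l₁ h0l hl₁l)
      (hKi l₁ l hl₁l hll)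
    have e3 := intervalIntegral.integral_add_adjacent_intervals (hKi 0 c h0l hcl)
      (hKi c l hcl hll)
    have h5 : ∫ s in c..l, K s ≤ l₁ * K l := by
      have h6 : ∫ s in c..l, K s ≤ ∫ _s in c..l, K l :=
        intervalIntegral.integral_mono_on hcl.2 (hKi c l hcl hll) (by simp) fun s hs =>
          hKm s l ⟨hc0.trans hs.1, hs.2⟩ hll hs.2
      rw [intervalIntegral.integral_const, smul_eq_mul] at h6
      rwa [show l - c = l₁ by rw [hc]; ring] at h6
    have h6 : 0 ≤ ∫ s in (0 : ℝ)..l₁, K s := intervalIntegral.integral_nonneg hl₁.le fun s hs => by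
      have := hKm 0 s h0l ⟨hs.1, hs.2.trans hll₁⟩ hs.1
      rwa [hK0] at this
    have h7 : (∫ s in l₁..l, K s) - ∫ s in (0 : ℝ)..c, K s ≤ l₁ * K l := by linarith
    have h8 := mul_le_mul_of_nonneg_left h7 (show 0 ≤ B / δ₁ by positivity)
    rw [hKl] at h8
    have e4 : B / δ₁ * (l₁ * ∫ s in (0 : ℝ)..l, k s)
        = B * l₁ / δ₁ * ∫ s in (0 : ℝ)..l, k s := by ring
    linarith

end Pool.Agent.H1TV
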