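import Pool.Agent.H1TV.CvS
import Pool.Agent.H1TV.LipK
import Pool.Agent.H1TV.Piece
import Pool.Agent.H1TV.Flx
import Pool.Agent.H2VL.Lb

/-!
Project TV: on a good shell the curvature is small if the arcs are nearly straight up to the
integral of a density.
-/

set_option autoImplicit false

open MeasureTheory Set Metric Filter Topology
open scoped ContDiff ENNReal NNReal
open H459R3.NS Pool.Agent.W268.NS Pool.Agent.Q67.VD

namespace Pool.Agent.H1TV

open Pool.Agent.Q85.CC Pool.Agent.Q85.CL Pool.Agent.Q85.VL Pool.Agent.H2CV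
open Pool.Agent.H2VL (chi chi_smooth chi_nonneg chi_le_one chi_zero chi_one chi_fd chi_fd_zero)

/-! ### The square of `ω × (ω · ∇) ω` -/

/-- `|ω × (ω · ∇) ω|²`. -/
noncomputable def W2 (v : V → V) (y : V) : ℝ :=
  (vc v 1 y * av (vc v) (vc v 2) y - vc v 2 y * av (vc v) (vc v 1) y) ^ 2
    + (vc v 2 y * av (vc v) (vc v 0) y - vc v 0 y * av (vc v) (vc v 2) y) ^ 2
    + (vc v 0 y * av (vc v) (vc v 1) y - vc v 1 y * av (vc v) (vc v 0) y) ^ 2

lemma av_eq {v : V → V} (hv : SM v) (j : Fin 3) (y : V) :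
    fderiv ℝ (vort v) y (vort v y) j = av (vc v) (vc v j) y := by
  conv_lhs => rw [← Finset.univ_sum_single (vort v y)]
  rw [map_sum, Finset.sum_apply]
  unfold av
  refine Finset.sum_congr rfl fun k _ => ?_
  have e3 : (Pi.single k (vort v y k) : V) = vort v y k • (Pi.single k 1 : V) := by
    rw [← Pi.single_smul, smul_eq_mul, mul_one]
  rw [e3, map_smul, Pi.smul_apply, smul_eq_mul, fd_apply hv]
  rfl

lemma W2_eq {v : V → V} (hv : SM v) (y : V) :
    len (crossProduct (vort v y) (fderiv ℝ (vort v) y (vort v y))) ^ 2 = W2 v y := by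
  rw [len_sq3, Fin.sum_univ_three, cross_apply]
  simp only [Matrix.cons_val_zero, Matrix.cons_val_one, Matrix.cons_val]
  simp only [av_eq hv]
  rfl

lemma W2_smooth {v : V → V} (hv : SM v) : ContDiff ℝ 1 (W2 v) := by
  have h1 : ∀ i, ContDiff ℝ 1 (vc v i) := fun i => (sm_vc hv i).of_le (by norm_cast)
  have h2 : ∀ j, ContDiff ℝ 1 (av (vc v) (vc v j)) := fun j =>
    ContDiff.sum fun k _ => (h1 k).mul ((Pool.Agent.W583.MD.sm_pd (sm_vc hv j) k).of_le
      (by norm_cast))
  exact (((((h1 1).mul (h2 2)).sub ((h1 2).mul (h2 1))).pow 2).add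
    ((((h1 2).mul (h2 0)).sub ((h1 0).mul (h2 2))).pow 2)).add
    ((((h1 0).mul (h2 1)).sub ((h1 1).mul (h2 0))).pow 2)

lemma W2_nonneg (v : V → V) (y : V) : 0 ≤ W2 v y := by
  unfold W2
  positivity

/-- The curvature from `W2`. -/
lemma cv_W2 {v : V → V} (hv : SM v) (y : V) : cv v y = √(W2 v y) / om v y ^ 2 := by
  unfold cv
  rw [← W2_eq hv, Real.sqrt_sq (Pool.Agent.H2CV.len_nn _)]

/-- Bounds for `W2`. -/
lemma W2_le {v : V → V} (hv : SM v) {y : V} {a b : ℝ} (ha : 0 ≤ a) (hb : 0 ≤ b)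
    (h1 : ∀ i, |vc v i y| ≤ a) (h2 : ∀ i j, |pd j (vc v i) y| ≤ b) :
    W2 v y ≤ 108 * (a ^ 2 * b) ^ 2 ∧ √(W2 v y) ≤ 6 * b * om v y ^ 2 := by
  have h3 : ∀ j, |av (vc v) (vc v j) y| ≤ 3 * (a * b) := by
    intro j
    unfold av
    refine (Finset.abs_sum_le_sum_abs _ _).trans ?_
    calc ∑ k, |vc v k y * pd k (vc v j) y| ≤ ∑ _k : Fin 3, a * b := by
          refine Finset.sum_le_sum fun k _ => ?_
          rw [abs_mul]
          exact mul_le_mul (h1 k) (h2 j k) (abs_nonneg _) ha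
      _ = 3 * (a * b) := by
          simp
  have h4 : ∀ i j, (vc v i y * av (vc v) (vc v j) y - vc v j y * av (vc v) (vc v i) y) ^ 2
      ≤ 36 * (a ^ 2 * b) ^ 2 := by
    intro i j
    have h5 : |vc v i y * av (vc v) (vc v j) y - vc v j y * av (vc v) (vc v i) y|
        ≤ 6 * (a ^ 2 * b) := by
      refine (abs_sub _ _).trans ?_
      rw [abs_mul, abs_mul]
      have h6 := mul_le_mul (h1 i) (h3 j) (abs_nonneg _) ha
      have h7 := mul_le_mul (h1 j) (h3 i) (abs_nonneg _) ha
      nlinarith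
    rw [← sq_abs]
    have h6 := pow_le_pow_left₀ (abs_nonneg _) h5 2
    nlinarith
  constructor
  · unfold W2
    have h5 := h4 1 2
    have h6 := h4 2 0
    have h7 := h4 0 1
    linarith
  · rw [← W2_eq hv, Real.sqrt_sq (Pool.Agent.H2CV.len_nn _)]
    have h5 := cross_len (vort v y) (fderiv ℝ (vort v) y (vort v y))
    have h6 : ‖fderiv ℝ (vort v) y‖ ≤ 3 * b := op_le _ hb fun i j => by
      rw [fd_apply hv]
      exact h2 i j
    have h7 := lin_len _ h6 (vort v y)
    have h8 := mul_le_mul_of_nonneg_left h7 (Pool.Agent.H2CV.len_nn (vort v y))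
    have e : om v y = len (vort v y) := rfl
    rw [e]
    nlinarith

/-! ### The cut-off function of the shell -/

/-- The cut-off function of the shell. -/
noncomputable def xs (x : V) (s w : ℝ) (y : V) : ℝ :=
  chi x (s + 5 * w) w y - chi x (s - 5 * w) w y

lemma xs_smooth (x : V) (s w : ℝ) : ContDiff ℝ 1 (xs x s w) :=
  (chi_smooth _ _ _).sub (chi_smooth _ _ _)

lemma xs_bd {x : V} {s w : ℝ} (hw : 0 < w) (y : V) : 0 ≤ xs x s w y ∧ xs x s w y ≤ 1 := by
  unfold xs
  have h1 := chi_nonneg x (s - 5 * w) w y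
  have h2 := chi_le_one x (s + 5 * w) w y
  refine ⟨?_, by linarith⟩
  rcases le_total ‖y - x‖ (s + 4 * w) with h | h
  · rw [chi_one (s := s + 5 * w) hw (by linarith)]
    linarith [chi_le_one x (s - 5 * w) w y]
  · rw [chi_zero (s := s - 5 * w) hw (by linarith)]
    linarith [chi_nonneg x (s + 5 * w) w y]

lemma xs_one {x : V} {s w : ℝ} (hw : 0 < w) {y : V} (h : |‖y - x‖ - s| ≤ 4 * w) :
    xs x s w y = 1 := by
  have h' := abs_le.1 h
  unfold xs
  rw [chi_one (s := s + 5 * w) hw (by linarith), chi_zero (s := s - 5 * w) hw (by linarith)]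
  ring

lemma xs_ne {x : V} {s w : ℝ} (hw : 0 < w) {y : V} (h : xs x s w y ≠ 0) :
    |‖y - x‖ - s| ≤ 6 * w := by
  by_contra hcon
  rw [abs_le, not_and_or] at hcon
  refine h ?_
  unfold xs
  rcases hcon with h1 | h1
  · rw [chi_one (s := s + 5 * w) hw (by linarith), chi_one (s := s - 5 * w) hw (by linarith)]
    ring
  · rw [chi_zero (s := s + 5 * w) hw (by linarith), chi_zero (s := s - 5 * w) hw (by linarith)]
    ring

lemma pd_xs {x : V} {s w : ℝ} (hw : 0 < w) (hs : 6 * w ≤ s) (y : V) (j : Fin 3) :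
    |pd j (xs x s w) y| ≤ 4 / w := by
  have h0 : pd j (xs x s w) y = pd j (chi x (s + 5 * w) w) y - pd j (chi x (s - 5 * w) w) y := by
    unfold pd xs
    have h1 : DifferentiableAt ℝ (chi x (s + 5 * w) w) y :=
      ((chi_smooth x _ w).differentiable one_ne_zero).differentiableAt
    have h2 : DifferentiableAt ℝ (chi x (s - 5 * w) w) y :=
      ((chi_smooth x _ w).differentiable one_ne_zero).differentiableAt
    have h3 := (h1.hasFDerivAt.sub h2.hasFDerivAt).fderiv
    have h4 : fderiv ℝ (fun y => chi x (s + 5 * w) w y - chi x (s - 5 * w) w y) y = _ := h3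
    rw [h4]
    rfl
  have hl : len (Pi.single j 1 : V) = 1 := by
    have h1 : len (Pi.single j 1 : V) ^ 2 = 1 := by
      rw [len_sq3]
      fin_cases j <;> simp [Fin.sum_univ_three]
    have h2 := Pool.Agent.H2CV.len_nn (Pi.single j 1 : V)
    nlinarith
  have h1 := chi_fd (x := x) (s := s + 5 * w) hw (by linarith) y (Pi.single j 1)
  have h2 := chi_fd (x := x) (s := s - 5 * w) hw (by linarith) y (Pi.single j 1)
  rw [hl, mul_one] at h1 h2
  rw [h0]
  refine (abs_sub _ _).trans ?_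
  have e : 4 / w = 2 / w + 2 / w := by ring
  rw [e]
  exact add_le_add h1 h2

lemma pd_xs_ne {x : V} {s w : ℝ} (hw : 0 < w) {y : V} {j : Fin 3}
    (h : pd j (xs x s w) y ≠ 0) : |‖y - x‖ - s| ≤ 6 * w := by
  have h0 : pd j (xs x s w) y = pd j (chi x (s + 5 * w) w) y - pd j (chi x (s - 5 * w) w) y := by
    unfold pd xs
    have h1 : DifferentiableAt ℝ (chi x (s + 5 * w) w) y :=
      ((chi_smooth x _ w).differentiable one_ne_zero).differentiableAt
    have h2 : DifferentiableAt ℝ (chi x (s - 5 * w) w) y :=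
      ((chi_smooth x _ w).differentiable one_ne_zero).differentiableAt
    have h3 := (h1.hasFDerivAt.sub h2.hasFDerivAt).fderiv
    have h4 : fderiv ℝ (fun y => chi x (s + 5 * w) w y - chi x (s - 5 * w) w y) y = _ := h3
    rw [h4]
    rfl
  by_contra hcon
  have h1 : y ∉ Shell x (s + 5 * w) w := fun hy => by
    have h2 : |‖y - x‖ - (s + 5 * w)| ≤ w := hy
    rw [abs_le] at h2
    refine hcon ?_
    rw [abs_le]
    constructor <;> linarith
  have h2 : y ∉ Shell x (s - 5 * w) w := fun hy => by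
    have h2 : |‖y - x‖ - (s - 5 * w)| ≤ w := hy
    rw [abs_le] at h2
    refine hcon ?_
    rw [abs_le]
    constructor <;> linarith
  refine h ?_
  rw [h0]
  have e1 : pd j (chi x (s + 5 * w) w) y = 0 := chi_fd_zero hw h1 _
  have e2 : pd j (chi x (s - 5 * w) w) y = 0 := chi_fd_zero hw h2 _
  rw [e1, e2, sub_zero]

/-! ### The arcs -/

/-- A piece of an arc. -/
lemma sub_arc {v : V → V} {D : Set V} {γ : ℝ → V} {l a b : ℝ} (ha : 0 ≤ a) (hb : b ≤ l)
    (h : ∀ s ∈ Icc (0 : ℝ) l, γ s ∈ D ∧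
      HasDerivWithinAt γ ((len (vort v (γ s)))⁻¹ • vort v (γ s)) (Icc 0 l) s) :
    ∀ s ∈ Icc (0 : ℝ) (b - a), (fun σ => γ (σ + a)) s ∈ D ∧
      HasDerivWithinAt (fun σ => γ (σ + a)) ((len (vort v ((fun σ => γ (σ + a)) s)))⁻¹ •
        vort v ((fun σ => γ (σ + a)) s)) (Icc 0 (b - a)) s := by
  intro s hs
  have hs' : s + a ∈ Icc 0 l := ⟨by linarith [hs.1], by linarith [hs.2]⟩
  refine ⟨(h _ hs').1, ?_⟩
  have h2 := (h _ hs').2
  have h3 : HasDerivWithinAt (fun s : ℝ => s + a) 1 (Icc 0 (b - a)) s :=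
    ((hasDerivAt_id s).add_const a).hasDerivWithinAt
  have h5 : MapsTo (fun s : ℝ => s + a) (Icc 0 (b - a)) (Icc 0 l) := fun t ht =>
    ⟨by linarith [ht.1], by linarith [ht.2]⟩
  have h4 := HasDerivWithinAt.scomp s h2 h3 h5
  rwa [one_smul] at h4

/-- The chord of a piece of an arc. -/
lemma sub_chord {v : V → V} {D : Set V} {ε : ℝ} {k : V → ℝ} (hA : StrA v D ε k) {γ : ℝ → V}
    {l a b : ℝ} (ha : 0 ≤ a) (hab : a < b) (hb : b ≤ l)
    (h : ∀ s ∈ Icc (0 : ℝ) l, γ s ∈ D ∧
      HasDerivWithinAt γ ((len (vort v (γ s)))⁻¹ • vort v (γ s)) (Icc 0 l) s) :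
    (1 - ε - ∫ s in a..b, k (γ s)) * (b - a) ≤ len (γ b - γ a) := by
  have h1 := hA (fun σ => γ (σ + a)) (b - a) (by linarith) (sub_arc ha hb h)
  rw [intervalIntegral.integral_comp_add_right (fun s => k (γ s))] at h1
  simpa using h1

/-- The condition for the arcs in the flux inequality. -/
lemma arcK {v : V → V} {x : V} {r m ε εb b B : ℝ} {k h : V → ℝ} (hr : 0 < r) (hb : 0 < b)
    (hB : 0 < B) (hε1 : ε ≤ 1 / 4) (hεb : 0 < εb) (hεεb : ε ≤ εb / 2)
    (hk : Continuous k) (hk0 : ∀ y, 0 ≤ k y) (hh : Continuous h) (hhB : ∀ y, h y ≤ B / r)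
    (hA : StrA v (Dm v x r m) ε k)
    (hpt : ∀ γ : ℝ → V, (∀ s ∈ Icc 0 (b * r), γ s ∈ Dm v x r m ∧
      HasDerivWithinAt γ ((len (vort v (γ s)))⁻¹ • vort v (γ s)) (Icc 0 (b * r)) s) →
      h (γ 0) ≠ 0 → (1 - εb) * (b * r) ≤ len (γ (b * r) - γ 0) → False)
    (γ : ℝ → V) (l : ℝ) (hl : 0 < l) (hγ : ∀ s ∈ Icc (0 : ℝ) l, γ s ∈ Dm v x r m ∧
      HasDerivWithinAt γ ((len (vort v (γ s)))⁻¹ • vort v (γ s)) (Icc 0 l) s) :
    B * b / (8 * r) * l + ∫ s in (0 : ℝ)..l, h (γ s)
      ≤ 2 * (B * b) + (4 * (B * b) + B * b / (εb / 2)) * ∫ s in (0 : ℝ)..l, k (γ s) := by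
  have hγc : ContinuousOn γ (Icc 0 l) := fun s hs => ((hγ s hs).2).continuousWithinAt
  have hkc : ContinuousOn (fun s => k (γ s)) (Icc 0 l) := hk.comp_continuousOn hγc
  have hhc : ContinuousOn (fun s => h (γ s)) (Icc 0 l) := hh.comp_continuousOn hγc
  -- the length
  have h1 := pieces (g := fun _ => 1) (k := fun s => k (γ s)) (G := 8 * r) (G' := 0) hl.le
    continuousOn_const hkc (fun s _ => hk0 _) (by positivity) (by
      intro a c ha hac hcl hkac
      rw [intervalIntegral.integral_const, smul_eq_mul, mul_one, zero_mul, add_zero]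
      rcases hac.eq_or_lt with h2 | h2
      · rw [h2, sub_self]
        positivity
      have h3 := sub_chord hA ha h2 hcl hγ
      have h4 := len_le2 (γ c - γ a)
      have h5 : ‖γ c - γ a‖ ≤ 2 * r := by
        have e1 := (hγ c ⟨by linarith, hcl⟩).1.1
        have e2 := (hγ a ⟨ha, by linarith⟩).1.1
        have e3 : γ c - γ a = (γ c - x) - (γ a - x) := by abel
        rw [e3]
        exact (norm_sub_le _ _).trans (by linarith)
      have h6 : 1 / 2 * (c - a) ≤ (1 - ε - ∫ s in a..c, k (γ s)) * (c - a) :=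
        mul_le_mul_of_nonneg_right (by linarith) (by linarith)
      linarith)
  rw [intervalIntegral.integral_const, smul_eq_mul, mul_one, zero_mul, add_zero, sub_zero] at h1
  -- the density
  have h2 := dens (h := fun s => h (γ s)) (k := fun s => k (γ s)) (l₁ := b * r) (B := B / r)
    (δ₁ := εb / 2) hl.le (by positivity) (by positivity) (by positivity) hhc hkc
    (fun s _ => hk0 _) (fun s _ => hhB _) (by
      intro s hs hsl hne
      by_contra hcon
      have h3 := sub_chord hA hs (show s < s + b * r by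
        have := mul_pos hb hr
        linarith) hsl hγ
      rw [add_sub_cancel_left] at h3
      refine hpt (fun σ => γ (σ + s)) ?_ (by simpa using hne) ?_
      · have h4 := sub_arc (b := s + b * r) hs hsl hγ
        rwa [add_sub_cancel_left] at h4
      · simp only [zero_add]
        rw [add_comm (b * r) s]
        refine le_trans (mul_le_mul_of_nonneg_right ?_ (by positivity)) h3
        have := not_le.1 hcon
        linarith)
  have e1 : B / r * (b * r) = B * b := by field_simp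
  rw [e1] at h2
  have h3 : B * b / (8 * r) * l ≤ B * b * (1 + 4 * ∫ s in (0 : ℝ)..l, k (γ s)) := by
    rw [div_mul_eq_mul_div, div_le_iff₀ (by positivity)]
    have := mul_le_mul_of_nonneg_left h1 (show 0 ≤ B * b by positivity)
    linarith
  linarith

/-! ### The curvature on the shell -/

lemma stp_alpha {α t : ℝ} (hα : 0 ≤ α) (ht : 0 < t) :
    α ≤ 2 * t + stp (α ^ 2 / t ^ 2 - 1) * (α ^ 2 / t) := by
  rcases le_total (2 * t ^ 2) (α ^ 2) with h | h
  · rw [Pool.Agent.H2VL.stp_of_ge (by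
      rw [le_sub_iff_add_le, le_div_iff₀ (by positivity)]
      linarith), one_mul]
    have h1 : t ≤ α := by nlinarith
    have h2 : α ≤ α ^ 2 / t := by
      rw [le_div_iff₀ ht]
      nlinarith
    linarith
  · have h1 : α ≤ 2 * t := by nlinarith
    have h2 := mul_nonneg (Pool.Agent.H2VL.stp_nonneg (α ^ 2 / t ^ 2 - 1))
      (show 0 ≤ α ^ 2 / t by positivity)
    linarith

/-- The density which detects the curvature. -/
noncomputable def hcu (χ : V → ℝ) (v : V → V) (m1 t : ℝ) (y : V) : ℝ :=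
  χ y * (stp (W2 v y / m1 ^ 6 / t ^ 2 - 1) * (W2 v y / m1 ^ 6 / t))

lemma hcu_smooth {χ : V → ℝ} {v : V → V} (hχ : ContDiff ℝ 1 χ) (hv : SM v) (m1 t : ℝ) :
    ContDiff ℝ 1 (hcu χ v m1 t) := by
  have h1 := W2_smooth hv
  refine hχ.mul (ContDiff.mul ?_ ?_)
  · exact Pool.Agent.H2VL.stp_smooth.comp (((h1.div_const _).div_const _).sub contDiff_const)
  · exact (h1.div_const _).div_const _

/-- The integral of a bounded function over a part of the cube. -/
lemma int_le_const {f : V → ℝ} {x : V} {r c : ℝ} {S : Set V} (hr : 0 < r) (hc : 0 ≤ c)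
    (hS : MeasurableSet S) (hSb : S ⊆ closedBall x r) (hf : IntegrableOn f S)
    (h : ∀ y ∈ S, f y ≤ c) : ∫ y in S, f y ≤ c * (8 * r ^ 3) := by
  have hvol : volume (closedBall x r) ≤ ENNReal.ofReal (8 * r ^ 3) := by
    rw [Real.volume_pi_closedBall x hr.le]
    refine ENNReal.ofReal_le_ofReal (le_of_eq ?_)
    simp
    ring
  have hfin : volume S ≤ ENNReal.ofReal (8 * r ^ 3) := (measure_mono hSb).trans hvol
  have h1 : ∫ y in S, f y ≤ ∫ _y in S, c := by
    refine setIntegral_mono_on hf ?_ hS h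
    exact integrableOn_const (hfin.trans_lt ENNReal.ofReal_lt_top).ne
  rw [setIntegral_const, smul_eq_mul] at h1
  have h2 : volume.real S ≤ 8 * r ^ 3 := ENNReal.toReal_le_of_le_ofReal (by positivity) hfin
  have h3 := mul_le_mul_of_nonneg_right h2 hc
  linarith

/-- An arc stays near its first point. -/
lemma arc_near {v : V → V} {D : Set V} {γ : ℝ → V} {l : ℝ}
    (hD : ∀ y ∈ D, 0 < om v y)
    (h : ∀ s ∈ Icc (0 : ℝ) l, γ s ∈ D ∧
      HasDerivWithinAt γ ((len (vort v (γ s)))⁻¹ • vort v (γ s)) (Icc 0 l) s) :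
    ∀ s ∈ Icc (0 : ℝ) l, γ s ∈ closedBall (γ 0) l := by
  intro s hs
  have h0 : (0 : ℝ) ∈ Icc 0 l := ⟨le_rfl, hs.1.trans hs.2⟩
  have h1 := (convex_Icc (0 : ℝ) l).norm_image_sub_le_of_norm_hasDerivWithin_le
    (f := γ) (C := 1) (fun t ht => (h t ht).2) (fun t ht => by
      have h2 := xi_len (hD _ (h t ht).1)
      have h3 := Pool.Agent.H2VL.norm_le_len (xi v (γ t))
      rw [h2] at h3
      exact h3) h0 hs
  rw [one_mul, Real.norm_eq_abs, sub_zero, abs_of_nonneg hs.1] at h1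
  rw [mem_closedBall, dist_eq_norm]
  exact h1.trans hs.2

set_option maxHeartbeats 3200000 in
theorem cvK (hF : StmFlxK) : StmCvP StrK := by
  obtain ⟨C, hC, hF⟩ := hF
  intro M g τ hM hg hg1 hτ
  obtain ⟨M1, hM1d⟩ : ∃ M1, M1 = √M := ⟨_, rfl⟩
  have hM1 : 1 ≤ M1 := by rw [hM1d]; exact Real.one_le_sqrt.2 hM
  have hM0 : 0 < M1 := by linarith
  obtain ⟨c, hcd⟩ : ∃ c, c = min (g / 4) (τ / (4608 * M1)) := ⟨_, rfl⟩
  have hc : 0 < c := by rw [hcd]; exact lt_min (by positivity) (by positivity)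
  have hcg : c ≤ g / 4 := by rw [hcd]; exact min_le_left _ _
  have hcτ : 4608 * M1 * c ≤ τ := by
    have : c ≤ τ / (4608 * M1) := by rw [hcd]; exact min_le_right _ _
    rwa [le_div_iff₀ (by positivity), mul_comm] at this
  have hc1 : c ≤ 1 := by linarith
  obtain ⟨c₂, hc₂d⟩ : ∃ c₂, c₂ = min 1 (τ * c ^ 9 / (768 * M1)) := ⟨_, rfl⟩
  have hc₂ : 0 < c₂ := by rw [hc₂d]; exact lt_min one_pos (by positivity)
  have hc₂1 : c₂ ≤ 1 := by rw [hc₂d]; exact min_le_left _ _
  have hc₂τ : 768 * M1 * c₂ ≤ τ * c ^ 9 := by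
    have : c₂ ≤ τ * c ^ 9 / (768 * M1) := by rw [hc₂d]; exact min_le_right _ _
    rwa [le_div_iff₀ (by positivity), mul_comm] at this
  obtain ⟨τ', hτ'd⟩ : ∃ τ', τ' = τ * c ^ 9 / 64 := ⟨_, rfl⟩
  have hτ' : 0 < τ' := by rw [hτ'd]; positivity
  obtain ⟨B, hBd⟩ : ∃ B, B = 13824 * M1 / (c ^ 18 * τ) := ⟨_, rfl⟩
  have hB : 0 < B := by rw [hBd]; positivity
  obtain ⟨b, hbd⟩ : ∃ b, b = min (min (g / 8) (c₂ ^ 3 / 12))
      (min (τ' * c₂ ^ 3 / (10368 * M1)) (τ * g / (4672 * C * B * M1))) := ⟨_, rfl⟩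
  have hb : 0 < b := by
    rw [hbd]
    exact lt_min (lt_min (by positivity) (by positivity)) (lt_min (by positivity) (by positivity))
  have hbg : b ≤ g / 8 := by rw [hbd]; exact (min_le_left _ _).trans (min_le_left _ _)
  have hbc : b ≤ c₂ ^ 3 / 12 := by rw [hbd]; exact (min_le_left _ _).trans (min_le_right _ _)
  have hbτ : 10368 * M1 * b ≤ τ' * c₂ ^ 3 := by
    have : b ≤ τ' * c₂ ^ 3 / (10368 * M1) := by
      rw [hbd]; exact (min_le_right _ _).trans (min_le_left _ _)
    rwa [le_div_iff₀ (by positivity), mul_comm] at this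
  have hbC : 4672 * C * B * M1 * b ≤ τ * g := by
    have : b ≤ τ * g / (4672 * C * B * M1) := by
      rw [hbd]; exact (min_le_right _ _).trans (min_le_right _ _)
    rwa [le_div_iff₀ (by positivity), mul_comm] at this
  obtain ⟨εb, hεb, hεb1, hpt⟩ := cvS_pt hM1 hc₂ hc₂1 hτ' hb hbc hbτ
  obtain ⟨A, hAd⟩ : ∃ A, A = 4 * (B * b) + B * b / (εb / 2) := ⟨_, rfl⟩
  have hA0 : 0 < A := by rw [hAd]; positivity
  obtain ⟨ε, hεd⟩ : ∃ ε, ε = min (min (1 / 4) (εb / 2)) (τ / (16 * A)) := ⟨_, rfl⟩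
  have hε : 0 < ε := by
    rw [hεd]
    exact lt_min (lt_min (by norm_num) (by positivity)) (by positivity)
  have hε1 : ε ≤ 1 / 4 := by rw [hεd]; exact (min_le_left _ _).trans (min_le_left _ _)
  have hεεb : ε ≤ εb / 2 := by rw [hεd]; exact (min_le_left _ _).trans (min_le_right _ _)
  have hεA : A * (2 * ε) ≤ τ / 8 := by
    have : ε ≤ τ / (16 * A) := by rw [hεd]; exact min_le_right _ _
    rw [le_div_iff₀ (by positivity)] at this
    linarith
  refine ⟨ε, M1 * c ^ 3 / 4, hε, by positivity, ?_⟩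
  intro v x r s m hv hr hm hmr hs1 hs2 hbd' hT
  obtain ⟨L, k, hL, hkL, hk0, hki, hA⟩ := strK_lip hv hε hT
  have hs : 0 < s := by linarith [div_pos hr (by norm_num : (0 : ℝ) < 64)]
  obtain ⟨m1, hm1d⟩ : ∃ m1, m1 = M1 * c ^ 3 / r ^ 2 := ⟨_, rfl⟩
  have hm1 : 0 < m1 := by rw [hm1d]; positivity
  have hmm1 : m ≤ m1 / 4 := by
    rw [hm1d, div_div, le_div_iff₀ (by positivity)]
    linarith
  obtain ⟨t, htd⟩ : ∃ t, t = τ / (128 * M1 * r) := ⟨_, rfl⟩
  have ht : 0 < t := by rw [htd]; positivity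
  -- the good region
  have hgood : ∀ y, |‖y - x‖ - s| < g * r → (∀ i, |vc v i y| ≤ M1 / r ^ 2) ∧
      (∀ i j, |pd j (vc v i) y| ≤ M1 / r ^ 3) ∧ (∀ i j k, |pd k (pd j (vc v i)) y| ≤ M1 / r ^ 4) ∧
      ∀ i j k l, |pd l (pd k (pd j (vc v i))) y| ≤ M1 / r ^ 5 := by
    intro y hy
    rw [hM1d]
    exact der_bds hr hM (hbd' y hy)
  have hgr : 0 < g * r := by positivity
  have hgr1 : g * r ≤ r / 128 := by
    have := mul_le_mul_of_nonneg_right hg1 hr.le
    linarith
  obtain ⟨w, hwd⟩ : ∃ w, w = g * r / 8 := ⟨_, rfl⟩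
  have hw : 0 < w := by rw [hwd]; positivity
  have h6w : 6 * w < g * r := by rw [hwd]; linarith
  have hombd : ∀ y, |‖y - x‖ - s| < g * r → om v y ≤ 2 * (M1 / r ^ 2) := by
    intro y hy
    have h2 := len_le2 (vort v y)
    have h3 : ‖vort v y‖ ≤ M1 / r ^ 2 := by
      rw [pi_norm_le_iff_of_nonneg (by positivity)]
      intro i
      exact (hgood y hy).1 i
    have h4 : om v y = len (vort v y) := rfl
    linarith
  -- the cut-off function and the density
  obtain ⟨χ, hχd⟩ : ∃ χ, χ = xs x s w := ⟨_, rfl⟩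
  have hχs : ContDiff ℝ 1 χ := by rw [hχd]; exact xs_smooth _ _ _
  have hχb : ∀ y, 0 ≤ χ y ∧ χ y ≤ 1 := fun y => by rw [hχd]; exact xs_bd hw y
  have hχn : ∀ y, χ y ≠ 0 → |‖y - x‖ - s| ≤ 6 * w := fun y hy => by
    rw [hχd] at hy
    exact xs_ne hw hy
  have hχball : ∀ y, |‖y - x‖ - s| ≤ 6 * w → ‖y - x‖ ≤ r / 2 := fun y hy => by
    have := (abs_le.1 hy).2
    linarith
  obtain ⟨h, hhd⟩ : ∃ h, h = hcu χ v m1 t := ⟨_, rfl⟩
  have hhs : ContDiff ℝ 1 h := by rw [hhd]; exact hcu_smooth hχs hv m1 t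
  have hhz : ∀ y, χ y = 0 → h y = 0 := fun y hy => by
    rw [hhd]
    unfold hcu
    rw [hy, zero_mul]
  have hh0 : ∀ y, 0 ≤ h y := fun y => by
    rw [hhd]
    unfold hcu
    have := W2_nonneg v y
    exact mul_nonneg (hχb y).1 (mul_nonneg (Pool.Agent.H2VL.stp_nonneg _) (by positivity))
  have hhcs : HasCompactSupport h := HasCompactSupport.intro (isCompact_closedBall x (r / 2))
    fun y hy => hhz y (by
      by_contra hne
      rw [mem_closedBall, dist_eq_norm] at hy
      exact hy (hχball y (hχn y hne)))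
  obtain ⟨Lh, hLh⟩ := ContDiff.lipschitzWith_of_hasCompactSupport hhcs hhs (by simp)
  have hhB : ∀ y, h y ≤ B / r := by
    intro y
    by_cases hz : χ y = 0
    · rw [hhz y hz]
      positivity
    have hy := lt_of_le_of_lt (hχn y hz) h6w
    have h1 := (W2_le hv (y := y) (a := M1 / r ^ 2) (b := M1 / r ^ 3) (by positivity)
      (by positivity) (hgood y hy).1 (hgood y hy).2.1).1
    have h2 : W2 v y / m1 ^ 6 / t ≤ B / r := by
      have e1 : B / r = 108 * ((M1 / r ^ 2) ^ 2 * (M1 / r ^ 3)) ^ 2 / m1 ^ 6 / t := by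
        rw [hBd, hm1d, htd]
        field_simp
        ring
      rw [e1]
      exact div_le_div_of_nonneg_right (div_le_div_of_nonneg_right h1 (by positivity)) ht.le
    have h3 : 0 ≤ W2 v y / m1 ^ 6 / t := by
      have := W2_nonneg v y
      positivity
    rw [hhd]
    unfold hcu
    have h4 := mul_le_of_le_one_left h3 (Pool.Agent.H2VL.stp_le_one (W2 v y / m1 ^ 6 / t ^ 2 - 1))
    have h5 := mul_le_of_le_one_left (mul_nonneg (Pool.Agent.H2VL.stp_nonneg
      (W2 v y / m1 ^ 6 / t ^ 2 - 1)) h3) (hχb y).2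
    exact h5.trans (h4.trans h2)
  have hDpos : ∀ y ∈ Dm v x r m, 0 < om v y := fun y hy => hm.trans hy.2
  -- the arcs
  have hbad : ∀ γ : ℝ → V, (∀ s ∈ Icc 0 (b * r), γ s ∈ Dm v x r m ∧
      HasDerivWithinAt γ ((len (vort v (γ s)))⁻¹ • vort v (γ s)) (Icc 0 (b * r)) s) →
      h (γ 0) ≠ 0 → (1 - εb) * (b * r) ≤ len (γ (b * r) - γ 0) → False := by
    intro γ hγ hne hch
    obtain ⟨y, hyd⟩ : ∃ y, y = γ 0 := ⟨_, rfl⟩
    rw [← hyd] at hne
    have hχy : χ y ≠ 0 := fun hz => hne (hhz y hz)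
    have hy := hχn y hχy
    have hreg : ∀ z ∈ closedBall y (b * r), |‖z - x‖ - s| < g * r := by
      intro z hz
      rw [mem_closedBall, dist_eq_norm] at hz
      have h1 : ‖z - x‖ ≤ ‖z - y‖ + ‖y - x‖ := norm_sub_le_norm_sub_add_norm_sub _ _ _
      have h2 : ‖y - x‖ ≤ ‖z - y‖ + ‖z - x‖ := by
        rw [norm_sub_rev z y]
        exact norm_sub_le_norm_sub_add_norm_sub _ _ _
      have h3 : b * r ≤ g / 8 * r := mul_le_mul_of_nonneg_right hbg hr.le
      have h4 := abs_le.1 hy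
      have h5 : 6 * w = 3 / 4 * (g * r) := by rw [hwd]; ring
      rw [abs_lt]
      constructor <;> linarith
    have hyb : y ∈ closedBall y (b * r) := mem_closedBall_self (by positivity)
    -- the lower bound of `W2`
    have hW : m1 ^ 3 * t < √(W2 v y) := by
      have h1 : stp (W2 v y / m1 ^ 6 / t ^ 2 - 1) ≠ 0 := fun h0 => hne (by
        rw [hhd]
        unfold hcu
        rw [h0, zero_mul, mul_zero])
      have h2 := Pool.Agent.H2VL.stp_ne_zero h1
      have h3 : (m1 ^ 3 * t) ^ 2 < W2 v y := by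
        have h4 : 1 < W2 v y / m1 ^ 6 / t ^ 2 := by linarith
        rw [div_div, lt_div_iff₀ (by positivity), one_mul] at h4
        have e : (m1 ^ 3 * t) ^ 2 = m1 ^ 6 * t ^ 2 := by ring
        rw [e]
        exact h4
      exact Real.lt_sqrt_of_sq_lt h3
    have hW2 := (W2_le hv (y := y) (a := M1 / r ^ 2) (b := M1 / r ^ 3) (by positivity)
      (by positivity) (hgood y (hreg y hyb)).1 (hgood y (hreg y hyb)).2.1).2
    have hom0 : 0 ≤ om v y := Pool.Agent.H2CV.len_nn _
    have e1 : m1 ^ 3 * t = M1 ^ 2 * (τ * c ^ 9) / (128 * r ^ 7) := by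
      rw [hm1d, htd]
      field_simp
    have homl : M1 * c₂ ^ 3 / r ^ 2 < om v y := by
      by_contra hcon
      have h1 : om v y ≤ M1 * c₂ ^ 3 / r ^ 2 := not_lt.1 hcon
      have h2 : om v y ^ 2 ≤ (M1 * c₂ ^ 3 / r ^ 2) ^ 2 := pow_le_pow_left₀ hom0 h1 2
      have h3 : c₂ ^ 6 ≤ c₂ := pow_le_of_le_one hc₂.le hc₂1 (by norm_num)
      have h4 : (M1 * c₂ ^ 3 / r ^ 2) ^ 2 ≤ M1 ^ 2 * c₂ / r ^ 4 := by
        have e2 : (M1 * c₂ ^ 3 / r ^ 2) ^ 2 = M1 ^ 2 * c₂ ^ 6 / r ^ 4 := by
          field_simp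
        rw [e2]
        refine div_le_div_of_nonneg_right ?_ (by positivity)
        exact mul_le_mul_of_nonneg_left h3 (by positivity)
      have h5 : m1 ^ 3 * t < 6 * (M1 / r ^ 3) * (M1 ^ 2 * c₂ / r ^ 4) :=
        hW.trans_le (hW2.trans (mul_le_mul_of_nonneg_left (h2.trans h4) (by positivity)))
      have e3 : 6 * (M1 / r ^ 3) * (M1 ^ 2 * c₂ / r ^ 4)
          = M1 ^ 2 * (768 * M1 * c₂) / (128 * r ^ 7) := by
        field_simp
        ring
      rw [e1, e3, div_lt_div_iff_of_pos_right (by positivity)] at h5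
      have h6 := mul_le_mul_of_nonneg_left hc₂τ (show 0 ≤ M1 ^ 2 by positivity)
      linarith
    have h1 := hpt v y r hv hr (fun z hz => ⟨(hgood z (hreg z hz)).1, (hgood z (hreg z hz)).2.1,
      (hgood z (hreg z hz)).2.2.1⟩) homl γ hyd.symm (fun s hs => (hγ s hs).2) (by
        rw [hyd]
        exact arc_near hDpos hγ) hch
    have homp : 0 < om v y := lt_of_le_of_lt (by positivity) homl
    rw [cv_W2 hv, div_le_iff₀ (by positivity)] at h1
    have h2 : om v y ^ 2 ≤ (2 * (M1 / r ^ 2)) ^ 2 :=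
      pow_le_pow_left₀ hom0 (hombd y (hreg y hyb)) 2
    have h3 : τ' / 2 / (8 * r ^ 3) * om v y ^ 2 ≤ τ' / 2 / (8 * r ^ 3) * (2 * (M1 / r ^ 2)) ^ 2 :=
      mul_le_mul_of_nonneg_left h2 (by positivity)
    have e2 : τ' / 2 / (8 * r ^ 3) * (2 * (M1 / r ^ 2)) ^ 2
        = M1 ^ 2 * (τ * c ^ 9) / (256 * r ^ 7) := by
      rw [hτ'd]
      field_simp
      ring
    have h4 : M1 ^ 2 * (τ * c ^ 9) / (128 * r ^ 7) < M1 ^ 2 * (τ * c ^ 9) / (256 * r ^ 7) := by
      rw [← e1, ← e2]
      linarith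
    rw [div_lt_div_iff₀ (by positivity) (by positivity)] at h4
    have h5 : 0 < M1 ^ 2 * (τ * c ^ 9) * r ^ 7 := by positivity
    linarith
  -- the flux inequality
  obtain ⟨L', hL'd⟩ : ∃ L' : ℝ, L' = max L Lh := ⟨_, rfl⟩
  have hhL : ∀ y z, |h y - h z| ≤ L' * ‖y - z‖ := by
    intro y z
    have h1 := hLh.dist_le_mul y z
    rw [Real.dist_eq, dist_eq_norm] at h1
    refine h1.trans (mul_le_mul_of_nonneg_right ?_ (norm_nonneg _))
    rw [hL'd]
    exact le_max_right _ _
  have hkL' : ∀ y z, |k y - k z| ≤ L' * ‖y - z‖ := by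
    intro y z
    refine (hkL y z).trans (mul_le_mul_of_nonneg_right ?_ (norm_nonneg _))
    rw [hL'd]
    exact le_max_left _ _
  have hkc : Continuous k := by
    have h1 : LipschitzWith ⟨L, hL⟩ k := LipschitzWith.of_dist_le_mul fun y z => by
      rw [Real.dist_eq, dist_eq_norm]
      exact hkL y z
    exact h1.continuous
  have hQm : MeasurableSet (Shell x s (6 * w)) :=
    (isClosed_le (by fun_prop) continuous_const).measurableSet
  have hQb : Shell x s (6 * w) ⊆ closedBall x r := fun y hy => by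
    have h1 : |‖y - x‖ - s| ≤ 6 * w := hy
    rw [mem_closedBall, dist_eq_norm]
    linarith [hχball y h1]
  have hflux := hF v x r m (8 * r) (B * b) A L' (4 / w) h k χ (Shell x s (6 * w)) hv hr hm
    (by positivity) (by positivity) hA0.le hhL hkL' hh0 hk0 hχs hχb
    (fun y hy => hχball y (hχn y hy)) (fun y j => by
      rw [hχd]
      exact pd_xs hw (by linarith) y j) hQm hQb (fun y hy => hχn y hy) (by
      rw [hAd]
      exact arcK hr hb hB hε1 hεb hεεb hkc hk0 hhs.continuous hhB hA hbad)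
  have hE : ∫ y in {y | pd 0 χ y ≠ 0 ∨ pd 1 χ y ≠ 0 ∨ pd 2 χ y ≠ 0}, 4 / w * om v y
      ≤ 512 * M1 / g := by
    have hsub : {y | pd 0 χ y ≠ 0 ∨ pd 1 χ y ≠ 0 ∨ pd 2 χ y ≠ 0} ⊆ Shell x s (6 * w) := by
      intro y hy
      rw [hχd] at hy
      rcases hy with h1 | h1 | h1 <;> exact pd_xs_ne hw h1
    have hpc : ∀ j, Continuous (pd j χ) := fun j =>
      (hχs.continuous_fderiv one_ne_zero).clm_apply continuous_const
    have hSm : MeasurableSet {y | pd 0 χ y ≠ 0 ∨ pd 1 χ y ≠ 0 ∨ pd 2 χ y ≠ 0} :=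
      ((isOpen_ne_fun (hpc 0) continuous_const).union
        ((isOpen_ne_fun (hpc 1) continuous_const).union
          (isOpen_ne_fun (hpc 2) continuous_const))).measurableSet
    have h1 := int_le_const (f := fun y => 4 / w * om v y) (c := 4 / w * (2 * (M1 / r ^ 2))) hr
      (by positivity) hSm (hsub.trans hQb)
      (((continuous_const.mul (om_cont' hv)).continuousOn.integrableOn_compact
        (isCompact_closedBall x r)).mono_set (hsub.trans hQb))
      (fun y hy => mul_le_mul_of_nonneg_left (hombd y (lt_of_le_of_lt (hsub hy) h6w))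
        (by positivity))
    refine h1.trans (le_of_eq ?_)
    rw [hwd]
    field_simp
    ring
  have hLk : ∫ y in Shell x s (6 * w), ∑ i, ∑ j, lkd (vc v i) m j y ≤ 72 * M1 := by
    have h1 := int_le_const (f := fun y => ∑ i, ∑ j, lkd (vc v i) m j y)
      (c := 9 * (M1 / r ^ 3)) hr (by positivity) hQm hQb ((lks_int hv m x r).mono_set hQb)
      (fun y hy => by
        have h2 : ∀ i j, lkd (vc v i) m j y ≤ M1 / r ^ 3 := by
          intro i j
          unfold lkd
          have h3 := (hgood y (lt_of_le_of_lt hy h6w)).2.1 i j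
          refine le_trans (div_le_self (abs_nonneg _) ?_) h3
          have := sq_nonneg (vc v i y / m)
          linarith
        calc ∑ i, ∑ j, lkd (vc v i) m j y ≤ ∑ _i : Fin 3, ∑ _j : Fin 3, M1 / r ^ 3 :=
              Finset.sum_le_sum fun i _ => Finset.sum_le_sum fun j _ => h2 i j
          _ = 9 * (M1 / r ^ 3) := by
              simp
              ring)
    refine h1.trans (le_of_eq ?_)
    field_simp
    ring
  have hfl : ∫ y, χ y * (kap m v y * (h y * om v y)) ≤ τ / 4 := by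
    have h1 : A * (∫ y in Dm v x r m, k y * om v y) ≤ τ / 8 :=
      (mul_le_mul_of_nonneg_left hki hA0.le).trans hεA
    have h2 := mul_le_mul_of_nonneg_left (add_le_add hE hLk) (show 0 ≤ C * (B * b) by positivity)
    have h3 : C * (B * b) * (512 * M1 / g + 72 * M1) ≤ τ / 8 := by
      have e1 : 512 * M1 / g + 72 * M1 ≤ 584 * M1 / g := by
        rw [div_add' _ _ _ hg.ne', div_le_div_iff_of_pos_right hg]
        have h4 : M1 * g ≤ M1 := mul_le_of_le_one_right hM0.le (by linarith)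
        linarith
      refine (mul_le_mul_of_nonneg_left e1 (by positivity)).trans ?_
      rw [show C * (B * b) * (584 * M1 / g) = 584 * C * B * M1 * b / g by ring, div_le_iff₀ hg]
      linarith
    linarith
  -- the strong part
  have hreg2 := shell_reg (x := x) hg hg1 hr hs2
  have hShm : MeasurableSet (Shell x s (g * r / 2)) :=
    (isClosed_le (by fun_prop) continuous_const).measurableSet
  have hShK : Shell x s (g * r / 2) ⊆ closedBall x r := fun y hy =>
    (hreg2 y hy y (by rw [sub_self, norm_zero]; positivity)).2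
  have hcvI : IntegrableOn (cv v) (Shell x s (g * r / 2)) :=
    (cv_int hv (isCompact_closedBall x r)).mono_set hShK
  have hmeas : MeasurableSet {y | om v y ≤ m1} :=
    (isClosed_le (om_cont' hv) continuous_const).measurableSet
  have hweak := cv_weak (τ := τ) hM hg hg1 hc hcg (by rw [← hM1d]; exact hcτ) hv hr hs2 hbd'
  rw [← hM1d, ← hm1d] at hweak
  have hstr : ∫ y in Shell x s (g * r / 2) \ {y | om v y ≤ m1}, cv v y ≤ τ / 2 := by
    have hpt2 : ∀ y ∈ Shell x s (g * r / 2) \ {y | om v y ≤ m1},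
        cv v y ≤ χ y * (kap m v y * (h y * om v y)) + 2 * t * om v y := by
      intro y hy
      have hom : m1 < om v y := not_le.1 hy.2
      have hy1 : |‖y - x‖ - s| ≤ 4 * w := by
        have h1 : |‖y - x‖ - s| ≤ g * r / 2 := hy.1
        rw [hwd]
        linarith
      have hx1 : χ y = 1 := by rw [hχd]; exact xs_one hw hy1
      have hk1 : kap m v y = 1 := by
        unfold kap
        refine Pool.Agent.H2VL.stp_of_ge ?_
        rw [le_div_iff₀ (by positivity)]
        have h1 : 4 * m ≤ om v y := by linarith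
        have h2 := pow_le_pow_left₀ (by positivity) h1 2
        nlinarith [sq_nonneg m]
      have hW0 := W2_nonneg v y
      have hom0 : 0 < om v y := hm1.trans hom
      have h1 : cv v y ≤ √(W2 v y) / m1 ^ 3 * om v y := by
        rw [cv_W2 hv, div_le_iff₀ (by positivity)]
        have h2 : m1 ^ 3 ≤ om v y ^ 3 := pow_le_pow_left₀ hm1.le hom.le 3
        have h3 : √(W2 v y) / m1 ^ 3 * om v y * om v y ^ 2
            = √(W2 v y) * (om v y ^ 3 / m1 ^ 3) := by ring
        rw [h3]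
        refine le_mul_of_one_le_right (Real.sqrt_nonneg _) ?_
        rwa [one_le_div (by positivity)]
      have h2 := stp_alpha (α := √(W2 v y) / m1 ^ 3) (by positivity) ht
      have e1 : (√(W2 v y) / m1 ^ 3) ^ 2 = W2 v y / m1 ^ 6 := by
        rw [div_pow, Real.sq_sqrt hW0]
        ring
      rw [e1] at h2
      have h3 : h y = stp (W2 v y / m1 ^ 6 / t ^ 2 - 1) * (W2 v y / m1 ^ 6 / t) := by
        rw [hhd]
        unfold hcu
        rw [hx1, one_mul]
      rw [← h3] at h2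
      have h4 := mul_le_mul_of_nonneg_right h2 hom0.le
      rw [hx1, hk1]
      linarith
    have hi1 : Integrable fun y => χ y * (kap m v y * (h y * om v y)) := by
      refine Continuous.integrable_of_hasCompactSupport ?_ ?_
      · exact hχs.continuous.mul ((kap_smooth hv m).continuous.mul
          (hhs.continuous.mul (om_cont' hv)))
      · refine HasCompactSupport.intro (isCompact_closedBall x (r / 2)) fun y hy => ?_
        have h1 : χ y = 0 := by
          by_contra hne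
          rw [mem_closedBall, dist_eq_norm] at hy
          exact hy (hχball y (hχn y hne))
        rw [h1, zero_mul]
    have hn1 : ∀ y, 0 ≤ χ y * (kap m v y * (h y * om v y)) := fun y =>
      mul_nonneg (hχb y).1 (mul_nonneg (Pool.Agent.H2VL.stp_nonneg _)
        (mul_nonneg (hh0 y) (Pool.Agent.H2CV.len_nn _)))
    have hi2 : IntegrableOn (fun y => 2 * t * om v y)
        (Shell x s (g * r / 2) \ {y | om v y ≤ m1}) :=
      ((continuous_const.mul (om_cont' hv)).continuousOn.integrableOn_compact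
        (isCompact_closedBall x r)).mono_set (sdiff_subset.trans hShK)
    have h1 : ∫ y in Shell x s (g * r / 2) \ {y | om v y ≤ m1}, cv v y
        ≤ ∫ y in Shell x s (g * r / 2) \ {y | om v y ≤ m1},
          (χ y * (kap m v y * (h y * om v y)) + 2 * t * om v y) :=
      setIntegral_mono_on (hcvI.mono_set sdiff_subset) (hi1.integrableOn.add hi2)
        (hShm.diff hmeas) hpt2
    rw [integral_add hi1.integrableOn hi2] at h1
    have h2 := setIntegral_le_integral (s := Shell x s (g * r / 2) \ {y | om v y ≤ m1}) hi1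
      (Eventually.of_forall hn1)
    have h3 := int_le_const (f := fun y => 2 * t * om v y) (c := 2 * t * (2 * (M1 / r ^ 2))) hr
      (by positivity) (hShm.diff hmeas) (sdiff_subset.trans hShK) hi2
      (fun y hy => mul_le_mul_of_nonneg_left (hombd y (by
        have h1 : |‖y - x‖ - s| ≤ g * r / 2 := hy.1
        linarith)) (by positivity))
    have e1 : 2 * t * (2 * (M1 / r ^ 2)) * (8 * r ^ 3) = τ / 4 := by
      rw [htd]
      field_simp
      ring
    rw [e1] at h3
    linarith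
  rw [← integral_inter_add_sdiff hmeas hcvI]
  linarith

end Pool.Agent.H1TV
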