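import Pool.Agent.H1TV.LkB
import Pool.Agent.H2VL.Mol

/-!
Project TV: on a good shell small turning implies that the curvature is small.
-/

set_option autoImplicit false

open MeasureTheory Set Metric Filter Topology
open scoped ContDiff ENNReal NNReal
open H459R3.NS Pool.Agent.W268.NS Pool.Agent.Q67.VD

namespace Pool.Agent.H1TV

open Pool.Agent.Q85.CC Pool.Agent.Q85.CL Pool.Agent.Q85.VL Pool.Agent.H2CV

lemma xi_len {v : V → V} {y : V} (h : 0 < om v y) : len (xi v y) = 1 := by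
  unfold xi
  rw [Pool.Agent.H2VL.len_smul, abs_of_pos (inv_pos.2 h)]
  exact inv_mul_cancel₀ h.ne'

lemma xi_c1 {v : V → V} (hv : SM v) {S : Set V} (h : ∀ z ∈ S, 0 < om v z) :
    ContDiffOn ℝ 1 (xi v) S := by
  have h1 : ContDiff ℝ 1 (vort v) := vort_c1 hv
  have h2 : ContDiffOn ℝ 1 (om v) S := by
    have e : om v = fun z => √(∑ i, vort v z i ^ 2) := by
      funext z
      rw [← len_sq3, Real.sqrt_sq (Pool.Agent.H2CV.len_nn _)]
      rfl
    rw [e]
    have h3 : ∀ i, ContDiff ℝ 1 fun z => vort v z i := (Pool.Agent.Q151.CC.vort_df hv).smooth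
    refine ContDiffOn.sqrt (ContDiff.sum fun i _ => (h3 i).pow 2).contDiffOn fun z hz h0 => ?_
    have h4 := h z hz
    rw [e] at h4
    simp only at h4
    rw [h0, Real.sqrt_zero] at h4
    exact lt_irrefl _ h4
  exact (h2.inv fun z hz => (h z hz).ne').smul h1.contDiffOn

/-- The vortex line which starts at `y`. -/
lemma vl_exists {v : V → V} (hv : SM v) {y : V} {l : ℝ} (hl : 0 < l)
    (h : ∀ z ∈ closedBall y l, 0 < om v z) : ∃ γ : ℝ → V, γ 0 = y ∧
      (∀ s ∈ Icc 0 l, HasDerivWithinAt γ (xi v (γ s)) (Icc 0 l) s) ∧ ∀ s, γ s ∈ closedBall y l := by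
  obtain ⟨K, hK⟩ := (xi_c1 hv h).exists_lipschitzOnWith one_ne_zero (convex_closedBall y l)
    (isCompact_closedBall y l)
  exact Pool.Agent.H2VL.arc_exists hl hK fun z hz => by
    rw [← xi_len (h z hz)]
    exact Pool.Agent.H2VL.norm_le_len _

/-- The norm of a linear map. -/
lemma op_le (L : V →L[ℝ] V) {B : ℝ} (hB : 0 ≤ B) (h : ∀ i j, |L (Pi.single j 1) i| ≤ B) :
    ‖L‖ ≤ 3 * B := by
  refine ContinuousLinearMap.opNorm_le_bound _ (by positivity) fun w => ?_
  rw [pi_norm_le_iff_of_nonneg (by positivity)]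
  intro i
  have e1 : L w i = ∑ j, w j * L (Pi.single j 1) i := by
    conv_lhs => rw [← Finset.univ_sum_single w]
    rw [map_sum, Finset.sum_apply]
    refine Finset.sum_congr rfl fun j _ => ?_
    have e3 : (Pi.single j (w j) : V) = w j • (Pi.single j 1 : V) := by
      rw [← Pi.single_smul, smul_eq_mul, mul_one]
    rw [e3, map_smul]
    rfl
  rw [e1, Real.norm_eq_abs]
  calc |∑ j, w j * L (Pi.single j 1) i|
      ≤ ∑ j, |w j * L (Pi.single j 1) i| := Finset.abs_sum_le_sum_abs _ _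
    _ ≤ ∑ _j : Fin 3, ‖w‖ * B := by
        refine Finset.sum_le_sum fun j _ => ?_
        rw [abs_mul]
        exact mul_le_mul (norm_le_pi_norm w j) (h i j) (abs_nonneg _) (norm_nonneg _)
    _ = 3 * B * ‖w‖ := by
        simp
        ring

lemma fd_apply {v : V → V} (hv : SM v) (y : V) (i j : Fin 3) :
    fderiv ℝ (vort v) y (Pi.single j 1) i = pd j (vc v i) y := by
  have hd : ∀ i, DifferentiableAt ℝ (fun z => vort v z i) y := fun i =>
    ((sm_vc hv i).differentiable (by norm_cast)).differentiableAt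
  rw [fderiv_pi hd]
  rfl

lemma len_le2 (a : V) : len a ≤ 2 * ‖a‖ := by
  have h0 := Pool.Agent.H2CV.len_nn a
  have h1 : len a ^ 2 ≤ (2 * ‖a‖) ^ 2 := by
    rw [len_sq3, Fin.sum_univ_three]
    have h2 : ∀ i, a i ^ 2 ≤ ‖a‖ ^ 2 := fun i => by
      rw [← sq_abs (a i)]
      exact pow_le_pow_left₀ (abs_nonneg _) (norm_le_pi_norm a i) 2
    have h3 := h2 0
    have h4 := h2 1
    have h5 := h2 2
    nlinarith [sq_nonneg ‖a‖]
  exact abs_le_of_sq_le_sq' h1 (by positivity) |>.2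

lemma lin_len (L : V →L[ℝ] V) {B : ℝ} (hB : ‖L‖ ≤ B) (w : V) : len (L w) ≤ 2 * B * len w := by
  have h1 := len_le2 (L w)
  have h2 := L.le_opNorm w
  have h3 := Pool.Agent.H2VL.norm_le_len w
  have h4 : ‖L‖ * ‖w‖ ≤ B * len w := mul_le_mul hB h3 (norm_nonneg _) ((norm_nonneg L).trans hB)
  linarith

/-- The mean value inequality on a cube. -/
lemma mv_le {f : V → ℝ} (hf : ContDiff ℝ 1 f) {S : Set V} (hS : Convex ℝ S) {G : ℝ}
    (h : ∀ z ∈ S, ∀ k, |pd k f z| ≤ G) {y z : V} (hy : y ∈ S) (hz : z ∈ S) :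
    |f z - f y| ≤ 3 * G * ‖z - y‖ := by
  have h1 := hS.norm_image_sub_le_of_norm_fderiv_le (𝕜 := ℝ) (f := f) (C := 3 * G)
    (fun w _ => (hf.differentiable one_ne_zero).differentiableAt) (fun w hw => by
      refine ContinuousLinearMap.opNorm_le_bound _ ?_ fun q => ?_
      · have := (abs_nonneg _).trans (h w hw 0)
        linarith
      · have e1 : fderiv ℝ f w q = ∑ j, q j * pd j f w := by
          conv_lhs => rw [← Finset.univ_sum_single q]
          rw [map_sum]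
          refine Finset.sum_congr rfl fun j _ => ?_
          have e3 : (Pi.single j (q j) : V) = q j • (Pi.single j 1 : V) := by
            rw [← Pi.single_smul, smul_eq_mul, mul_one]
          rw [e3, map_smul]
          rfl
        rw [e1, Real.norm_eq_abs]
        calc |∑ j, q j * pd j f w| ≤ ∑ j, |q j * pd j f w| := Finset.abs_sum_le_sum_abs _ _
          _ ≤ ∑ _j : Fin 3, ‖q‖ * G := by
              refine Finset.sum_le_sum fun j _ => ?_
              rw [abs_mul]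
              exact mul_le_mul (norm_le_pi_norm q j) (h w hw j) (abs_nonneg _) (norm_nonneg _)
          _ = 3 * G * ‖q‖ := by
              simp
              ring) hy hz
  rwa [Real.norm_eq_abs] at h1

/-- The curvature at a point, from the turning of the direction along the vortex line. -/
lemma cv_core {v : V → V} (hv : SM v) {y : V} {l εe εa G₀ G₁ G₂ : ℝ} (hl : 0 < l)
    (hG₁ : 0 ≤ G₁) (hG₂ : 0 ≤ G₂) (hlo' : ∀ z ∈ closedBall y l, 0 < om v z)
    (h0 : ∀ z ∈ closedBall y l, om v z ≤ G₀)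
    (h1 : ∀ z ∈ closedBall y l, ∀ i j, |pd j (vc v i) z| ≤ G₁)
    (h2 : ∀ z ∈ closedBall y l, ∀ i j k, |pd k (pd j (vc v i)) z| ≤ G₂)
    {γ : ℝ → V} (hγ0 : γ 0 = y)
    (hγd : ∀ s ∈ Icc 0 l, HasDerivWithinAt γ (xi v (γ s)) (Icc 0 l) s)
    (hγm : ∀ s ∈ Icc 0 l, γ s ∈ closedBall y l) (hend : len (xi v (γ l) - xi v y) ≤ εe)
    (hturn : ∀ s ∈ Icc 0 l, len (xi v (γ s) - xi v y) ≤ εa) :
    cv v y ≤ G₀ * εe / l + (6 * G₁ * εa + 18 * G₂ * l) := by
  have hyb : y ∈ closedBall y l := mem_closedBall_self hl.le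
  have hdω : ∀ z, HasFDerivAt (vort v) (fderiv ℝ (vort v) z) z := fun z =>
    ((vort_c1 hv).differentiable one_ne_zero z).hasFDerivAt
  obtain ⟨W, hW⟩ : ∃ W, W = fderiv ℝ (vort v) y (xi v y) := ⟨_, rfl⟩
  have hb1 : ∀ z ∈ closedBall y l, ‖fderiv ℝ (vort v) z‖ ≤ 3 * G₁ := by
    intro z hz
    refine op_le _ hG₁ fun i j => ?_
    rw [fd_apply hv]
    exact h1 z hz i j
  have hb2 : ∀ z ∈ closedBall y l, ‖fderiv ℝ (vort v) z - fderiv ℝ (vort v) y‖
      ≤ 3 * (3 * G₂ * l) := by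
    intro z hz
    refine op_le _ (by positivity) fun i j => ?_
    have e : (fderiv ℝ (vort v) z - fderiv ℝ (vort v) y) (Pi.single j 1) i
        = pd j (vc v i) z - pd j (vc v i) y := by
      rw [_root_.sub_apply, Pi.sub_apply, fd_apply hv, fd_apply hv]
    rw [e]
    have h3 := mv_le (f := pd j (vc v i)) ((Pool.Agent.W583.MD.sm_pd (sm_vc hv i) j).of_le
      (by norm_cast)) (convex_closedBall y l) (G := G₂)
      (fun w hw k => h2 w hw i j k) hyb hz
    refine h3.trans ?_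
    rw [mem_closedBall, dist_eq_norm] at hz
    exact mul_le_mul_of_nonneg_left hz (by positivity)
  have hder : ∀ t ∈ Icc 0 l, HasDerivWithinAt (fun s => vort v (γ s))
      (fderiv ℝ (vort v) (γ t) (xi v (γ t))) (Icc 0 l) t := fun t ht =>
    (hdω (γ t)).comp_hasDerivWithinAt t (hγd t ht)
  have hrem := Pool.Agent.H2VL.len_mvt (γ := fun s => vort v (γ s))
    (N := fun t => fderiv ℝ (vort v) (γ t) (xi v (γ t))) (n := W)
    (c := 6 * G₁ * εa + 18 * G₂ * l) hl.le hder (fun t ht => by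
      have e : fderiv ℝ (vort v) (γ t) (xi v (γ t)) - W
          = fderiv ℝ (vort v) (γ t) (xi v (γ t) - xi v y)
            + (fderiv ℝ (vort v) (γ t) - fderiv ℝ (vort v) y) (xi v y) := by
        rw [hW, map_sub, _root_.sub_apply]
        abel
      rw [e]
      refine (Pool.Agent.H2VL.len_add_le _ _).trans ?_
      have h3 := lin_len _ (hb1 _ (hγm t ht)) (xi v (γ t) - xi v y)
      have h4 := lin_len _ (hb2 _ (hγm t ht)) (xi v y)
      rw [xi_len (hlo' y hyb)] at h4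
      have h5 : 2 * (3 * G₁) * len (xi v (γ t) - xi v y) ≤ 2 * (3 * G₁) * εa :=
        mul_le_mul_of_nonneg_left (hturn t ht) (by positivity)
      linarith)
  simp only [hγ0] at hrem
  obtain ⟨Rm, hRm⟩ : ∃ Rm, Rm = vort v (γ l) - vort v y - l • W := ⟨_, rfl⟩
  rw [← hRm] at hrem
  -- the curvature
  have hωξ : ∀ z ∈ closedBall y l, vort v z = om v z • xi v z := by
    intro z hz
    unfold xi
    rw [smul_smul, mul_inv_cancel₀ (hlo' z hz).ne', one_smul]
  have hcv : cv v y = len (crossProduct (xi v y) W) := by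
    unfold cv
    have e : crossProduct (vort v y) (fderiv ℝ (vort v) y (vort v y))
        = (om v y ^ 2) • crossProduct (xi v y) W := by
      rw [hW]
      conv_lhs => rw [hωξ y hyb]
      rw [map_smul, map_smul, LinearMap.smul_apply, map_smul, smul_smul, sq]
    rw [e, Pool.Agent.H2VL.len_smul, abs_of_pos (pow_pos (hlo' y hyb) 2)]
    exact mul_div_cancel_left₀ _ (pow_pos (hlo' y hyb) 2).ne'
  have hmain : l • crossProduct (xi v y) W = om v (γ l) • crossProduct (xi v y)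
      (xi v (γ l) - xi v y) - crossProduct (xi v y) Rm := by
    rw [hRm, hωξ (γ l) (hγm l ⟨hl.le, le_rfl⟩), hωξ y hyb]
    simp only [map_sub, map_smul, cross_self, smul_zero, sub_zero]
    abel
  have h3 : l * cv v y ≤ G₀ * εe + (6 * G₁ * εa + 18 * G₂ * l) * l := by
    have e : l * cv v y = len (l • crossProduct (xi v y) W) := by
      rw [Pool.Agent.H2VL.len_smul, abs_of_pos hl, hcv]
    rw [e, hmain, sub_eq_add_neg, ← neg_one_smul ℝ (crossProduct (xi v y) Rm)]
    refine (Pool.Agent.H2VL.len_add_le _ _).trans ?_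
    rw [Pool.Agent.H2VL.len_smul, Pool.Agent.H2VL.len_smul, abs_of_pos (hlo' _ (hγm l ⟨hl.le, le_rfl⟩))]
    have h4 := cross_len (xi v y) (xi v (γ l) - xi v y)
    have h5 := cross_len (xi v y) Rm
    rw [xi_len (hlo' y hyb), one_mul] at h4 h5
    have h6 : om v (γ l) * len (crossProduct (xi v y) (xi v (γ l) - xi v y)) ≤ G₀ * εe :=
      mul_le_mul (h0 _ (hγm l ⟨hl.le, le_rfl⟩)) (h4.trans hend) (Pool.Agent.H2CV.len_nn _)
        ((hlo' _ (hγm l ⟨hl.le, le_rfl⟩)).le.trans (h0 _ (hγm l ⟨hl.le, le_rfl⟩)))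
    have h7 : |(-1 : ℝ)| = 1 := by norm_num
    rw [h7, one_mul]
    linarith
  have h4 : cv v y ≤ (G₀ * εe + (6 * G₁ * εa + 18 * G₂ * l) * l) / l := by
    rw [le_div_iff₀ hl, mul_comm]
    exact h3
  have h5 : (G₀ * εe + (6 * G₁ * εa + 18 * G₂ * l) * l) / l
      = G₀ * εe / l + (6 * G₁ * εa + 18 * G₂ * l) := by
    field_simp
  linarith

/-- The curvature at a point with small turning. -/
lemma cv_pt {v : V → V} (hv : SM v) {y : V} {l m ε G₀ G₁ G₂ : ℝ} {D : Set V} (hl : 0 < l)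
    (hε : 0 ≤ ε) (hG₁ : 0 ≤ G₁) (hG₂ : 0 ≤ G₂) (hm : 0 < m)
    (hD : ∀ z ∈ closedBall y l, z ∈ D) (hlo : ∀ z ∈ closedBall y l, m < om v z)
    (h0 : ∀ z ∈ closedBall y l, om v z ≤ G₀)
    (h1 : ∀ z ∈ closedBall y l, ∀ i j, |pd j (vc v i) z| ≤ G₁)
    (h2 : ∀ z ∈ closedBall y l, ∀ i j k, |pd k (pd j (vc v i)) z| ≤ G₂)
    (hT : Turn v D ε) : cv v y ≤ G₀ * ε / l + (6 * G₁ * ε + 18 * G₂ * l) := by
  obtain ⟨γ, hγ0, hγd, hγm⟩ := vl_exists hv hl fun z hz => hm.trans (hlo z hz)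
  have hlo' : ∀ z ∈ closedBall y l, 0 < om v z := fun z hz => hm.trans (hlo z hz)
  -- the turning
  have hturn : ∀ s ∈ Icc 0 l, len (xi v (γ s) - xi v y) ≤ ε := by
    intro s hs
    rcases hs.1.eq_or_lt with h | h
    · rw [← h, hγ0, sub_self]
      have : len (0 : V) = 0 := by unfold len; simp
      rw [this]
      exact hε
    · refine hT y (γ s) s ⟨h, γ, hγ0, rfl, fun t ht => ⟨hD _ (hγm t), ?_⟩⟩
      exact (hγd t ⟨ht.1, ht.2.trans hs.2⟩).mono (Icc_subset_Icc_right hs.2)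
  exact cv_core hv hl hG₁ hG₂ hlo' h0 h1 h2 hγ0 hγd (fun s _ => hγm s) (hturn l ⟨hl.le, le_rfl⟩)
    hturn

lemma pd_sq_le {f : V → ℝ} {n : ℕ} {B : ℝ} {y : V} (h : SQ (n + 1) f y ≤ B) (j : Fin 3) :
    SQ n (pd j f) y ≤ B := by
  have h0 : ∀ (n : ℕ) (f : V → ℝ), 0 ≤ SQ n f y := by
    intro n
    induction n with
    | zero => intro f; exact sq_nonneg _
    | succ n ih => intro f; exact Finset.sum_nonneg fun i _ => ih _
  exact (Finset.single_le_sum (f := fun i => SQ n (pd i f) y) (fun i _ => h0 n _)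
    (Finset.mem_univ j)).trans h

/-- The bounds of the derivatives of the vorticity. -/
lemma der_bds {v : V → V} {r M : ℝ} {y : V} (hr : 0 < r) (hM : 1 ≤ M)
    (h : ∀ n ≤ 5, ∀ i j, r ^ (2 * n + 4) * SQ n (cur i j v) y ≤ M) :
    (∀ i, |vc v i y| ≤ √M / r ^ 2) ∧ (∀ i j, |pd j (vc v i) y| ≤ √M / r ^ 3) ∧
    (∀ i j k, |pd k (pd j (vc v i)) y| ≤ √M / r ^ 4) ∧
    ∀ i j k l, |pd l (pd k (pd j (vc v i))) y| ≤ √M / r ^ 5 := by
  have key : ∀ (n : ℕ) (a : ℝ), n ≤ 5 → ∀ i, (∀ B : ℝ, SQ n (vc v i) y ≤ B → a ^ 2 ≤ B) →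
      |a| ≤ √M / r ^ (n + 2) := by
    intro n a hn i ha
    have h1 : SQ n (vc v i) y ≤ M / r ^ (2 * n + 4) := by
      rw [le_div_iff₀ (by positivity), mul_comm]
      have := h n hn (Pool.Agent.Q129.VD3.aI i) (Pool.Agent.Q129.VD3.bI i)
      rw [vc_eq]
      exact this
    have h2 := ha _ h1
    have h3 : a ^ 2 ≤ (√M / r ^ (n + 2)) ^ 2 := by
      rw [div_pow, Real.sq_sqrt (by linarith), ← pow_mul]
      rwa [show (n + 2) * 2 = 2 * n + 4 by ring]
    exact abs_le_of_sq_le_sq h3 (by positivity)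
  refine ⟨fun i => ?_, fun i j => ?_, fun i j k => ?_, fun i j k l => ?_⟩
  · exact key 0 _ (by norm_num) i fun B hB => hB
  · exact key 1 _ (by norm_num) i fun B hB => pd_sq_le hB j
  · exact key 2 _ (by norm_num) i fun B hB => pd_sq_le (pd_sq_le hB j) k
  · exact key 3 _ (by norm_num) i fun B hB => pd_sq_le (pd_sq_le (pd_sq_le hB j) k) l

/-- The leak on a set of good points. -/
lemma fam_int {f : V → ℝ} (hf : ContDiff ℝ ∞ f) {m B lam W : ℝ} (hm : 0 < m) (hl : 0 < lam)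
    (hW0 : 0 ≤ W) (j : Fin 3) {A A' : Set V} (hA : MeasurableSet A)
    (hgood : ∀ y₀ ∈ A, ∀ z, ‖z - y₀‖ ≤ lam → |pd j (pd j (pd j f)) z| ≤ B)
    (hB3 : B * lam ^ 3 ≤ m) (hA' : ∀ y₀ ∈ A, ∀ z, ‖z - y₀‖ ≤ lam → z ∈ A')
    (hW : volume A' ≤ ENNReal.ofReal W) :
    ∫ y in A, lkd f m j y ≤ 8 * m * W / lam := by
  rw [integral_eq_lintegral_of_nonneg_ae (Eventually.of_forall fun y => lkd_nonneg _ _ _ _)
    (lkd_cont hf m j).measurable.aestronglyMeasurable]
  exact ENNReal.toReal_le_of_le_ofReal (by positivity) (fam hf hm hl j hA hgood hB3 hA' hW)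

/-- The good region of the shell. -/
lemma shell_reg {x : V} {g r s : ℝ} (hg : 0 < g) (hg1 : g ≤ 1 / 128) (hr : 0 < r)
    (hs2 : s ≤ r / 32) : ∀ y ∈ Shell x s (g * r / 2), ∀ z, ‖z - y‖ ≤ g / 4 * r →
      |‖z - x‖ - s| < g * r ∧ z ∈ closedBall x r := by
  have hgr : 0 < g * r := by positivity
  have hgr1 : g * r ≤ r / 128 := by nlinarith
  intro y hy z hz
  have hy1 : |‖y - x‖ - s| ≤ g * r / 2 := hy
  rw [abs_le] at hy1
  have h1 : ‖z - x‖ ≤ ‖z - y‖ + ‖y - x‖ := norm_sub_le_norm_sub_add_norm_sub _ _ _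
  have h2 : ‖y - x‖ ≤ ‖z - y‖ + ‖z - x‖ := by
    rw [norm_sub_rev z y]
    exact norm_sub_le_norm_sub_add_norm_sub _ _ _
  refine ⟨by rw [abs_lt]; constructor <;> linarith, ?_⟩
  rw [mem_closedBall, dist_eq_norm]
  linarith

set_option maxHeartbeats 1600000 in
/-- The integral of the curvature over the part of the shell where the vorticity is small. -/
lemma cv_weak {M g τ c r s : ℝ} {v : V → V} {x : V} (hM : 1 ≤ M) (hg : 0 < g) (hg1 : g ≤ 1 / 128)
    (hc : 0 < c) (hcg : c ≤ g / 4) (hcτ : 4608 * √M * c ≤ τ) (hv : SM v) (hr : 0 < r)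
    (hs2 : s ≤ r / 32)
    (hbd' : ∀ y, |‖y - x‖ - s| < g * r → ∀ n ≤ 5, ∀ i j, r ^ (2 * n + 4) * SQ n (cur i j v) y ≤ M) :
    ∫ y in Shell x s (g * r / 2) ∩ {y | om v y ≤ √M * c ^ 3 / r ^ 2}, cv v y ≤ τ / 2 := by
  obtain ⟨M1, hM1d⟩ : ∃ M1, M1 = √M := ⟨_, rfl⟩
  have hM1 : 1 ≤ M1 := by rw [hM1d]; exact Real.one_le_sqrt.2 hM
  have hM0 : 0 < M1 := by linarith
  rw [← hM1d] at hcτ ⊢
  have hτ : 0 < τ := lt_of_lt_of_le (by positivity) hcτ
  have hc1 : c ≤ 1 := by linarith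
  obtain ⟨m1, hm1d⟩ : ∃ m1, m1 = M1 * c ^ 3 / r ^ 2 := ⟨_, rfl⟩
  rw [← hm1d]
  have hm1 : 0 < m1 := by rw [hm1d]; positivity
  -- the good region
  have hgood : ∀ y, |‖y - x‖ - s| < g * r → (∀ i, |vc v i y| ≤ M1 / r ^ 2) ∧
      (∀ i j, |pd j (vc v i) y| ≤ M1 / r ^ 3) ∧ (∀ i j k, |pd k (pd j (vc v i)) y| ≤ M1 / r ^ 4) ∧
      ∀ i j k l, |pd l (pd k (pd j (vc v i))) y| ≤ M1 / r ^ 5 := by
    intro y hy
    rw [hM1d]
    exact der_bds hr hM (hbd' y hy)
  have hreg := shell_reg (x := x) hg hg1 hr hs2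
  have hvol : volume (closedBall x r) ≤ ENNReal.ofReal (8 * r ^ 3) := by
    rw [Real.volume_pi_closedBall x hr.le]
    refine ENNReal.ofReal_le_ofReal (le_of_eq ?_)
    simp
    ring
  have hShm : MeasurableSet (Shell x s (g * r / 2)) :=
    (isClosed_le (by fun_prop) continuous_const).measurableSet
  have hShK : Shell x s (g * r / 2) ⊆ closedBall x r := fun y hy =>
    (hreg y hy y (by rw [sub_self, norm_zero]; positivity)).2
  have hcvI : IntegrableOn (cv v) (Shell x s (g * r / 2)) :=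
    (cv_int hv (isCompact_closedBall x r)).mono_set hShK
  have hmeas : MeasurableSet {y | om v y ≤ m1} :=
    (isClosed_le (om_cont' hv) continuous_const).measurableSet
  -- the weak part
  have hlkI : IntegrableOn (fun y => ∑ i, ∑ j, lkd (vc v i) m1 j y) (Shell x s (g * r / 2)) :=
    (lks_int hv m1 x r).mono_set hShK
  have hlkIj : ∀ i j, IntegrableOn (lkd (vc v i) m1 j) (Shell x s (g * r / 2)) := fun i j =>
    ((lkd_cont (sm_vc hv i) m1 j).continuousOn.integrableOn_compact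
      (isCompact_closedBall x r)).mono_set hShK
  have h1 : ∫ y in Shell x s (g * r / 2) ∩ {y | om v y ≤ m1}, cv v y
      ≤ ∫ y in Shell x s (g * r / 2) ∩ {y | om v y ≤ m1},
        4 * ∑ i, ∑ j, lkd (vc v i) m1 j y := by
    refine setIntegral_mono_on (hcvI.mono_set inter_subset_left)
      ((hlkI.mono_set inter_subset_left).const_mul 4) (hShm.inter hmeas) fun y hy => ?_
    have h1 := grad_lkd (k := 1) hm1 (y := y) (v := v) (by
      rw [one_mul]
      exact hy.2)
    have h2 := fd_le hv y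
    have h3 := cv_le v y
    norm_num at h1
    linarith
  have h2 : ∫ y in Shell x s (g * r / 2) ∩ {y | om v y ≤ m1},
      4 * ∑ i, ∑ j, lkd (vc v i) m1 j y ≤ ∫ y in Shell x s (g * r / 2),
        4 * ∑ i, ∑ j, lkd (vc v i) m1 j y :=
    setIntegral_mono_set (hlkI.const_mul 4)
      (Eventually.of_forall fun y => mul_nonneg (by norm_num) (lks_nn v m1 y))
      inter_subset_left.eventuallyLE
  have h3 : ∫ y in Shell x s (g * r / 2), 4 * ∑ i, ∑ j, lkd (vc v i) m1 j y
      = 4 * ∑ i, ∑ j, ∫ y in Shell x s (g * r / 2), lkd (vc v i) m1 j y := by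
    rw [integral_const_mul, integral_finsetSum _ fun i _ =>
      integrable_finsetSum _ fun j _ => hlkIj i j]
    congr 1
    exact Finset.sum_congr rfl fun i _ => integral_finsetSum _ fun j _ => hlkIj i j
  have h4 : ∀ i j, ∫ y in Shell x s (g * r / 2), lkd (vc v i) m1 j y ≤ 64 * M1 * c ^ 2 := by
    intro i j
    have h5 := fam_int (sm_vc hv i) (m := m1) (B := M1 / r ^ 5) (lam := c * r)
      (W := 8 * r ^ 3) hm1 (by positivity) (by positivity) j hShm
      (fun y₀ hy₀ z hz => (hgood z (hreg y₀ hy₀ z (by nlinarith)).1).2.2.2 i j j j)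
      (by rw [hm1d]; apply le_of_eq; field_simp)
      (fun y₀ hy₀ z hz => (hreg y₀ hy₀ z (by nlinarith)).2) hvol
    refine h5.trans (le_of_eq ?_)
    rw [hm1d]
    field_simp
    ring
  have h5 : ∑ i : Fin 3, ∑ j : Fin 3, ∫ y in Shell x s (g * r / 2), lkd (vc v i) m1 j y
      ≤ ∑ _i : Fin 3, ∑ _j : Fin 3, 64 * M1 * c ^ 2 :=
    Finset.sum_le_sum fun i _ => Finset.sum_le_sum fun j _ => h4 i j
  have h6 : ∑ _i : Fin 3, ∑ _j : Fin 3, 64 * M1 * c ^ 2 = 576 * (M1 * c ^ 2) := by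
    simp
    ring
  have h7 : M1 * c ^ 2 ≤ M1 * c :=
    mul_le_mul_of_nonneg_left (pow_le_of_le_one hc.le hc1 two_ne_zero) hM0.le
  linarith

set_option maxHeartbeats 1600000 in
/-- The integral of the curvature over the shell, from a bound where the vorticity is not small. -/
lemma cv_gen {M g τ c r s : ℝ} {v : V → V} {x : V} (hM : 1 ≤ M) (hg : 0 < g) (hg1 : g ≤ 1 / 128)
    (hc : 0 < c) (hcg : c ≤ g / 4) (hcτ : 4608 * √M * c ≤ τ) (hv : SM v) (hr : 0 < r)
    (hs2 : s ≤ r / 32)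
    (hbd' : ∀ y, |‖y - x‖ - s| < g * r → ∀ n ≤ 5, ∀ i j, r ^ (2 * n + 4) * SQ n (cur i j v) y ≤ M)
    (hstrong : ∀ y ∈ Shell x s (g * r / 2), √M * c ^ 3 / r ^ 2 < om v y →
      cv v y ≤ τ / 2 / (8 * r ^ 3)) :
    ∫ y in Shell x s (g * r / 2), cv v y ≤ τ := by
  have hweak := cv_weak hM hg hg1 hc hcg hcτ hv hr hs2 hbd'
  have hM0 : 0 < √M := Real.sqrt_pos.2 (by linarith)
  have hτ : 0 < τ := lt_of_lt_of_le (by positivity) hcτ
  obtain ⟨m1, hm1d⟩ : ∃ m1, m1 = √M * c ^ 3 / r ^ 2 := ⟨_, rfl⟩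
  rw [← hm1d] at hstrong hweak
  have hreg := shell_reg (x := x) hg hg1 hr hs2
  have hvol : volume (closedBall x r) ≤ ENNReal.ofReal (8 * r ^ 3) := by
    rw [Real.volume_pi_closedBall x hr.le]
    refine ENNReal.ofReal_le_ofReal (le_of_eq ?_)
    simp
    ring
  have hShm : MeasurableSet (Shell x s (g * r / 2)) :=
    (isClosed_le (by fun_prop) continuous_const).measurableSet
  have hShK : Shell x s (g * r / 2) ⊆ closedBall x r := fun y hy =>
    (hreg y hy y (by rw [sub_self, norm_zero]; positivity)).2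
  have hcvI : IntegrableOn (cv v) (Shell x s (g * r / 2)) :=
    (cv_int hv (isCompact_closedBall x r)).mono_set hShK
  have hmeas : MeasurableSet {y | om v y ≤ m1} :=
    (isClosed_le (om_cont' hv) continuous_const).measurableSet
  rw [← integral_inter_add_sdiff hmeas hcvI]
  have hstrong : ∀ y ∈ Shell x s (g * r / 2) \ {y | om v y ≤ m1},
      cv v y ≤ τ / 2 / (8 * r ^ 3) := fun y hy => hstrong y hy.1 (not_le.1 hy.2)
  have hstr : ∫ y in Shell x s (g * r / 2) \ {y | om v y ≤ m1}, cv v y ≤ τ / 2 := by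
    have hfin : volume (Shell x s (g * r / 2) \ {y | om v y ≤ m1}) ≤ ENNReal.ofReal (8 * r ^ 3) :=
      (measure_mono (sdiff_subset.trans hShK)).trans hvol
    have h1 : ∫ y in Shell x s (g * r / 2) \ {y | om v y ≤ m1}, cv v y
        ≤ ∫ _y in Shell x s (g * r / 2) \ {y | om v y ≤ m1}, τ / 2 / (8 * r ^ 3) := by
      refine setIntegral_mono_on (hcvI.mono_set sdiff_subset) ?_ (hShm.diff hmeas) hstrong
      exact integrableOn_const (hfin.trans_lt ENNReal.ofReal_lt_top).ne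
    rw [setIntegral_const, smul_eq_mul] at h1
    have h2 : volume.real (Shell x s (g * r / 2) \ {y | om v y ≤ m1}) ≤ 8 * r ^ 3 :=
      ENNReal.toReal_le_of_le_ofReal (by positivity) hfin
    have h3 : volume.real (Shell x s (g * r / 2) \ {y | om v y ≤ m1}) * (τ / 2 / (8 * r ^ 3))
        ≤ 8 * r ^ 3 * (τ / 2 / (8 * r ^ 3)) := mul_le_mul_of_nonneg_right h2 (by positivity)
    have h4 : 8 * r ^ 3 * (τ / 2 / (8 * r ^ 3)) = τ / 2 := by field_simp
    linarith
  linarith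

set_option maxHeartbeats 1600000 in
theorem cvM : StmCvM := by
  intro M g τ hM hg hg1 hτ
  obtain ⟨M1, hM1d⟩ : ∃ M1, M1 = √M := ⟨_, rfl⟩
  have hM1 : 1 ≤ M1 := by rw [hM1d]; exact Real.one_le_sqrt.2 hM
  have hM0 : 0 < M1 := by linarith
  obtain ⟨c, hcd⟩ : ∃ c, c = min (g / 4) (τ / (4608 * M1)) := ⟨_, rfl⟩
  have hc : 0 < c := by rw [hcd]; exact lt_min (by positivity) (by positivity)
  have hcg : c ≤ g / 4 := by rw [hcd]; exact min_le_left _ _
  have hcτ : 4608 * M1 * c ≤ τ := by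
    have : c ≤ τ / (4608 * M1) := by rw [hcd]; exact min_le_right _ _
    rwa [le_div_iff₀ (by positivity), mul_comm] at this
  have hc1 : c ≤ 1 := by linarith
  obtain ⟨b, hbd⟩ : ∃ b, b = min (min (g / 4) (c ^ 3 / 12)) (τ / (576 * M1)) := ⟨_, rfl⟩
  have hb : 0 < b := by
    rw [hbd]
    exact lt_min (lt_min (by positivity) (by positivity)) (by positivity)
  have hbg : b ≤ g / 4 := by rw [hbd]; exact (min_le_left _ _).trans (min_le_left _ _)
  have hbc : b ≤ c ^ 3 / 12 := by rw [hbd]; exact (min_le_left _ _).trans (min_le_right _ _)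
  have hbτ : 576 * M1 * b ≤ τ := by
    have : b ≤ τ / (576 * M1) := by rw [hbd]; exact min_le_right _ _
    rwa [le_div_iff₀ (by positivity), mul_comm] at this
  have hb1 : b ≤ 1 := by linarith
  refine ⟨τ * b / (256 * M1), M1 * c ^ 3 / 4, by positivity, by positivity, ?_⟩
  intro v x r s m hv hr hm hmr hs1 hs2 hbd' hT
  obtain ⟨ε, hεd⟩ : ∃ ε, ε = τ * b / (256 * M1) := ⟨_, rfl⟩
  rw [← hεd] at hT
  have hε : 0 < ε := by rw [hεd]; positivity
  have hs : 0 < s := by linarith [div_pos hr (by norm_num : (0 : ℝ) < 64)]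
  obtain ⟨m1, hm1d⟩ : ∃ m1, m1 = M1 * c ^ 3 / r ^ 2 := ⟨_, rfl⟩
  have hm1 : 0 < m1 := by rw [hm1d]; positivity
  have hmm1 : m ≤ m1 / 4 := by
    rw [hm1d, div_div, le_div_iff₀ (by positivity)]
    linarith
  -- the good region
  have hgood : ∀ y, |‖y - x‖ - s| < g * r → (∀ i, |vc v i y| ≤ M1 / r ^ 2) ∧
      (∀ i j, |pd j (vc v i) y| ≤ M1 / r ^ 3) ∧ (∀ i j k, |pd k (pd j (vc v i)) y| ≤ M1 / r ^ 4) ∧
      ∀ i j k l, |pd l (pd k (pd j (vc v i))) y| ≤ M1 / r ^ 5 := by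
    intro y hy
    rw [hM1d]
    exact der_bds hr hM (hbd' y hy)
  have hreg := shell_reg (x := x) hg hg1 hr hs2
  refine cv_gen hM hg hg1 hc hcg (by rw [← hM1d]; exact hcτ) hv hr hs2 hbd' ?_
  rw [← hM1d, ← hm1d]
  -- the strong part
  have hstrong : ∀ y ∈ Shell x s (g * r / 2), m1 < om v y → cv v y ≤ τ / 2 / (8 * r ^ 3) := by
    intro y hy hy2
    have hl : 0 < b * r := by positivity
    have hin : ∀ z ∈ closedBall y (b * r), |‖z - x‖ - s| < g * r ∧ z ∈ closedBall x r := by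
      intro z hz
      rw [mem_closedBall, dist_eq_norm] at hz
      exact hreg y hy z (by nlinarith)
    have hyb : y ∈ closedBall y (b * r) := mem_closedBall_self hl.le
    have hlo : ∀ z ∈ closedBall y (b * r), m < om v z := by
      intro z hz
      have h1 : ‖vort v z - vort v y‖ ≤ 3 * (M1 / r ^ 3) * (b * r) := by
        rw [pi_norm_le_iff_of_nonneg (by positivity)]
        intro i
        rw [Pi.sub_apply, Real.norm_eq_abs]
        have h2 := mv_le (f := vc v i) ((sm_vc hv i).of_le (by norm_cast))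
          (convex_closedBall y (b * r)) (G := M1 / r ^ 3)
          (fun w hw k => (hgood w (hin w hw).1).2.1 i k) hyb hz
        refine h2.trans ?_
        rw [mem_closedBall, dist_eq_norm] at hz
        exact mul_le_mul_of_nonneg_left hz (by positivity)
      have h2 := len_le2 (vort v z - vort v y)
      have h3 := Pool.Agent.H2VL.len_add_le (vort v y - vort v z) (vort v z)
      rw [sub_add_cancel, Pool.Agent.H2VL.len_sub_comm] at h3
      have h4 : 2 * (3 * (M1 / r ^ 3) * (b * r)) ≤ m1 / 2 := by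
        rw [hm1d]
        have e1 : 2 * (3 * (M1 / r ^ 3) * (b * r)) = 6 * M1 * b / r ^ 2 := by field_simp; ring
        have e2 : M1 * c ^ 3 / r ^ 2 / 2 = (M1 * c ^ 3 / 2) / r ^ 2 := by field_simp
        rw [e1, e2]
        refine div_le_div_of_nonneg_right ?_ (by positivity)
        have := mul_le_mul_of_nonneg_left hbc hM0.le
        linarith
      have h5 : om v y ≤ len (vort v z - vort v y) + om v z := h3
      linarith
    have h1 := cv_pt hv (D := Dm v x r m) (G₀ := 2 * (M1 / r ^ 2)) (G₁ := M1 / r ^ 3)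
      (G₂ := M1 / r ^ 4) hl hε.le (by positivity) (by positivity) hm
      (fun z hz => ⟨by
        have := (hin z hz).2
        rwa [mem_closedBall, dist_eq_norm] at this, hlo z hz⟩) hlo (fun z hz => by
        have h2 := len_le2 (vort v z)
        have h3 : ‖vort v z‖ ≤ M1 / r ^ 2 := by
          rw [pi_norm_le_iff_of_nonneg (by positivity)]
          intro i
          exact (hgood z (hin z hz).1).1 i
        have h4 : om v z = len (vort v z) := rfl
        linarith) (fun z hz => (hgood z (hin z hz).1).2.1)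
      (fun z hz => (hgood z (hin z hz).1).2.2.1) hT
    refine h1.trans ?_
    rw [le_div_iff₀ (by positivity)]
    have e1 : (2 * (M1 / r ^ 2) * ε / (b * r) + (6 * (M1 / r ^ 3) * ε + 18 * (M1 / r ^ 4) * (b * r)))
        * (8 * r ^ 3) = 16 * M1 * ε / b + 48 * M1 * ε + 144 * M1 * b := by
      field_simp
      ring
    rw [e1]
    have e2 : M1 * ε / b = τ / 256 := by
      rw [hεd]
      field_simp
    have e3 : M1 * ε ≤ M1 * ε / b := by
      rw [le_div_iff₀ hb]
      exact mul_le_of_le_one_right (by positivity) hb1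
    have e4 : 16 * M1 * ε / b = 16 * (M1 * ε / b) := by ring
    rw [e4]
    linarith
  exact hstrong

end Pool.Agent.H1TV
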