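import Pool.Agent.H1TV.Defs

/-!
Project TV: the statements of the parts for a general property `P v D ε` of the vortex lines of `v`
in `D`.
-/

set_option autoImplicit false

open MeasureTheory Set Metric
open scoped ContDiff
open H459R3.NS Pool.Agent.W268.NS Pool.Agent.Q67.VD

namespace Pool.Agent.H1TV

open Pool.Agent.Q85.CC Pool.Agent.Q85.CL Pool.Agent.Q85.VL Pool.Agent.H2CV

/-- The arcs of the vortex lines inside of `D` are nearly straight: their length is at most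
`(1 - ε)⁻¹` times the distance of the end points. -/
def Str (v : V → V) (D : Set V) (ε : ℝ) : Prop :=
  ∀ p q l, Arc (vort v) D p q l → (1 - ε) * l ≤ len (q - p)

/-- Monotone properties. -/
def PMono (P : (V → V) → Set V → ℝ → Prop) : Prop :=
  ∀ v D D' ε ε', P v D ε → D' ⊆ D → ε ≤ ε' → P v D' ε'

/-- TV-MOR. The Morrey bound at one time. -/
def StmMorP (P : (V → V) → Set V → ℝ → Prop) : Prop := ∃ C ε₀ : ℝ, 1 ≤ C ∧ 0 < ε₀ ∧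
  ∀ (v : V → V) (x : V) (r R m : ℝ), SM v →
  0 < m → 0 < r → r ≤ R / 8 → P v (Dm v x R m) ε₀ → ∫ y in closedBall x r, om v y
    ≤ C * ((∫ y in closedBall x R, om v y) / R + Lk v m x R + m * R ^ 2) * r

/-- TV-PIN. The pinching lemma. -/
def StmPinP (P : (V → V) → Set V → ℝ → Prop) : Prop := ∃ c : ℝ, 0 < c ∧ c ≤ 1 ∧
  ∀ K η τ : ℝ, 0 ≤ K → 0 < η → η ≤ 1 → 0 < τ →
  τ ≤ 1 → ∃ (N : ℕ) (ε : ℝ), 0 < ε ∧ ∀ (v : V → V) (x : V) (R ρ m : ℝ), SM v → 0 < R → 0 < m →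
    P v (Dm v x R m) ε → Lk v m x R ≤ c * η → m * R ^ 2 ≤ c * η * τ →
    ∫ y in closedBall x R, om v y ≤ K * R →
    0 < ρ → ρ ≤ (1 / 256) ^ N * R → η * ρ ≤ ∫ y in closedBall x ρ, om v y →
      ∃ k < N,
        ∫ y in closedBall x ((1 / 256) ^ k * (R / 4) / 16) \
            ball x ((1 / 256) ^ k * (R / 4) / 128),
          len (crossProduct (y - x) (vort v y)) ^ 2 / om v y
            ≤ τ * ((1 / 256) ^ k * (R / 4)) ^ 3 ∧
        ∀ s w : ℝ, (1 / 256) ^ k * (R / 4) / 64 ≤ s → s ≤ (1 / 256) ^ k * (R / 4) / 32 →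
          0 < w → w ≤ s / 4 → c * η * w ≤ ∫ y in Shell x s w, om v y

/-- TV-CV. On a good shell the curvature is small. -/
def StmCvP (P : (V → V) → Set V → ℝ → Prop) : Prop := ∀ M g τ : ℝ, 1 ≤ M → 0 < g → g ≤ 1 / 128 →
  0 < τ → ∃ ε δ : ℝ, 0 < ε ∧ 0 < δ ∧
  ∀ (v : V → V) (x : V) (r s m : ℝ), SM v → 0 < r → 0 < m → m * r ^ 2 ≤ δ → r / 64 ≤ s →
    s ≤ r / 32 →
    (∀ y, |‖y - x‖ - s| < g * r → ∀ n ≤ 5, ∀ i j, r ^ (2 * n + 4) * SQ n (cur i j v) y ≤ M) →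
    P v (Dm v x r m) ε → ∫ y in Shell x s (g * r / 2), cv v y ≤ τ

/-- TV-LOC. The local theorem (viscosity one). -/
def StmTvP (P : (V → V) → Set V → ℝ → Prop) : Prop :=
  ∀ (T E : ℝ) (O : Set V) (u : ℝ → V → V) (p : ℝ → V → ℝ), 0 < T →
  LSl T E O u p → ∀ a ∈ O, (∀ ε : ℝ, 0 < ε → ∃ m T₀ R : ℝ, 0 < m ∧ T₀ < T ∧ 0 < R ∧
    ∀ t ∈ Ioo T₀ T, 0 < t → P (u t) (Dm (u t) a R m) ε) →
    ∃ B δ : ℝ, 0 < δ ∧ ∀ t ∈ Ioo (T - δ) T, 0 < t → ∀ x ∈ closedBall a δ, ‖u t x‖ ≤ B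

end Pool.Agent.H1TV
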