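import Pool.Agent.H1TV.CvM
import Pool.Agent.H1TV.DefsP

/-!
Project TV: on a good shell the curvature is small if the arcs are nearly straight.
-/

set_option autoImplicit false

open MeasureTheory Set Metric Filter Topology
open scoped ContDiff ENNReal NNReal
open H459R3.NS Pool.Agent.W268.NS Pool.Agent.Q67.VD

namespace Pool.Agent.H1TV

open Pool.Agent.Q85.CC Pool.Agent.Q85.CL Pool.Agent.Q85.VL Pool.Agent.H2CV

/-- The direction is Lipschitz where the vorticity is not small. -/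
lemma xi_lip {v : V → V} {y z : V} {m B : ℝ} (hm : 0 < m) (hy : m ≤ om v y) (hz : 0 < om v z)
    (h : len (vort v z - vort v y) ≤ B) : len (xi v z - xi v y) ≤ 2 * B / m := by
  have hB : 0 ≤ B := (Pool.Agent.H2CV.len_nn _).trans h
  have hy0 : 0 < om v y := hm.trans_le hy
  have e : xi v z - xi v y = ((om v z)⁻¹ - (om v y)⁻¹) • vort v z
      + (om v y)⁻¹ • (vort v z - vort v y) := by
    unfold xi
    rw [sub_smul, smul_sub]
    abel
  rw [e]
  refine (Pool.Agent.H2VL.len_add_le _ _).trans ?_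
  rw [Pool.Agent.H2VL.len_smul, Pool.Agent.H2VL.len_smul, abs_of_pos (inv_pos.2 hy0)]
  have h1 : |(om v z)⁻¹ - (om v y)⁻¹| * len (vort v z) = |om v y - om v z| / om v y := by
    have e2 : (om v z)⁻¹ - (om v y)⁻¹ = (om v y - om v z) / (om v z * om v y) := by
      field_simp
    have e3 : len (vort v z) = om v z := rfl
    rw [e2, abs_div, abs_of_pos (mul_pos hz hy0), e3]
    field_simp
  have h2 : |om v y - om v z| ≤ B := by
    have h3 := Pool.Agent.H2VL.len_add_le (vort v z - vort v y) (vort v y)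
    have h4 := Pool.Agent.H2VL.len_add_le (vort v y - vort v z) (vort v z)
    rw [sub_add_cancel] at h3 h4
    rw [Pool.Agent.H2VL.len_sub_comm (vort v y) (vort v z)] at h4
    have e1 : len (vort v z) = om v z := rfl
    have e2 : len (vort v y) = om v y := rfl
    rw [abs_le]
    constructor <;> linarith
  rw [h1]
  have h5 : |om v y - om v z| / om v y ≤ B / m := div_le_div₀ hB h2 hm hy
  have h6 : (om v y)⁻¹ * len (vort v z - vort v y) ≤ B / m := by
    rw [inv_mul_eq_div]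
    exact div_le_div₀ hB h hm hy
  have e4 : 2 * B / m = B / m + B / m := by ring
  linarith

/-- A piece of a nearly straight curve has nearly the direction of the chord. -/
lemma piece {l s ε : ℝ} {u e : V} (hs : 0 < s) (he : e ⬝ᵥ e = 1)
    (hu : len u ≤ s) (h : s - ε * l ≤ e ⬝ᵥ u) :
    len (s⁻¹ • u - e) ≤ √(2 * (ε * l / s)) := by
  refine Real.le_sqrt_of_sq_le ?_
  rw [Pool.Agent.H2VL.len_sq, sub_dotProduct, dotProduct_sub, dotProduct_sub, smul_dotProduct,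
    dotProduct_smul, smul_dotProduct, dotProduct_smul, dotProduct_comm u e, he,
    ← Pool.Agent.H2VL.len_sq]
  simp only [smul_eq_mul]
  have h1 : len u ^ 2 ≤ s ^ 2 := pow_le_pow_left₀ (Pool.Agent.H2CV.len_nn _) hu 2
  have h2 : s⁻¹ * (s⁻¹ * len u ^ 2) ≤ 1 := by
    rw [← mul_assoc, ← mul_inv, ← sq, inv_mul_le_iff₀ (by positivity), mul_one]
    exact h1
  have h3 : 1 - ε * l / s ≤ s⁻¹ * (e ⬝ᵥ u) := by
    rw [inv_mul_eq_div, le_div_iff₀ hs]
    have : (1 - ε * l / s) * s = s - ε * l := by field_simp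
    linarith
  linarith

/-- The mean value inequality on an interval. -/
lemma len_mvt' {γ N : ℝ → V} {n : V} {a b c : ℝ} (hab : a ≤ b)
    (hγ : ∀ t ∈ Icc a b, HasDerivWithinAt γ (N t) (Icc a b) t)
    (hN : ∀ t ∈ Icc a b, len (N t - n) ≤ c) : len (γ b - γ a - (b - a) • n) ≤ c * (b - a) := by
  have h1 := Pool.Agent.H2VL.len_mvt (γ := fun t => γ (t + a)) (N := fun t => N (t + a)) (n := n)
    (s := b - a) (c := c) (by linarith) (fun t ht => by
      have h2 := hγ (t + a) ⟨by linarith [ht.1], by linarith [ht.2]⟩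
      have h3 : HasDerivWithinAt (fun s : ℝ => s + a) 1 (Icc 0 (b - a)) t :=
        ((hasDerivAt_id t).add_const a).hasDerivWithinAt
      have h5 : MapsTo (fun s : ℝ => s + a) (Icc 0 (b - a)) (Icc a b) := fun s hs =>
        ⟨by linarith [hs.1], by linarith [hs.2]⟩
      have h4 := HasDerivWithinAt.scomp t h2 h3 h5
      rwa [one_smul] at h4) (fun t ht => hN (t + a) ⟨by linarith [ht.1], by linarith [ht.2]⟩)
  simp only [sub_add_cancel, zero_add] at h1
  exact h1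

/-- The directions at the two ends of a nearly straight arc. -/
lemma ends {g N : ℝ → V} {l s ε κ : ℝ} (hs : 0 < s) (hsl : 2 * s ≤ l) (hε : ε < 1)
    (hg : ∀ t ∈ Icc 0 l, HasDerivWithinAt g (N t) (Icc 0 l) t)
    (hN : ∀ t ∈ Icc 0 l, len (N t) ≤ 1)
    (hκ : ∀ t ∈ Icc 0 l, ∀ t' ∈ Icc 0 l, |t - t'| ≤ s → len (N t - N t') ≤ κ)
    (hch : (1 - ε) * l ≤ len (g l - g 0)) :
    len (N l - N 0) ≤ 2 * (κ + √(2 * (ε * l / s))) := by
  have hl : 0 < l := by linarith
  have hc : 0 < len (g l - g 0) := lt_of_lt_of_le (mul_pos (by linarith) hl) hch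
  obtain ⟨e, he⟩ : ∃ e, e = (len (g l - g 0))⁻¹ • (g l - g 0) := ⟨_, rfl⟩
  have hee : e ⬝ᵥ e = 1 := by
    rw [he, smul_dotProduct, dotProduct_smul, ← Pool.Agent.H2VL.len_sq]
    simp only [smul_eq_mul]
    field_simp
  have hle : len e = 1 := by
    have h1 := Pool.Agent.H2VL.len_sq e
    rw [hee] at h1
    have h2 := Pool.Agent.H2CV.len_nn e
    nlinarith
  have hech : e ⬝ᵥ (g l - g 0) = len (g l - g 0) := by
    rw [he, smul_dotProduct, ← Pool.Agent.H2VL.len_sq, smul_eq_mul, sq]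
    field_simp
  have hlen : ∀ a b : ℝ, 0 ≤ a → a ≤ b → b ≤ l → len (g b - g a) ≤ b - a := by
    intro a b ha hab hb
    have h1 := len_mvt' (γ := g) (N := N) (n := 0) (c := 1) hab
      (fun t ht => (hg t ⟨ha.trans ht.1, ht.2.trans hb⟩).mono (Icc_subset_Icc ha hb))
      (fun t ht => by rw [sub_zero]; exact hN t ⟨ha.trans ht.1, ht.2.trans hb⟩)
    rwa [smul_zero, sub_zero, one_mul] at h1
  have hdot : ∀ w : V, e ⬝ᵥ w ≤ len w := fun w => by
    have := Pool.Agent.H2VL.dot_le e w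
    rwa [hle, one_mul] at this
  have h1 := hlen 0 s le_rfl hs.le (by linarith)
  have h2 := hlen s (l - s) hs.le (by linarith) (by linarith)
  have h3 := hlen (l - s) l (by linarith) (by linarith) le_rfl
  have hsum : e ⬝ᵥ (g s - g 0) + e ⬝ᵥ (g (l - s) - g s) + e ⬝ᵥ (g l - g (l - s))
      = len (g l - g 0) := by
    rw [← dotProduct_add, ← dotProduct_add, ← hech]
    congr 1
    abel
  have d1 := hdot (g s - g 0)
  have d2 := hdot (g (l - s) - g s)
  have d3 := hdot (g l - g (l - s))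
  have p1 := piece (l := l) (ε := ε) (u := g s - g 0) hs hee (by linarith) (by linarith)
  have p2 := piece (l := l) (ε := ε) (u := g l - g (l - s)) hs hee (by linarith) (by linarith)
  -- the directions
  have q1 : len (s⁻¹ • (g s - g 0) - N 0) ≤ κ := by
    have h4 := len_mvt' (γ := g) (N := N) (n := N 0) (c := κ) (a := 0) (b := s) hs.le
      (fun t ht => (hg t ⟨ht.1, by linarith [ht.2]⟩).mono (Icc_subset_Icc_right (by linarith)))
      (fun t ht => hκ t ⟨ht.1, by linarith [ht.2]⟩ 0 ⟨le_rfl, hl.le⟩ (by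
        rw [sub_zero, abs_of_nonneg ht.1]
        exact ht.2))
    rw [sub_zero] at h4
    have e1 : s⁻¹ • (g s - g 0) - N 0 = s⁻¹ • (g s - g 0 - s • N 0) := by
      rw [smul_sub s⁻¹ (g s - g 0), smul_smul, inv_mul_cancel₀ hs.ne', one_smul]
    rw [e1, Pool.Agent.H2VL.len_smul, abs_of_pos (inv_pos.2 hs), inv_mul_le_iff₀ hs]
    linarith
  have q2 : len (s⁻¹ • (g l - g (l - s)) - N l) ≤ κ := by
    have h4 := len_mvt' (γ := g) (N := N) (n := N l) (c := κ) (a := l - s) (b := l) (by linarith)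
      (fun t ht => (hg t ⟨by linarith [ht.1], ht.2⟩).mono (Icc_subset_Icc_left (by linarith)))
      (fun t ht => hκ t ⟨by linarith [ht.1], ht.2⟩ l ⟨hl.le, le_rfl⟩ (by
        rw [abs_sub_comm, abs_of_nonneg (by linarith [ht.2])]
        linarith [ht.1]))
    rw [sub_sub_cancel] at h4
    have e1 : s⁻¹ • (g l - g (l - s)) - N l = s⁻¹ • (g l - g (l - s) - s • N l) := by
      rw [smul_sub s⁻¹ (g l - g (l - s)), smul_smul, inv_mul_cancel₀ hs.ne', one_smul]
    rw [e1, Pool.Agent.H2VL.len_smul, abs_of_pos (inv_pos.2 hs), inv_mul_le_iff₀ hs]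
    linarith
  have t1 : len (N l - e) ≤ κ + √(2 * (ε * l / s)) := by
    have e1 : N l - e = (N l - s⁻¹ • (g l - g (l - s))) + (s⁻¹ • (g l - g (l - s)) - e) := by abel
    rw [e1]
    refine (Pool.Agent.H2VL.len_add_le _ _).trans ?_
    rw [Pool.Agent.H2VL.len_sub_comm (N l)]
    linarith
  have t2 : len (e - N 0) ≤ κ + √(2 * (ε * l / s)) := by
    have e1 : e - N 0 = (e - s⁻¹ • (g s - g 0)) + (s⁻¹ • (g s - g 0) - N 0) := by abel
    rw [e1]
    refine (Pool.Agent.H2VL.len_add_le _ _).trans ?_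
    rw [Pool.Agent.H2VL.len_sub_comm e]
    linarith
  have e1 : N l - N 0 = (N l - e) + (e - N 0) := by abel
  rw [e1]
  refine (Pool.Agent.H2VL.len_add_le _ _).trans ?_
  linarith

/-- The vorticity near a point where it is not small. -/
lemma om_low {v : V → V} (hv : SM v) {y : V} {M1 c b r : ℝ} (hM0 : 0 < M1) (hr : 0 < r)
    (hbc : b ≤ c ^ 3 / 12)
    (h1 : ∀ z ∈ closedBall y (b * r), ∀ i j, |pd j (vc v i) z| ≤ M1 / r ^ 3)
    (hy : M1 * c ^ 3 / r ^ 2 < om v y) :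
    (∀ z ∈ closedBall y (b * r), ∀ z' ∈ closedBall y (b * r),
      len (vort v z - vort v z') ≤ 6 * (M1 / r ^ 3) * ‖z - z'‖) ∧
    ∀ z ∈ closedBall y (b * r), M1 * c ^ 3 / r ^ 2 / 2 ≤ om v z := by
  have hdist : ∀ z ∈ closedBall y (b * r), ∀ z' ∈ closedBall y (b * r),
      len (vort v z - vort v z') ≤ 6 * (M1 / r ^ 3) * ‖z - z'‖ := by
    intro z hz z' hz'
    have h2 : ‖vort v z - vort v z'‖ ≤ 3 * (M1 / r ^ 3) * ‖z - z'‖ := by
      rw [pi_norm_le_iff_of_nonneg (by positivity)]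
      intro i
      rw [Pi.sub_apply, Real.norm_eq_abs]
      exact mv_le (f := vc v i) ((sm_vc hv i).of_le (by norm_cast))
        (convex_closedBall y (b * r)) (G := M1 / r ^ 3) (fun w hw k => h1 w hw i k) hz' hz
    have h3 := len_le2 (vort v z - vort v z')
    linarith
  refine ⟨hdist, fun z hz => ?_⟩
  have hyb : y ∈ closedBall y (b * r) := by
    rw [mem_closedBall, dist_self]
    exact dist_nonneg.trans (mem_closedBall.1 hz)
  have h2 := hdist z hz y hyb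
  have h3 := Pool.Agent.H2VL.len_add_le (vort v y - vort v z) (vort v z)
  rw [sub_add_cancel, Pool.Agent.H2VL.len_sub_comm] at h3
  have h4 : 6 * (M1 / r ^ 3) * ‖z - y‖ ≤ M1 * c ^ 3 / r ^ 2 / 2 := by
    rw [mem_closedBall, dist_eq_norm] at hz
    have h5 : 6 * (M1 / r ^ 3) * ‖z - y‖ ≤ 6 * (M1 / r ^ 3) * (b * r) :=
      mul_le_mul_of_nonneg_left hz (by positivity)
    refine h5.trans ?_
    have e1 : 6 * (M1 / r ^ 3) * (b * r) = 6 * M1 * b / r ^ 2 := by field_simp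
    have e2 : M1 * c ^ 3 / r ^ 2 / 2 = (M1 * c ^ 3 / 2) / r ^ 2 := by field_simp
    rw [e1, e2]
    refine div_le_div_of_nonneg_right ?_ (by positivity)
    have := mul_le_mul_of_nonneg_left hbc hM0.le
    linarith
  have h5 : om v y ≤ len (vort v z - vort v y) + om v z := h3
  linarith

/-- The curvature at a point, from the length of the chord of an arc which starts there. -/
lemma cvS_pt {M1 c τ b : ℝ} (hM1 : 1 ≤ M1) (hc : 0 < c) (hc1 : c ≤ 1) (hτ : 0 < τ) (hb : 0 < b)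
    (hbc : b ≤ c ^ 3 / 12) (hbτ : 10368 * M1 * b ≤ τ * c ^ 3) : ∃ ε : ℝ, 0 < ε ∧ ε < 1 ∧
    ∀ (v : V → V) (y : V) (r : ℝ), SM v → 0 < r →
      (∀ z ∈ closedBall y (b * r), (∀ i, |vc v i z| ≤ M1 / r ^ 2) ∧
        (∀ i j, |pd j (vc v i) z| ≤ M1 / r ^ 3) ∧
        ∀ i j k, |pd k (pd j (vc v i)) z| ≤ M1 / r ^ 4) →
      M1 * c ^ 3 / r ^ 2 < om v y → ∀ γ : ℝ → V, γ 0 = y →
      (∀ s ∈ Icc 0 (b * r), HasDerivWithinAt γ (xi v (γ s)) (Icc 0 (b * r)) s) →
      (∀ s ∈ Icc 0 (b * r), γ s ∈ closedBall y (b * r)) →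
      (1 - ε) * (b * r) ≤ len (γ (b * r) - γ 0) → cv v y ≤ τ / 2 / (8 * r ^ 3) := by
  have hM0 : 0 < M1 := by linarith
  have hc31 : c ^ 3 ≤ 1 := pow_le_one₀ hc.le hc1
  obtain ⟨θ, hθd⟩ : ∃ θ, θ = min (1 / 2) (τ * c ^ 3 / (6144 * M1)) := ⟨_, rfl⟩
  have hθ : 0 < θ := by rw [hθd]; exact lt_min (by norm_num) (by positivity)
  have hθ2 : θ ≤ 1 / 2 := by rw [hθd]; exact min_le_left _ _
  have hθτ : 6144 * M1 * θ ≤ τ * c ^ 3 := by
    have : θ ≤ τ * c ^ 3 / (6144 * M1) := by rw [hθd]; exact min_le_right _ _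
    rwa [le_div_iff₀ (by positivity), mul_comm] at this
  obtain ⟨ε, hεd⟩ : ∃ ε, ε = min (1 / 2) (θ * (τ * b / (256 * M1)) ^ 2 / 2) := ⟨_, rfl⟩
  have hε : 0 < ε := by rw [hεd]; exact lt_min (by norm_num) (by positivity)
  have hε1 : ε < 1 := by
    have : ε ≤ 1 / 2 := by rw [hεd]; exact min_le_left _ _
    linarith
  have hεθ : √(2 * (ε / θ)) ≤ τ * b / (256 * M1) := by
    refine Real.sqrt_le_iff.2 ⟨by positivity, ?_⟩
    have h1 : ε ≤ θ * (τ * b / (256 * M1)) ^ 2 / 2 := by rw [hεd]; exact min_le_right _ _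
    have h2 : ε / θ ≤ (τ * b / (256 * M1)) ^ 2 / 2 := by
      rw [div_le_iff₀ hθ]
      linarith
    linarith
  refine ⟨ε, hε, hε1, ?_⟩
  intro v y r hv hr hgood hy2 γ hγ0 hγd hγm hch
  obtain ⟨l, hld⟩ : ∃ l, l = b * r := ⟨_, rfl⟩
  have hl : 0 < l := by rw [hld]; positivity
  obtain ⟨hdist, hlo2⟩ := om_low hv hM0 hr hbc (fun z hz => (hgood z hz).2.1) hy2
  obtain ⟨m1, hm1d⟩ : ∃ m1, m1 = M1 * c ^ 3 / r ^ 2 := ⟨_, rfl⟩
  have hm1 : 0 < m1 := by rw [hm1d]; positivity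
  rw [← hm1d] at hlo2 hy2
  rw [← hld] at hgood hγd hγm hch hdist hlo2
  have hyb : y ∈ closedBall y l := mem_closedBall_self hl.le
  have hlo' : ∀ z ∈ closedBall y l, 0 < om v z := fun z hz => by
    have := hlo2 z hz
    linarith
  have hxi : ∀ z ∈ closedBall y l, ∀ z' ∈ closedBall y l,
      len (xi v z - xi v z') ≤ 24 / (c ^ 3 * r) * ‖z - z'‖ := by
    intro z hz z' hz'
    refine (xi_lip (m := m1 / 2) (by positivity) (hlo2 z' hz') (hlo' z hz)
      (hdist z hz z' hz')).trans (le_of_eq ?_)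
    rw [hm1d]
    field_simp
    ring
  have hγL : ∀ t ∈ Icc 0 l, ∀ t' ∈ Icc 0 l, ‖γ t - γ t'‖ ≤ |t - t'| := by
    intro t ht t' ht'
    have h1 := (convex_Icc (0 : ℝ) l).norm_image_sub_le_of_norm_hasDerivWithin_le
      (f := γ) (C := 1) (fun τ hτ => hγd τ hτ) (fun τ hτ => by
        rw [← xi_len (hlo' _ (hγm τ hτ))]
        exact Pool.Agent.H2VL.norm_le_len _) ht' ht
    rwa [one_mul, Real.norm_eq_abs] at h1
  have hcr : 0 ≤ 24 / (c ^ 3 * r) := by positivity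
  have hN : ∀ t ∈ Icc 0 l, ∀ t' ∈ Icc 0 l,
      len (xi v (γ t) - xi v (γ t')) ≤ 24 / (c ^ 3 * r) * |t - t'| := fun t ht t' ht' =>
    (hxi _ (hγm t ht) _ (hγm t' ht')).trans (mul_le_mul_of_nonneg_left (hγL t ht t' ht') hcr)
  have hend := ends (g := γ) (N := fun t => xi v (γ t)) (l := l) (s := θ * l) (ε := ε)
    (κ := 24 / (c ^ 3 * r) * (θ * l)) (by positivity) (by nlinarith) hε1 hγd
    (fun t ht => (xi_len (hlo' _ (hγm t ht))).le) (fun t ht t' ht' htt =>
      (hN t ht t' ht').trans (mul_le_mul_of_nonneg_left htt hcr)) hch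
  simp only [hγ0] at hend
  have hall : ∀ t ∈ Icc 0 l, len (xi v (γ t) - xi v y) ≤ 24 / (c ^ 3 * r) * l := by
    intro t ht
    have h1 := hN t ht 0 ⟨le_rfl, hl.le⟩
    rw [hγ0, sub_zero, abs_of_nonneg ht.1] at h1
    exact h1.trans (mul_le_mul_of_nonneg_left ht.2 hcr)
  have h1 := cv_core hv (G₀ := 2 * (M1 / r ^ 2)) (G₁ := M1 / r ^ 3)
    (G₂ := M1 / r ^ 4) hl (by positivity) (by positivity) hlo' (fun z hz => by
      have h2 := len_le2 (vort v z)
      have h3 : ‖vort v z‖ ≤ M1 / r ^ 2 := by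
        rw [pi_norm_le_iff_of_nonneg (by positivity)]
        intro i
        exact (hgood z hz).1 i
      have h4 : om v z = len (vort v z) := rfl
      linarith) (fun z hz => (hgood z hz).2.1)
    (fun z hz => (hgood z hz).2.2) hγ0 hγd hγm hend hall
  refine h1.trans ?_
  rw [le_div_iff₀ (by positivity)]
  have e0 : ε * l / (θ * l) = ε / θ := by field_simp
  rw [e0, hld]
  have e1 : (2 * (M1 / r ^ 2) * (2 * (24 / (c ^ 3 * r) * (θ * (b * r)) + √(2 * (ε / θ)))) / (b * r)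
      + (6 * (M1 / r ^ 3) * (24 / (c ^ 3 * r) * (b * r)) + 18 * (M1 / r ^ 4) * (b * r)))
      * (8 * r ^ 3) = 768 * M1 * θ / c ^ 3 + 32 * M1 * √(2 * (ε / θ)) / b
        + 1152 * M1 * b / c ^ 3 + 144 * M1 * b := by
    field_simp
    ring
  rw [e1]
  have f1 : 768 * M1 * θ / c ^ 3 ≤ τ / 8 := by
    rw [div_le_iff₀ (by positivity)]
    linarith
  have f2 : 32 * M1 * √(2 * (ε / θ)) / b ≤ τ / 8 := by
    rw [div_le_iff₀ hb]
    have h3 := mul_le_mul_of_nonneg_left hεθ (show 0 ≤ 32 * M1 by positivity)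
    refine h3.trans (le_of_eq ?_)
    field_simp
    ring
  have f3 : 1152 * M1 * b / c ^ 3 ≤ τ / 9 := by
    rw [div_le_iff₀ (by positivity)]
    linarith
  have f4 : 144 * M1 * b ≤ τ / 72 := by
    have h3 : τ * c ^ 3 ≤ τ := mul_le_of_le_one_right hτ.le hc31
    linarith
  linarith

set_option maxHeartbeats 1600000 in
theorem cvS : StmCvP Str := by
  intro M g τ hM hg hg1 hτ
  obtain ⟨M1, hM1d⟩ : ∃ M1, M1 = √M := ⟨_, rfl⟩
  have hM1 : 1 ≤ M1 := by rw [hM1d]; exact Real.one_le_sqrt.2 hM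
  have hM0 : 0 < M1 := by linarith
  obtain ⟨c, hcd⟩ : ∃ c, c = min (g / 4) (τ / (4608 * M1)) := ⟨_, rfl⟩
  have hc : 0 < c := by rw [hcd]; exact lt_min (by positivity) (by positivity)
  have hcg : c ≤ g / 4 := by rw [hcd]; exact min_le_left _ _
  have hcτ : 4608 * M1 * c ≤ τ := by
    have : c ≤ τ / (4608 * M1) := by rw [hcd]; exact min_le_right _ _
    rwa [le_div_iff₀ (by positivity), mul_comm] at this
  have hc1 : c ≤ 1 := by linarith
  obtain ⟨b, hbd⟩ : ∃ b, b = min (min (g / 4) (c ^ 3 / 12)) (τ * c ^ 3 / (10368 * M1)) := ⟨_, rfl⟩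
  have hb : 0 < b := by
    rw [hbd]
    exact lt_min (lt_min (by positivity) (by positivity)) (by positivity)
  have hbg : b ≤ g / 4 := by rw [hbd]; exact (min_le_left _ _).trans (min_le_left _ _)
  have hbc : b ≤ c ^ 3 / 12 := by rw [hbd]; exact (min_le_left _ _).trans (min_le_right _ _)
  have hbτ : 10368 * M1 * b ≤ τ * c ^ 3 := by
    have : b ≤ τ * c ^ 3 / (10368 * M1) := by rw [hbd]; exact min_le_right _ _
    rwa [le_div_iff₀ (by positivity), mul_comm] at this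
  obtain ⟨ε, hε, hε1, hpt⟩ := cvS_pt hM1 hc hc1 hτ hb hbc hbτ
  refine ⟨ε, M1 * c ^ 3 / 4, hε, by positivity, ?_⟩
  intro v x r s m hv hr hm hmr hs1 hs2 hbd' hT
  obtain ⟨m1, hm1d⟩ : ∃ m1, m1 = M1 * c ^ 3 / r ^ 2 := ⟨_, rfl⟩
  have hm1 : 0 < m1 := by rw [hm1d]; positivity
  have hmm1 : m ≤ m1 / 4 := by
    rw [hm1d, div_div, le_div_iff₀ (by positivity)]
    linarith
  -- the good region
  have hgood : ∀ y, |‖y - x‖ - s| < g * r → (∀ i, |vc v i y| ≤ M1 / r ^ 2) ∧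
      (∀ i j, |pd j (vc v i) y| ≤ M1 / r ^ 3) ∧ (∀ i j k, |pd k (pd j (vc v i)) y| ≤ M1 / r ^ 4) ∧
      ∀ i j k l, |pd l (pd k (pd j (vc v i))) y| ≤ M1 / r ^ 5 := by
    intro y hy
    rw [hM1d]
    exact der_bds hr hM (hbd' y hy)
  have hreg := shell_reg (x := x) hg hg1 hr hs2
  refine cv_gen hM hg hg1 hc hcg (by rw [← hM1d]; exact hcτ) hv hr hs2 hbd' ?_
  rw [← hM1d]
  -- the strong part
  intro y hy hy2
  have hl : 0 < b * r := by positivity
  have hin : ∀ z ∈ closedBall y (b * r), |‖z - x‖ - s| < g * r ∧ z ∈ closedBall x r := by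
    intro z hz
    rw [mem_closedBall, dist_eq_norm] at hz
    exact hreg y hy z (hz.trans (mul_le_mul_of_nonneg_right hbg hr.le))
  obtain ⟨-, hlo2⟩ := om_low hv hM0 hr hbc (fun z hz => (hgood z (hin z hz).1).2.1) hy2
  rw [← hm1d] at hlo2
  have hlo' : ∀ z ∈ closedBall y (b * r), 0 < om v z := fun z hz => by
    have := hlo2 z hz
    linarith
  obtain ⟨γ, hγ0, hγd, hγm⟩ := vl_exists hv hl hlo'
  refine hpt v y r hv hr (fun z hz => ⟨(hgood z (hin z hz).1).1, (hgood z (hin z hz).1).2.1,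
    (hgood z (hin z hz).1).2.2.1⟩) hy2 γ hγ0 hγd (fun s _ => hγm s) ?_
  rw [hγ0]
  refine hT y (γ (b * r)) (b * r) ⟨hl, γ, hγ0, rfl, fun t ht => ⟨⟨?_, ?_⟩, hγd t ht⟩⟩
  · have := (hin _ (hγm t)).2
    rwa [mem_closedBall, dist_eq_norm] at this
  · have := hlo2 _ (hγm t)
    linarith

end Pool.Agent.H1TV
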