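import Pool.Agent.H1TV.Lk
import Pool.Agent.Q85.CL.Assem

/-!
Project TV: the leak is small at small scales, uniformly in time.
-/

set_option autoImplicit false

open MeasureTheory Set Metric Filter Topology
open scoped ContDiff ENNReal
open H459R3.NS Pool.Agent.W268.NS Pool.Agent.Q67.VD

namespace Pool.Agent.H1TV

open Pool.Agent.Q85.CC Pool.Agent.Q85.CL Pool.Agent.Q85.VL Pool.Agent.H2CV
open Pool.Agent.TH305.DR (badW badW_mono dl vo domF)

theorem lk : StmLk := by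
  intro T E O u p hT hu T₀ ρ₀ a hT₀ hT₀T hρ₀ hO
  obtain ⟨C, hC, K, hK, hloc, -⟩ := domF
  obtain ⟨A, hA, hvol⟩ := hloc O (closedBall a ρ₀) hu.openO (isCompact_closedBall _ _) hO
  have hE0 : 0 ≤ E := by
    refine le_trans (setIntegral_nonneg hu.openO.measurableSet fun x _ => ?_)
      (hu.en (T / 2) ⟨by linarith, by linarith⟩)
    unfold W221.NS.nsq
    exact Finset.sum_nonneg fun i _ => by positivity
  have hsol := Pool.Agent.Q95.CL.osol_of hu hE0
  -- the dissipation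
  have hfin : ∫⁻ z in Ioo 0 T ×ˢ O, ENNReal.ofReal (W221.NS.gsq (u z.1) z.2) < ⊤ := by
    have h1 := hu.dis.hasFiniteIntegral
    refine lt_of_le_of_lt (lintegral_mono fun z => ?_) h1
    rw [← ofReal_norm]
    exact ENNReal.ofReal_le_ofReal (Real.le_norm_self _)
  obtain ⟨D, hDd⟩ : ∃ D, D = (∫⁻ z in Ioo 0 T ×ˢ O,
      ENNReal.ofReal (W221.NS.gsq (u z.1) z.2)).toReal := ⟨_, rfl⟩
  have hD0 : 0 ≤ D := by rw [hDd]; exact ENNReal.toReal_nonneg
  have hD : ENNReal.ofReal D = ∫⁻ z in Ioo 0 T ×ˢ O,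
      ENNReal.ofReal (W221.NS.gsq (u z.1) z.2) := by
    rw [hDd, ENNReal.ofReal_toReal hfin.ne]
  have hDw : ∀ b c : ℝ, 0 ≤ b → c ≤ T →
      ∫⁻ t in Ioo b c, ∫⁻ y in O, ENNReal.ofReal (W221.NS.gsq (u t) y) ≤ ENNReal.ofReal D := by
    intro b c hb hc
    rw [hD, Measure.volume_eq_prod, ← Measure.prod_restrict, lintegral_prod]
    · exact lintegral_mono_set (Ioo_subset_Ioo hb hc)
    · rw [Measure.prod_restrict, ← Measure.volume_eq_prod]
      exact hu.dis.aestronglyMeasurable.aemeasurable.ennreal_ofReal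
  -- the radii
  obtain ⟨ρ₁, hρ₁d⟩ : ∃ ρ₁, ρ₁ = min (min 1 (T₀ / 257)) (min (ρ₀ / 2) (1 / (A * (1 + √E / 1) ^ 2))) :=
    ⟨_, rfl⟩
  have hAE : 0 < A * (1 + √E / 1) ^ 2 := by positivity
  have hρ₁ : 0 < ρ₁ := by
    rw [hρ₁d]
    exact lt_min (lt_min one_pos (by positivity)) (lt_min (by positivity) (by positivity))
  have h1 : ρ₁ ≤ 1 := by rw [hρ₁d]; exact (min_le_left _ _).trans (min_le_left _ _)
  have h2 : ρ₁ ≤ T₀ / 257 := by rw [hρ₁d]; exact (min_le_left _ _).trans (min_le_right _ _)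
  have h3 : ρ₁ ≤ ρ₀ / 2 := by rw [hρ₁d]; exact (min_le_right _ _).trans (min_le_left _ _)
  have h4 : ρ₁ ≤ 1 / (A * (1 + √E / 1) ^ 2) := by
    rw [hρ₁d]; exact (min_le_right _ _).trans (min_le_right _ _)
  refine ⟨9 * ((512 + 2048 * (C * D)) * (1 + K 3)), ρ₁ / 2, ?_, by positivity, ?_⟩
  · have := hK 3
    positivity
  intro t ht x hx r m hr hrr hm
  have hK3 := hK 3
  have htI : t ∈ Ioo 0 T := ⟨hT₀.trans ht.1, ht.2⟩
  have hsm := slice_u hu.toLEq htI
  obtain ⟨s, hsd⟩ : ∃ s, s = √(√r) := ⟨_, rfl⟩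
  have hs4 : s ^ 4 = r := by
    have e1 : s ^ 2 = √r := by rw [hsd]; exact Real.sq_sqrt (Real.sqrt_nonneg _)
    have e2 : √r ^ 2 = r := Real.sq_sqrt hr.le
    calc s ^ 4 = (s ^ 2) ^ 2 := by ring
      _ = r := by rw [e1, e2]
  have hs : 0 < s := by rw [hsd]; positivity
  have hs1 : s ≤ 1 := by
    rw [hsd]
    refine Real.sqrt_le_one.2 (Real.sqrt_le_one.2 ?_)
    linarith
  have H : ∀ ρ, 0 < ρ → ρ ≤ ρ₁ → volume (thickening ρ (badW K 1 ρ (u t) ∩ closedBall a ρ₀))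
      ≤ ENNReal.ofReal (C * D * ρ ^ 2) := by
    intro ρ hρ hρρ
    have e0 : A * (1 + √E / 1) ^ 2 * ρ ≤ 1 := by
      have := hρρ.trans h4
      rw [le_div_iff₀ hAE] at this
      linarith
    have e1 : 256 * ρ ^ 2 / 1 < t := by
      have a1 : ρ ^ 2 ≤ ρ := pow_le_of_le_one hρ.le (hρρ.trans h1) two_ne_zero
      have a2 := hρρ.trans h2
      rw [le_div_iff₀ (by norm_num)] at a2
      linarith [ht.1]
    have e2 := (hvol 1 T (√E) u p one_pos (Real.sqrt_nonneg _) hsol ρ t hρ e0 e1 ht.2).1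
    refine e2.trans ?_
    have e3 := hDw (t - 256 * ρ ^ 2 / 1) t (by linarith) ht.2.le
    calc ENNReal.ofReal (C / 1 * ρ ^ 2) * ∫⁻ τ in Ioo (t - 256 * ρ ^ 2 / 1) t,
          ∫⁻ y in O, ENNReal.ofReal (W221.NS.gsq (u τ) y)
        ≤ ENNReal.ofReal (C / 1 * ρ ^ 2) * ENNReal.ofReal D := mul_le_mul_right e3 _
      _ = ENNReal.ofReal (C * D * ρ ^ 2) := by
          rw [← ENNReal.ofReal_mul (by positivity)]
          congr 1
          ring
  have key : ∀ i j, ∫ y in closedBall x r, |pd j (fun z => vort (u t) z i) y|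
        / (1 + (vort (u t) y i / m) ^ 2)
      ≤ (512 + 2048 * (C * D)) * (m + K 3) * s := by
    intro i j
    have e1 := slice_lk hsm hK (Q := closedBall a ρ₀) (C := C * D) (ρ₁ := ρ₁) (by positivity) H
      (x := x) hs hs1 (by rw [hs4]; linarith) (by
        rw [hs4]
        refine closedBall_subset_closedBall' ?_
        have := mem_closedBall.1 hx
        linarith) hm i j
    rw [hs4] at e1
    have e2 : ∫ y in closedBall x r, |pd j (fun z => vort (u t) z i) y|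
        / (1 + (vort (u t) y i / m) ^ 2) = ∫ y in closedBall x r, lkd (vc (u t) i) m j y := rfl
    rw [e2, integral_eq_lintegral_of_nonneg_ae (Eventually.of_forall fun y => lkd_nonneg _ _ _ _)
      (lkd_cont (sm_vc hsm i) m j).aestronglyMeasurable]
    exact ENNReal.toReal_le_of_le_ofReal (by positivity) e1
  unfold Lk
  calc ∑ i, ∑ j, ∫ y in closedBall x r, |pd j (fun z => vort (u t) z i) y|
        / (1 + (vort (u t) y i / m) ^ 2)
      ≤ ∑ _i : Fin 3, ∑ _j : Fin 3, (512 + 2048 * (C * D)) * (m + K 3) * s :=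
        Finset.sum_le_sum fun i _ => Finset.sum_le_sum fun j _ => key i j
    _ = 9 * ((512 + 2048 * (C * D)) * (m + K 3) * s) := by
        simp only [Finset.sum_const, Finset.card_univ, Fintype.card_fin, nsmul_eq_mul]
        push_cast
        ring
    _ ≤ 9 * ((512 + 2048 * (C * D)) * (1 + K 3)) * (1 + m) * s := by
        have h5 : m + K 3 ≤ (1 + K 3) * (1 + m) := by nlinarith
        have h6 : 0 ≤ 9 * (512 + 2048 * (C * D)) * s := by positivity
        nlinarith [mul_le_mul_of_nonneg_left h5 h6]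
    _ = _ := by rw [hsd]

end Pool.Agent.H1TV
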