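import Pool.Agent.H1TV.LkB
import Pool.Agent.H1TV.Lk2
import Pool.Agent.H2CV.Loc

/-!
Project TV: the curvature criterion with a threshold for the vorticity.
-/

set_option autoImplicit false

open MeasureTheory Set Metric Filter Topology
open scoped ContDiff ENNReal
open H459R3.NS Pool.Agent.W268.NS Pool.Agent.Q67.VD

namespace Pool.Agent.H1TV

open Pool.Agent.Q85.CC Pool.Agent.Q85.CL Pool.Agent.Q85.VL Pool.Agent.H2CV

/-- If the excess of the curvature, where the vorticity is larger than a threshold, does not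
concentrate at `a` then `a` is not singular. -/
theorem locCT {T E : ℝ} {O : Set V} {u : ℝ → V → V} {p : ℝ → V → ℝ}
    (hT : 0 < T) (hu : LSl T E O u p) {a : V} (ha : a ∈ O)
    (hN : ∀ μ : ℝ, 0 < μ → ∃ A m T₀ R : ℝ, 0 ≤ A ∧ T₀ < T ∧ 0 < R ∧ ∀ t ∈ Ioo T₀ T, 0 < t →
      ∫ y in closedBall a R ∩ {y | m < om (u t) y},
        max (cv (u t) y - A * om (u t) y) 0 ≤ μ) :
    ∃ B δ : ℝ, 0 < δ ∧ ∀ t ∈ Ioo (T - δ) T, 0 < t → ∀ x ∈ closedBall a δ, ‖u t x‖ ≤ B := by
  refine locC hT hu ha fun μ hμ => ?_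
  obtain ⟨A, m', T₀, R, hA, hT₀, hR, h1⟩ := hN (μ / 2) (by positivity)
  obtain ⟨m, hmd⟩ : ∃ m, m = max m' 1 := ⟨_, rfl⟩
  have hm : 0 < m := by rw [hmd]; exact lt_max_of_lt_right one_pos
  have hmm : m' ≤ m := by rw [hmd]; exact le_max_left _ _
  obtain ⟨ρ₀, hρ₀, hO⟩ := Metric.isOpen_iff.1 hu.openO a ha
  obtain ⟨C, r₀, hC, hr₀, hlk⟩ := lk T E O u p hT hu (T / 2) (ρ₀ / 2) a (by positivity)
    (by linarith) (by positivity) ((closedBall_subset_ball (by linarith)).trans hO)
  -- the radius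
  obtain ⟨s, hsd⟩ : ∃ s, s = min (min 1 (min R r₀)) (μ / (8 * (C * (1 + m) + 1))) := ⟨_, rfl⟩
  have hCm : 0 ≤ C * (1 + m) := mul_nonneg hC (by linarith)
  have hs : 0 < s := by
    rw [hsd]
    exact lt_min (lt_min one_pos (lt_min hR hr₀)) (by positivity)
  have hs1 : s ≤ 1 := by rw [hsd]; exact (min_le_left _ _).trans (min_le_left _ _)
  have hsR : s ≤ R := by
    rw [hsd]; exact (min_le_left _ _).trans ((min_le_right _ _).trans (min_le_left _ _))
  have hsr : s ≤ r₀ := by
    rw [hsd]; exact (min_le_left _ _).trans ((min_le_right _ _).trans (min_le_right _ _))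
  have hsμ : s ≤ μ / (8 * (C * (1 + m) + 1)) := by rw [hsd]; exact min_le_right _ _
  have hs4 : s ^ 4 ≤ s := pow_le_of_le_one hs.le hs1 (by norm_num)
  have hsq : √(√(s ^ 4)) = s := by
    have e1 : √(s ^ 4) = s ^ 2 := by
      rw [show s ^ 4 = (s ^ 2) ^ 2 by ring]
      exact Real.sqrt_sq (sq_nonneg s)
    rw [e1]
    exact Real.sqrt_sq hs.le
  refine ⟨A, max T₀ (T / 2), s ^ 4, hA, max_lt hT₀ (by linarith), by positivity,
    fun t ht ht0 => ?_⟩
  have ht1 : t ∈ Ioo T₀ T := ⟨(le_max_left _ _).trans_lt ht.1, ht.2⟩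
  have ht2 : t ∈ Ioo (T / 2) T := ⟨(le_max_right _ _).trans_lt ht.1, ht.2⟩
  have hsm := slice_u hu.toLEq ⟨ht0, ht.2⟩
  have h2 := hlk t ht2 a (mem_closedBall_self (by positivity)) (s ^ 4) m (by positivity)
    (hs4.trans hsr) hm
  rw [hsq] at h2
  have h3 := weak_cv hsm hm a (s ^ 4)
  have h4 : 4 * (C * (1 + m) * s) ≤ μ / 2 := by
    rw [le_div_iff₀ (by positivity)] at hsμ
    nlinarith
  have hmeas : MeasurableSet {y | om (u t) y ≤ m} :=
    (isClosed_le (om_cont' hsm) continuous_const).measurableSet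
  have hex := ex_int hsm A (isCompact_closedBall a (s ^ 4))
  rw [← integral_inter_add_sdiff hmeas hex]
  have h5 : ∫ y in closedBall a (s ^ 4) ∩ {y | om (u t) y ≤ m},
      max (cv (u t) y - A * om (u t) y) 0 ≤ ∫ y in closedBall a (s ^ 4) ∩ {y | om (u t) y ≤ m},
        cv (u t) y := by
    refine setIntegral_mono_on (hex.mono_set inter_subset_left)
      ((cv_int hsm (isCompact_closedBall _ _)).mono_set inter_subset_left)
      (isClosed_closedBall.measurableSet.inter hmeas) fun y _ => ?_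
    refine max_le ?_ (cv_nonneg _ _)
    have := mul_nonneg hA (Pool.Agent.H2CV.len_nn (vort (u t) y))
    unfold om
    linarith
  have h6 : ∫ y in closedBall a (s ^ 4) \ {y | om (u t) y ≤ m},
      max (cv (u t) y - A * om (u t) y) 0 ≤ ∫ y in closedBall a R ∩ {y | m' < om (u t) y},
        max (cv (u t) y - A * om (u t) y) 0 := by
    refine setIntegral_mono_set ((ex_int hsm A (isCompact_closedBall a R)).mono_set
      inter_subset_left) (Eventually.of_forall fun y => le_max_right _ _)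
      (LE.le.eventuallyLE ?_)
    intro y hy
    refine ⟨closedBall_subset_closedBall (hs4.trans hsR) hy.1, ?_⟩
    have h7 : ¬ om (u t) y ≤ m := hy.2
    show m' < om (u t) y
    linarith
  have h8 := h1 t ht1 ht0
  linarith

end Pool.Agent.H1TV
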