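import Pool.Agent.H2CV.Defs2

/-!
Project TV (helper1, helper2): the turning of the vortex lines. Definitions and statements of parts.

`V = Fin 3 → ℝ` has the maximum norm, `len` is the Euclidean length, `vort v` the vorticity and
`om v` its length.
-/

set_option autoImplicit false

open MeasureTheory Set Metric
open scoped ContDiff
open H459R3.NS Pool.Agent.W268.NS Pool.Agent.Q67.VD

namespace Pool.Agent.H1TV

open Pool.Agent.Q85.CC Pool.Agent.Q85.CL Pool.Agent.Q85.VL Pool.Agent.H2CV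

/-- The direction of the vorticity. -/
noncomputable def xi (v : V → V) (y : V) : V := (om v y)⁻¹ • vort v y

/-- The part of the cube where the vorticity is larger than `m`. -/
def Dm (v : V → V) (x : V) (R m : ℝ) : Set V := {y | ‖y - x‖ ≤ R ∧ m < om v y}

/-- The direction of the vorticity turns by at most `ε` along the arcs of the vortex lines inside
of `D`. -/
def Turn (v : V → V) (D : Set V) (ε : ℝ) : Prop :=
  ∀ p q l, Arc (vort v) D p q l → len (xi v q - xi v p) ≤ ε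

/-- The leak: the variation of the vorticity at the level `m`. -/
noncomputable def Lk (v : V → V) (m : ℝ) (x : V) (r : ℝ) : ℝ :=
  ∑ i, ∑ j, ∫ y in closedBall x r, |pd j (fun z => vort v z i) y| / (1 + (vort v y i / m) ^ 2)

/-- The step function of the vorticity: `0` for `om ≤ 2 m`, `1` for `om ≥ 3 m`. -/
noncomputable def kap (m : ℝ) (v : V → V) (y : V) : ℝ :=
  stp ((om v y ^ 2 - 4 * m ^ 2) / (5 * m ^ 2))

/-- TV-A. The flux inequality. `h` has integral at most `H` along the arcs of the vortex lines in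
`Dm v x R m`, and these have length at most `ℓ`. -/
def StmFlx : Prop := ∃ C : ℝ, 0 < C ∧ ∀ (v : V → V) (x : V) (R m ℓ H L D : ℝ) (h χ : V → ℝ), SM v →
  0 < R → 0 < m → 0 < ℓ → 0 ≤ H → (∀ y z, |h y - h z| ≤ L * ‖y - z‖) → (∀ y, 0 ≤ h y) →
  ContDiff ℝ 1 χ → (∀ y, 0 ≤ χ y ∧ χ y ≤ 1) → (∀ y, χ y ≠ 0 → ‖y - x‖ ≤ R / 2) →
  (∀ y j, |pd j χ y| ≤ D) →
  (∀ (γ : ℝ → V) (l : ℝ), 0 < l → (∀ s ∈ Icc (0 : ℝ) l, γ s ∈ Dm v x R m ∧
    HasDerivWithinAt γ ((len (vort v (γ s)))⁻¹ • vort v (γ s)) (Icc 0 l) s) →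
      l ≤ ℓ ∧ ∫ s in (0 : ℝ)..l, h (γ s) ≤ H) →
    ∫ y, χ y * (kap m v y * (h y * om v y))
      ≤ C * H * ((∫ y in {y | pd 0 χ y ≠ 0 ∨ pd 1 χ y ≠ 0 ∨ pd 2 χ y ≠ 0}, D * om v y)
        + Lk v m x R)

/-- TV-MOR. The Morrey bound at one time. -/
def StmMorM : Prop := ∃ C ε₀ : ℝ, 1 ≤ C ∧ 0 < ε₀ ∧ ∀ (v : V → V) (x : V) (r R m : ℝ), SM v →
  0 < m → 0 < r → r ≤ R / 8 → Turn v (Dm v x R m) ε₀ → ∫ y in closedBall x r, om v y
    ≤ C * ((∫ y in closedBall x R, om v y) / R + Lk v m x R + m * R ^ 2) * r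

/-- TV-PIN. The pinching lemma: near a concentration of the vorticity there is a scale at which the
vorticity is nearly radial, and not small on all the shells. -/
def StmPinM : Prop := ∃ c : ℝ, 0 < c ∧ c ≤ 1 ∧ ∀ K η τ : ℝ, 0 ≤ K → 0 < η → η ≤ 1 → 0 < τ →
  τ ≤ 1 → ∃ (N : ℕ) (ε : ℝ), 0 < ε ∧ ∀ (v : V → V) (x : V) (R ρ m : ℝ), SM v → 0 < R → 0 < m →
    Turn v (Dm v x R m) ε → Lk v m x R ≤ c * η → m * R ^ 2 ≤ c * η * τ →
    ∫ y in closedBall x R, om v y ≤ K * R →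
    0 < ρ → ρ ≤ (1 / 256) ^ N * R → η * ρ ≤ ∫ y in closedBall x ρ, om v y →
      ∃ k < N,
        ∫ y in closedBall x ((1 / 256) ^ k * (R / 4) / 16) \
            ball x ((1 / 256) ^ k * (R / 4) / 128),
          len (crossProduct (y - x) (vort v y)) ^ 2 / om v y
            ≤ τ * ((1 / 256) ^ k * (R / 4)) ^ 3 ∧
        ∀ s w : ℝ, (1 / 256) ^ k * (R / 4) / 64 ≤ s → s ≤ (1 / 256) ^ k * (R / 4) / 32 →
          0 < w → w ≤ s / 4 → c * η * w ≤ ∫ y in Shell x s w, om v y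

/-- TV-CV. Small turning on a good shell implies that the curvature is small. -/
def StmCvM : Prop := ∀ M g τ : ℝ, 1 ≤ M → 0 < g → g ≤ 1 / 128 → 0 < τ → ∃ ε δ : ℝ, 0 < ε ∧ 0 < δ ∧
  ∀ (v : V → V) (x : V) (r s m : ℝ), SM v → 0 < r → 0 < m → m * r ^ 2 ≤ δ → r / 64 ≤ s →
    s ≤ r / 32 →
    (∀ y, |‖y - x‖ - s| < g * r → ∀ n ≤ 5, ∀ i j, r ^ (2 * n + 4) * SQ n (cur i j v) y ≤ M) →
    Turn v (Dm v x r m) ε → ∫ y in Shell x s (g * r / 2), cv v y ≤ τ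

/-- TV-LK. The leak is small at small scales, uniformly up to the time `T`. -/
def StmLk : Prop := ∀ (T E : ℝ) (O : Set V) (u : ℝ → V → V) (p : ℝ → V → ℝ), 0 < T →
  LSl T E O u p → ∀ (T₀ ρ₀ : ℝ) (a : V), 0 < T₀ → T₀ < T → 0 < ρ₀ → closedBall a ρ₀ ⊆ O →
    ∃ C r₀ : ℝ, 0 ≤ C ∧ 0 < r₀ ∧ ∀ t ∈ Ioo T₀ T, ∀ x ∈ closedBall a (ρ₀ / 2), ∀ r m : ℝ, 0 < r →
      r ≤ r₀ → 0 < m → Lk (u t) m x r ≤ C * (1 + m) * √(√r)

/-- TV-LOC. The local theorem (viscosity one). -/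
def StmTv : Prop := ∀ (T E : ℝ) (O : Set V) (u : ℝ → V → V) (p : ℝ → V → ℝ), 0 < T →
  LSl T E O u p → ∀ a ∈ O, (∀ ε : ℝ, 0 < ε → ∃ m T₀ R : ℝ, 0 < m ∧ T₀ < T ∧ 0 < R ∧
    ∀ t ∈ Ioo T₀ T, 0 < t → Turn (u t) (Dm (u t) a R m) ε) →
    ∃ B δ : ℝ, 0 < δ ∧ ∀ t ∈ Ioo (T - δ) T, 0 < t → ∀ x ∈ closedBall a δ, ‖u t x‖ ≤ B

end Pool.Agent.H1TV
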