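import Mathlib

/-!
Project TV: the variation of a function of one variable near its zeros, and averages over
translations.
-/

set_option autoImplicit false

open MeasureTheory Set Metric Filter Topology
open scoped ENNReal

namespace Pool.Agent.H1TV

/-- A monotone piece. -/
lemma mono_piece {f f1 : ℝ → ℝ} {c d m : ℝ} (hcd : c ≤ d) (hm : 0 < m)
    (h0 : ∀ s, HasDerivAt f (f1 s) s) (hc : Continuous f1)
    (hs : (∀ s ∈ Icc c d, 0 ≤ f1 s) ∨ ∀ s ∈ Icc c d, f1 s ≤ 0) :
    ∫ s in c..d, |f1 s| / (1 + (f s / m) ^ 2) ≤ 4 * m := by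
  have hf : Continuous f := continuous_iff_continuousAt.2 fun s => (h0 s).continuousAt
  have hd : ∀ s, HasDerivAt (fun s => m * Real.arctan (f s / m)) (f1 s / (1 + (f s / m) ^ 2)) s := by
    intro s
    have h1 := (((h0 s).div_const m).arctan).const_mul m
    refine h1.congr_deriv ?_
    field_simp
  have hcont : Continuous fun s => f1 s / (1 + (f s / m) ^ 2) := by
    refine hc.div (by fun_prop) fun s => ?_
    positivity
  have hint : ∫ s in c..d, f1 s / (1 + (f s / m) ^ 2)
      = m * Real.arctan (f d / m) - m * Real.arctan (f c / m) :=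
    intervalIntegral.integral_eq_sub_of_hasDerivAt (fun s _ => hd s)
      (hcont.intervalIntegrable _ _)
  have hb : |m * Real.arctan (f d / m) - m * Real.arctan (f c / m)| ≤ 4 * m := by
    have a1 := Real.arctan_lt_pi_div_two (f d / m)
    have a2 := Real.neg_pi_div_two_lt_arctan (f d / m)
    have a3 := Real.arctan_lt_pi_div_two (f c / m)
    have a4 := Real.neg_pi_div_two_lt_arctan (f c / m)
    have a5 := Real.pi_lt_four
    rw [← mul_sub, abs_mul, abs_of_pos hm, mul_comm]
    refine mul_le_mul_of_nonneg_right ?_ hm.le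
    rw [abs_le]
    constructor <;> linarith
  rcases hs with hs | hs
  · have e : ∫ s in c..d, |f1 s| / (1 + (f s / m) ^ 2) = ∫ s in c..d, f1 s / (1 + (f s / m) ^ 2) := by
      refine intervalIntegral.integral_congr fun s hs' => ?_
      rw [uIcc_of_le hcd] at hs'
      simp only [abs_of_nonneg (hs s hs')]
    rw [e, hint]
    exact (le_abs_self _).trans hb
  · have e : ∫ s in c..d, |f1 s| / (1 + (f s / m) ^ 2)
        = -∫ s in c..d, f1 s / (1 + (f s / m) ^ 2) := by
      rw [← intervalIntegral.integral_neg]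
      refine intervalIntegral.integral_congr fun s hs' => ?_
      rw [uIcc_of_le hcd] at hs'
      simp only [abs_of_nonpos (hs s hs'), neg_div]
    rw [e, hint]
    exact (neg_le_abs _).trans hb

/-- Without zeros in the open interval there is no change of sign. -/
lemma no_zero {g : ℝ → ℝ} {c d : ℝ} (hg : Continuous g) (h : ∀ s ∈ Ioo c d, g s ≠ 0) :
    (∀ s ∈ Icc c d, 0 ≤ g s) ∨ ∀ s ∈ Icc c d, g s ≤ 0 := by
  by_contra hcon
  push Not at hcon
  obtain ⟨⟨p, hp, hp0⟩, q, hq, hq0⟩ := hcon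
  rcases lt_trichotomy p q with hpq | hpq | hpq
  · obtain ⟨z, hz, hz0⟩ := intermediate_value_Ioo hpq.le hg.continuousOn
      (show (0 : ℝ) ∈ Ioo (g p) (g q) from ⟨hp0, hq0⟩)
    exact h z ⟨hp.1.trans_lt hz.1, hz.2.trans_le hq.2⟩ hz0
  · subst hpq
    linarith
  · obtain ⟨z, hz, hz0⟩ := intermediate_value_Ioo' hpq.le hg.continuousOn
      (show (0 : ℝ) ∈ Ioo (g p) (g q) from ⟨hp0, hq0⟩)
    exact h z ⟨hq.1.trans_lt hz.1, hz.2.trans_le hp.2⟩ hz0

/-- The variation of a function near its zeros. -/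
lemma one_var {f f1 f2 f3 : ℝ → ℝ} {c d B m : ℝ} (hcd : c ≤ d) (hm : 0 < m)
    (h0 : ∀ s, HasDerivAt f (f1 s) s) (h1 : ∀ s, HasDerivAt f1 (f2 s) s)
    (h2 : ∀ s, HasDerivAt f2 (f3 s) s) (hB : ∀ s ∈ Icc c d, |f3 s| ≤ B)
    (hB3 : B * (d - c) ^ 3 ≤ m) :
    ∫ s in c..d, |f1 s| / (1 + (f s / m) ^ 2) ≤ 8 * m := by
  have hf : Continuous f := continuous_iff_continuousAt.2 fun s => (h0 s).continuousAt
  have hc1 : Continuous f1 := continuous_iff_continuousAt.2 fun s => (h1 s).continuousAt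
  have hcont : Continuous fun s => |f1 s| / (1 + (f s / m) ^ 2) := by
    refine hc1.abs.div (by fun_prop) fun s => ?_
    positivity
  by_cases hz : ∃ s₁ ∈ Icc c d, f1 s₁ = 0
  · obtain ⟨s₁, hs₁, hz₁⟩ := hz
    by_cases hz2 : ∃ s₂ ∈ Icc c d, s₂ ≠ s₁ ∧ f1 s₂ = 0
    · obtain ⟨s₂, hs₂, hne, hz₂⟩ := hz2
      -- two zeros
      have hroll : ∃ z ∈ Icc c d, f2 z = 0 := by
        rcases lt_or_gt_of_ne hne with hlt | hlt
        · obtain ⟨z, hz, hz0⟩ := exists_hasDerivAt_eq_zero hlt hc1.continuousOn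
            (by rw [hz₁, hz₂]) (fun s _ => h1 s)
          exact ⟨z, ⟨hs₂.1.trans hz.1.le, hz.2.le.trans hs₁.2⟩, hz0⟩
        · obtain ⟨z, hz, hz0⟩ := exists_hasDerivAt_eq_zero hlt hc1.continuousOn
            (by rw [hz₁, hz₂]) (fun s _ => h1 s)
          exact ⟨z, ⟨hs₁.1.trans hz.1.le, hz.2.le.trans hs₂.2⟩, hz0⟩
      obtain ⟨z, hz, hz0⟩ := hroll
      have hB0 : 0 ≤ B := (abs_nonneg _).trans (hB c ⟨le_rfl, hcd⟩)
      have hd2 : ∀ s ∈ Icc c d, |f2 s| ≤ B * (d - c) := by
        intro s hs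
        have e := (convex_Icc c d).norm_image_sub_le_of_norm_hasDerivWithin_le
          (f := f2) (f' := f3) (C := B) (fun y _ => (h2 y).hasDerivWithinAt) (fun y hy => hB y hy)
          hz hs
        rw [hz0, sub_zero, Real.norm_eq_abs, Real.norm_eq_abs] at e
        refine e.trans (mul_le_mul_of_nonneg_left ?_ hB0)
        rw [abs_le]
        constructor <;> linarith [hs.1, hs.2, hz.1, hz.2]
      have hd1 : ∀ s ∈ Icc c d, |f1 s| ≤ B * (d - c) * (d - c) := by
        intro s hs
        have e := (convex_Icc c d).norm_image_sub_le_of_norm_hasDerivWithin_le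
          (f := f1) (f' := f2) (C := B * (d - c)) (fun y _ => (h1 y).hasDerivWithinAt)
          (fun y hy => hd2 y hy) hs₁ hs
        rw [hz₁, sub_zero, Real.norm_eq_abs, Real.norm_eq_abs] at e
        refine e.trans (mul_le_mul_of_nonneg_left ?_ (mul_nonneg hB0 (by linarith)))
        rw [abs_le]
        constructor <;> linarith [hs.1, hs.2, hs₁.1, hs₁.2]
      have e1 : ∫ s in c..d, |f1 s| / (1 + (f s / m) ^ 2) ≤ ∫ _ in c..d, B * (d - c) * (d - c) := by
        refine intervalIntegral.integral_mono_on hcd (hcont.intervalIntegrable _ _)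
          intervalIntegrable_const fun s hs => ?_
        refine le_trans (div_le_self (abs_nonneg _) ?_) (hd1 s hs)
        have := sq_nonneg (f s / m)
        linarith
      rw [intervalIntegral.integral_const, smul_eq_mul] at e1
      have e2 : (d - c) * (B * (d - c) * (d - c)) = B * (d - c) ^ 3 := by ring
      linarith
    · -- exactly one zero
      push Not at hz2
      have hp1 := mono_piece (f := f) (m := m) hs₁.1 hm h0 hc1 (no_zero hc1 fun s hs => ?_)
      have hp2 := mono_piece (f := f) (m := m) hs₁.2 hm h0 hc1 (no_zero hc1 fun s hs => ?_)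
      · rw [← intervalIntegral.integral_add_adjacent_intervals
          (hcont.intervalIntegrable c s₁) (hcont.intervalIntegrable s₁ d)]
        linarith
      · exact hz2 s ⟨hs₁.1.trans hs.1.le, hs.2.le⟩ hs.1.ne'
      · exact hz2 s ⟨hs.1.le, hs.2.le.trans hs₁.2⟩ hs.2.ne
  · push Not at hz
    have := mono_piece (f := f) (m := m) hcd hm h0 hc1 (no_zero hc1 fun s hs =>
      hz s ⟨hs.1.le, hs.2.le⟩)
    linarith

/-- Average over translations. -/
lemma shift_avg {ι : Type} [Fintype ι] {G : (ι → ℝ) → ℝ≥0∞} (hG : Measurable G)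
    {A A' : Set (ι → ℝ)} (hA : MeasurableSet A) (e : ι → ℝ) {lam : ℝ} (hl : 0 < lam) {β : ℝ≥0∞}
    (h : ∀ y, ∀ s ∈ Ioc 0 lam, y + s • e ∈ A → y ∈ A' ∧
      ∫⁻ s in Ioc 0 lam, G (y + s • e) ≤ β) :
    ENNReal.ofReal lam * ∫⁻ y in A, G y ≤ β * volume A' := by
  have hm : Measurable fun p : ℝ × (ι → ℝ) => (A.indicator G) (p.2 + p.1 • e) := by
    refine (hG.indicator hA).comp ?_
    fun_prop
  have e1 : ENNReal.ofReal lam * ∫⁻ y in A, G y
      = ∫⁻ s in Ioc 0 lam, ∫⁻ y, (A.indicator G) (y + s • e) := by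
    have : ∀ s : ℝ, ∫⁻ y, (A.indicator G) (y + s • e) = ∫⁻ y in A, G y := by
      intro s
      rw [lintegral_add_right_eq_self (A.indicator G) (s • e), lintegral_indicator hA]
    simp_rw [this]
    rw [setLIntegral_const, Real.volume_Ioc, sub_zero, mul_comm]
  rw [e1, lintegral_lintegral_swap (f := fun s y => (A.indicator G) (y + s • e))
    hm.aemeasurable]
  have e2 : ∀ y, ∫⁻ s in Ioc 0 lam, (A.indicator G) (y + s • e) ≤ A'.indicator (fun _ => β) y := by
    intro y
    by_cases hy : ∃ s ∈ Ioc 0 lam, y + s • e ∈ A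
    · obtain ⟨s, hs, hsA⟩ := hy
      obtain ⟨h1, h2⟩ := h y s hs hsA
      rw [indicator_of_mem h1]
      refine le_trans (lintegral_mono fun s => ?_) h2
      exact indicator_le_self _ _ _
    · push Not at hy
      have : ∫⁻ s in Ioc 0 lam, (A.indicator G) (y + s • e) = ∫⁻ s in Ioc 0 lam, 0 :=
        setLIntegral_congr_fun measurableSet_Ioc fun s hs => indicator_of_notMem (hy s hs) _
      rw [this, lintegral_zero]
      exact zero_le
  refine (lintegral_mono e2).trans ?_
  refine (lintegral_indicator_const_le _ _).trans le_rfl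

end Pool.Agent.H1TV
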