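import Pool.Agent.H1TV.Defs
import Pool.Agent.H1TV.One
import Pool.Agent.H2CV.Tim
import Pool.Agent.TH305.DR.Fin2
import Pool.Agent.Q95.CL.Cut

/-!
Project TV: the leak is small at small scales.
-/

set_option autoImplicit false

open MeasureTheory Set Metric Filter Topology
open scoped ContDiff ENNReal
open H459R3.NS Pool.Agent.W268.NS Pool.Agent.Q67.VD

namespace Pool.Agent.H1TV

open Pool.Agent.Q85.CC Pool.Agent.Q85.CL Pool.Agent.Q85.VL Pool.Agent.H2CV
open Pool.Agent.TH305.DR (badW badW_mono dl vo)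
open Pool.Agent.W583.MD (sm_pd)
open Pool.Agent.Q129.VD3 (aI bI)

lemma line_deriv {F : V → ℝ} (hF : ContDiff ℝ ∞ F) (j : Fin 3) (y : V) (s : ℝ) :
    HasDerivAt (fun s : ℝ => F (y + s • (Pi.single j 1 : V))) (pd j F (y + s • (Pi.single j 1 : V))) s := by
  have h1 : HasDerivAt (fun s : ℝ => y + s • (Pi.single j 1 : V)) (Pi.single j 1 : V) s := by
    simpa using ((hasDerivAt_id s).smul_const (Pi.single j 1 : V)).const_add y
  have h2 : HasFDerivAt F (fderiv ℝ F (y + s • (Pi.single j 1 : V))) (y + s • (Pi.single j 1 : V)) :=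
    (hF.differentiable (by norm_cast)).differentiableAt.hasFDerivAt
  exact h2.comp_hasDerivAt s h1

/-- The density of the leak. -/
noncomputable def lkd (f : V → ℝ) (m : ℝ) (j : Fin 3) (y : V) : ℝ :=
  |pd j f y| / (1 + (f y / m) ^ 2)

lemma lkd_nonneg (f : V → ℝ) (m : ℝ) (j : Fin 3) (y : V) : 0 ≤ lkd f m j y := by
  unfold lkd
  positivity

lemma lkd_cont {f : V → ℝ} (hf : ContDiff ℝ ∞ f) (m : ℝ) (j : Fin 3) :
    Continuous (lkd f m j) := by
  have h1 := (sm_pd hf j).continuous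
  have h2 := hf.continuous
  refine h1.abs.div (by fun_prop) fun y => ?_
  positivity

/-- The integral of the density along a short segment with bounded third derivative. -/
lemma seg {f : V → ℝ} (hf : ContDiff ℝ ∞ f) {m B lam : ℝ} (hm : 0 < m) (hl : 0 ≤ lam) (j : Fin 3)
    (y : V) (hB : ∀ s ∈ Icc 0 lam, |pd j (pd j (pd j f)) (y + s • (Pi.single j 1 : V))| ≤ B)
    (hB3 : B * lam ^ 3 ≤ m) :
    ∫⁻ s in Ioc 0 lam, ENNReal.ofReal (lkd f m j (y + s • (Pi.single j 1 : V)))
      ≤ ENNReal.ofReal (8 * m) := by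
  have hc : Continuous fun s : ℝ => lkd f m j (y + s • (Pi.single j 1 : V)) :=
    (lkd_cont hf m j).comp (by fun_prop)
  have h1 := one_var (f := fun s : ℝ => f (y + s • (Pi.single j 1 : V)))
    (f1 := fun s => pd j f (y + s • (Pi.single j 1 : V)))
    (f2 := fun s => pd j (pd j f) (y + s • (Pi.single j 1 : V)))
    (f3 := fun s => pd j (pd j (pd j f)) (y + s • (Pi.single j 1 : V)))
    (c := 0) (d := lam) (B := B) (m := m) hl hm (fun s => line_deriv hf j y s)
    (fun s => line_deriv (sm_pd hf j) j y s) (fun s => line_deriv (sm_pd (sm_pd hf j) j) j y s)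
    hB (by rwa [sub_zero])
  rw [← ofReal_integral_eq_lintegral_ofReal (hc.integrableOn_Ioc)
    (Eventually.of_forall fun s => lkd_nonneg _ _ _ _), ← intervalIntegral.integral_of_le hl]
  exact ENNReal.ofReal_le_ofReal h1

/-- One family of points with a good radius. -/
lemma fam {f : V → ℝ} (hf : ContDiff ℝ ∞ f) {m B lam W : ℝ} (hm : 0 < m) (hl : 0 < lam)
    (j : Fin 3) {A A' : Set V} (hA : MeasurableSet A)
    (hgood : ∀ y₀ ∈ A, ∀ z, ‖z - y₀‖ ≤ lam → |pd j (pd j (pd j f)) z| ≤ B)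
    (hB3 : B * lam ^ 3 ≤ m) (hA' : ∀ y₀ ∈ A, ∀ z, ‖z - y₀‖ ≤ lam → z ∈ A')
    (hW : volume A' ≤ ENNReal.ofReal W) :
    ∫⁻ y in A, ENNReal.ofReal (lkd f m j y) ≤ ENNReal.ofReal (8 * m * W / lam) := by
  have h1 := shift_avg (G := fun y => ENNReal.ofReal (lkd f m j y))
    ((lkd_cont hf m j).measurable.ennreal_ofReal) hA (A' := A') (Pi.single j 1 : V) hl
    (β := ENNReal.ofReal (8 * m)) (fun y s hs hyA => by
      have hn : ∀ a : ℝ, ‖a • (Pi.single j 1 : V)‖ = |a| := by
        intro a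
        rw [norm_smul, Real.norm_eq_abs]
        have : ‖(Pi.single j (1 : ℝ) : V)‖ = 1 := by
          rw [Pi.norm_single, norm_one]
        rw [this, mul_one]
      refine ⟨hA' _ hyA _ ?_, seg hf hm hl.le j y (B := B) (fun τ hτ => hgood _ hyA _ ?_) hB3⟩
      · have e : y - (y + s • (Pi.single j 1 : V)) = (-s) • (Pi.single j 1 : V) := by
          rw [neg_smul]; abel
        rw [e, hn, abs_neg, abs_of_pos hs.1]
        exact hs.2
      · have e : y + τ • (Pi.single j 1 : V) - (y + s • (Pi.single j 1 : V))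
            = (τ - s) • (Pi.single j 1 : V) := by
          rw [sub_smul]; abel
        rw [e, hn, abs_le]
        constructor <;> linarith [hs.1, hs.2, hτ.1, hτ.2])
  have h2 : ENNReal.ofReal lam * ∫⁻ y in A, ENNReal.ofReal (lkd f m j y)
      ≤ ENNReal.ofReal (8 * m) * ENNReal.ofReal W := h1.trans (mul_le_mul_right hW _)
  have h3 : ENNReal.ofReal lam ≠ 0 := (ENNReal.ofReal_pos.2 hl).ne'
  rw [mul_comm] at h2
  rw [ENNReal.ofReal_div_of_pos hl, ENNReal.le_div_iff_mul_le (Or.inl h3)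
    (Or.inl ENNReal.ofReal_ne_top), ENNReal.ofReal_mul (by positivity)]
  exact h2

/-- The leak at one time. -/
lemma slice_lk {v : V → V} (hv : SM v) {K : ℕ → ℝ} (hK : ∀ n, 0 < K n) {Q : Set V} {C ρ₁ : ℝ}
    (hC : 0 ≤ C) (H : ∀ ρ, 0 < ρ → ρ ≤ ρ₁ →
      volume (thickening ρ (badW K 1 ρ v ∩ Q)) ≤ ENNReal.ofReal (C * ρ ^ 2))
    {x : V} {s : ℝ} (hs : 0 < s) (hs1 : s ≤ 1) (hρ₁ : 2 * s ^ 4 ≤ ρ₁)
    (hQ : closedBall x (2 * s ^ 4) ⊆ Q) {m : ℝ} (hm : 0 < m) (i j : Fin 3) :
    ∫⁻ y in closedBall x (s ^ 4), ENNReal.ofReal (lkd (vc v i) m j y)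
      ≤ ENNReal.ofReal ((512 + 2048 * C) * (m + K 3) * s) := by
  have hK3 := hK 3
  obtain ⟨c, hcd⟩ : ∃ c, c = m / (m + K 3) := ⟨_, rfl⟩
  have hc0 : 0 < c := by rw [hcd]; positivity
  have hc1 : c < 1 := by
    rw [hcd, div_lt_one (by positivity)]
    linarith
  have hcm : c * (m + K 3) = m := by rw [hcd]; field_simp
  have hcK : K 3 * c ≤ m := by nlinarith
  obtain ⟨f, hfd⟩ : ∃ f, f = vc v i := ⟨_, rfl⟩
  rw [← hfd]
  have hf : ContDiff ℝ ∞ f := by rw [hfd]; exact sm_vc hv i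
  obtain ⟨r, hrd⟩ : ∃ r, r = s ^ 4 := ⟨_, rfl⟩
  rw [← hrd] at hρ₁ hQ ⊢
  have hr : 0 < r := by rw [hrd]; positivity
  -- the scales
  obtain ⟨ρ, hρd⟩ : ∃ ρ : ℕ → ℝ, ρ = fun n => r / 8 ^ n := ⟨_, rfl⟩
  obtain ⟨lam, hld⟩ : ∃ lam : ℕ → ℝ, lam = fun n => c * s ^ 7 / 32 ^ n := ⟨_, rfl⟩
  have hρ0 : ∀ n, 0 < ρ n := fun n => by rw [hρd]; positivity
  have hl0 : ∀ n, 0 < lam n := fun n => by rw [hld]; positivity
  have hρr : ∀ n, ρ n ≤ r := fun n => by
    rw [hρd]
    exact div_le_self hr.le (one_le_pow₀ (by norm_num))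
  have hρs : ∀ n, ρ (n + 1) = ρ n / 8 := fun n => by
    rw [hρd]
    simp only [pow_succ]
    field_simp
  have hlρ : ∀ n, lam n < ρ n := fun n => by
    rw [hld, hρd]
    simp only
    rw [div_lt_div_iff₀ (by positivity) (by positivity), hrd]
    have e1 : (8 : ℝ) ^ n ≤ 32 ^ n := pow_le_pow_left₀ (by norm_num) (by norm_num) n
    have e2 : s ^ 7 ≤ s ^ 4 := pow_le_pow_of_le_one hs.le hs1 (by norm_num)
    have e3 : c * s ^ 7 < s ^ 4 := by
      have : c * s ^ 7 < 1 * s ^ 7 := mul_lt_mul_of_pos_right hc1 (by positivity)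
      linarith
    calc c * s ^ 7 * 8 ^ n < s ^ 4 * 8 ^ n := mul_lt_mul_of_pos_right e3 (by positivity)
      _ ≤ s ^ 4 * 32 ^ n := mul_le_mul_of_nonneg_left e1 (by positivity)
  have hB3 : ∀ n, K 3 / ρ n ^ 5 * lam n ^ 3 ≤ m := fun n => by
    have e : K 3 / ρ n ^ 5 * lam n ^ 3 = K 3 * c * (c ^ 2 * s) := by
      rw [hρd, hld, hrd]
      simp only
      have h32 : ((32 : ℝ) ^ n) ^ 3 = ((8 : ℝ) ^ n) ^ 5 := by
        rw [← pow_mul, ← pow_mul, show (32 : ℝ) = 2 ^ 5 by norm_num, show (8 : ℝ) = 2 ^ 3 by norm_num,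
          ← pow_mul, ← pow_mul]
        congr 1
        ring
      rw [div_pow, div_pow, h32]
      field_simp
    rw [e]
    have h1 : c ^ 2 * s ≤ 1 := mul_le_one₀ (pow_le_one₀ hc0.le hc1.le) hs.le hs1
    calc K 3 * c * (c ^ 2 * s) ≤ K 3 * c * 1 := mul_le_mul_of_nonneg_left h1 (by positivity)
      _ ≤ m := by linarith
  -- the neighbourhoods of the bad sets
  obtain ⟨Th, hTd⟩ : ∃ Th : ℕ → Set V, Th = fun n => thickening (ρ n) (badW K 1 (ρ n) v ∩ Q) :=
    ⟨_, rfl⟩
  have hTo : ∀ n, IsOpen (Th n) := fun n => by rw [hTd]; exact isOpen_thickening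
  have hgood : ∀ n, ∀ y₀ ∈ closedBall x r \ Th n, ∀ z, ‖z - y₀‖ ≤ lam n →
      |pd j (pd j (pd j f)) z| ≤ K 3 / ρ n ^ 5 := by
    intro n y₀ hy₀ z hz
    by_contra hcon
    push Not at hcon
    apply hy₀.2
    rw [hTd]
    refine mem_thickening_iff.2 ⟨z, ⟨⟨[j, j, j], aI i, bI i, ?_⟩, hQ ?_⟩, ?_⟩
    · have e : vo v (aI i) (bI i) = f := by
        rw [hfd, vc_eq]
        rfl
      rw [e]
      simp only [List.length_cons, List.length_nil, mul_one]
      exact hcon
    · have h1 := mem_closedBall.1 hy₀.1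
      rw [mem_closedBall]
      have h2 := dist_triangle z y₀ x
      rw [dist_eq_norm z y₀] at h2
      have h3 := hlρ n
      have h4 := hρr n
      linarith
    · rw [dist_comm, dist_eq_norm]
      exact lt_of_le_of_lt hz (hlρ n)
  have hmc : m / c = m + K 3 := by
    rw [div_eq_iff hc0.ne']
    linarith
  have hmK : 0 < m + K 3 := by positivity
  -- the first family
  have h0 : ∫⁻ y in closedBall x r \ Th 0, ENNReal.ofReal (lkd f m j y)
      ≤ ENNReal.ofReal (512 * (m + K 3) * s) := by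
    refine (fam hf hm (hl0 0) j (isClosed_closedBall.measurableSet.diff (hTo 0).measurableSet)
      (hgood 0) (hB3 0) (A' := closedBall x (2 * r)) (W := (4 * r) ^ 3) ?_ ?_).trans ?_
    · intro y₀ hy₀ z hz
      have h1 := mem_closedBall.1 hy₀.1
      rw [mem_closedBall]
      have h2 := dist_triangle z y₀ x
      rw [dist_eq_norm z y₀] at h2
      have h3 := hlρ 0
      have h4 := hρr 0
      linarith
    · rw [Real.volume_pi_closedBall _ (by positivity), Fintype.card_fin]
      apply le_of_eq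
      congr 1
      ring
    · apply ENNReal.ofReal_le_ofReal
      have e : 8 * m * (4 * r) ^ 3 / lam 0 = 512 * (m / c) * s ^ 5 := by
        rw [hld, hrd]
        simp only [pow_zero, div_one]
        field_simp
        ring
      rw [e, hmc]
      exact mul_le_mul_of_nonneg_left (pow_le_of_le_one hs.le hs1 (by norm_num)) (by positivity)
  -- the other families
  have hn : ∀ n, ∫⁻ y in (closedBall x r ∩ Th n) \ Th (n + 1), ENNReal.ofReal (lkd f m j y)
      ≤ ENNReal.ofReal (1024 * C * (m + K 3) * s * (1 / 2) ^ n) := by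
    intro n
    refine (fam hf hm (hl0 (n + 1)) j ((isClosed_closedBall.measurableSet.inter
      (hTo n).measurableSet).diff (hTo (n + 1)).measurableSet)
      (fun y₀ hy₀ => hgood (n + 1) y₀ ⟨hy₀.1.1, hy₀.2⟩) (hB3 (n + 1))
      (A' := thickening (2 * ρ n) (badW K 1 (2 * ρ n) v ∩ Q)) (W := C * (2 * ρ n) ^ 2) ?_ ?_).trans ?_
    · intro y₀ hy₀ z hz
      have h1 := hy₀.1.2
      rw [hTd] at h1
      obtain ⟨w, ⟨hw1, hw2⟩, hd⟩ := mem_thickening_iff.1 h1
      refine mem_thickening_iff.2 ⟨w, ⟨badW_mono hK one_pos (hρ0 n) (by linarith [hρ0 n]) v hw1,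
        hw2⟩, ?_⟩
      have h2 := dist_triangle z y₀ w
      rw [dist_eq_norm z y₀] at h2
      have h3 := hlρ (n + 1)
      have h4 := hρs n
      have h5 := hρ0 n
      linarith
    · exact H _ (by linarith [hρ0 n]) (by linarith [hρr n])
    · apply ENNReal.ofReal_le_ofReal
      apply le_of_eq
      have e8 : (8 : ℝ) ^ n = 2 ^ n * 2 ^ n * 2 ^ n := by
        rw [← mul_pow, ← mul_pow]; norm_num
      have e32 : (32 : ℝ) ^ n = 2 ^ n * 2 ^ n * 2 ^ n * 2 ^ n * 2 ^ n := by
        rw [← mul_pow, ← mul_pow, ← mul_pow, ← mul_pow]; norm_num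
      have e : 8 * m * (C * (2 * ρ n) ^ 2) / lam (n + 1) = 1024 * C * (m / c) * s * (1 / 2) ^ n := by
        rw [hld, hρd, hrd]
        simp only [pow_succ (32 : ℝ), one_div_pow, e8, e32]
        field_simp
        ring
      rw [e, hmc]
  -- the remainder
  have hTm : ∀ n, Th (n + 1) ⊆ Th n := by
    intro n y hy
    rw [hTd] at hy ⊢
    obtain ⟨w, ⟨hw1, hw2⟩, hd⟩ := mem_thickening_iff.1 hy
    have h4 := hρs n
    have h5 := hρ0 n
    exact mem_thickening_iff.2 ⟨w, ⟨badW_mono hK one_pos (hρ0 _) (by linarith) v hw1, hw2⟩,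
      by linarith⟩
  have hsplit : ∀ n, ∫⁻ y in closedBall x r, ENNReal.ofReal (lkd f m j y)
      ≤ ENNReal.ofReal (512 * (m + K 3) * s)
        + ENNReal.ofReal (1024 * C * (m + K 3) * s * (2 - 2 * (1 / 2) ^ n))
        + ∫⁻ y in closedBall x r ∩ Th n, ENNReal.ofReal (lkd f m j y) := by
    intro n
    induction n with
    | zero =>
      rw [pow_zero, mul_one, sub_self, mul_zero, ENNReal.ofReal_zero, add_zero]
      calc ∫⁻ y in closedBall x r, ENNReal.ofReal (lkd f m j y)
          = (∫⁻ y in closedBall x r \ Th 0, ENNReal.ofReal (lkd f m j y))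
            + ∫⁻ y in closedBall x r ∩ Th 0, ENNReal.ofReal (lkd f m j y) := by
            rw [add_comm, lintegral_inter_add_sdiff _ _ (hTo 0).measurableSet]
        _ ≤ _ := by gcongr
    | succ n ih =>
      have h1 : ∫⁻ y in closedBall x r ∩ Th n, ENNReal.ofReal (lkd f m j y)
          = (∫⁻ y in closedBall x r ∩ Th (n + 1), ENNReal.ofReal (lkd f m j y))
            + ∫⁻ y in (closedBall x r ∩ Th n) \ Th (n + 1), ENNReal.ofReal (lkd f m j y) := by
        rw [← lintegral_inter_add_sdiff _ (closedBall x r ∩ Th n) (hTo (n + 1)).measurableSet]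
        congr 2
        rw [inter_assoc, inter_eq_right.2 (hTm n)]
      have h2 : ENNReal.ofReal (1024 * C * (m + K 3) * s * (2 - 2 * (1 / 2) ^ (n + 1)))
          = ENNReal.ofReal (1024 * C * (m + K 3) * s * (2 - 2 * (1 / 2) ^ n))
            + ENNReal.ofReal (1024 * C * (m + K 3) * s * (1 / 2) ^ n) := by
        have e1 : ((1 : ℝ) / 2) ^ n ≤ 1 := pow_le_one₀ (by norm_num) (by norm_num)
        rw [← ENNReal.ofReal_add (mul_nonneg (by positivity) (by linarith)) (by positivity)]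
        congr 1
        rw [pow_succ]
        ring
      rw [h2]
      refine ih.trans ?_
      rw [h1]
      calc _ ≤ ENNReal.ofReal (512 * (m + K 3) * s)
          + ENNReal.ofReal (1024 * C * (m + K 3) * s * (2 - 2 * (1 / 2) ^ n))
          + ((∫⁻ y in closedBall x r ∩ Th (n + 1), ENNReal.ofReal (lkd f m j y))
            + ENNReal.ofReal (1024 * C * (m + K 3) * s * (1 / 2) ^ n)) := by
            gcongr
            exact hn n
        _ = _ := by ring
  -- the limit
  obtain ⟨M, hM⟩ := (isCompact_closedBall x r).exists_bound_of_continuousOn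
    (lkd_cont hf m j).continuousOn
  have hM0 : 0 ≤ M := (norm_nonneg _).trans (hM x (mem_closedBall_self hr.le))
  have hrem : ∀ n, ∫⁻ y in closedBall x r ∩ Th n, ENNReal.ofReal (lkd f m j y)
      ≤ ENNReal.ofReal (M * (C * (ρ n) ^ 2)) := by
    intro n
    calc ∫⁻ y in closedBall x r ∩ Th n, ENNReal.ofReal (lkd f m j y)
        ≤ ∫⁻ _ in closedBall x r ∩ Th n, ENNReal.ofReal M := by
          refine setLIntegral_mono measurable_const fun y hy => ENNReal.ofReal_le_ofReal ?_
          exact (Real.le_norm_self _).trans (hM y hy.1)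
      _ = ENNReal.ofReal M * volume (closedBall x r ∩ Th n) := setLIntegral_const _ _
      _ ≤ ENNReal.ofReal M * ENNReal.ofReal (C * (ρ n) ^ 2) := by
          gcongr
          refine (measure_mono inter_subset_right).trans ?_
          rw [hTd]
          exact H _ (hρ0 n) (by linarith [hρr n])
      _ = _ := by rw [ENNReal.ofReal_mul hM0]
  have hlim : Tendsto (fun n => ENNReal.ofReal (512 * (m + K 3) * s)
      + ENNReal.ofReal (1024 * C * (m + K 3) * s * 2) + ENNReal.ofReal (M * (C * (ρ n) ^ 2))) atTop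
      (𝓝 (ENNReal.ofReal (512 * (m + K 3) * s)
      + ENNReal.ofReal (1024 * C * (m + K 3) * s * 2) + ENNReal.ofReal (M * (C * 0 ^ 2)))) := by
    refine Tendsto.add tendsto_const_nhds ((ENNReal.continuous_ofReal.tendsto _).comp ?_)
    have h1 : Tendsto ρ atTop (𝓝 0) := by
      rw [hρd]
      have := (tendsto_pow_atTop_nhds_zero_of_lt_one (r := (1 / 8 : ℝ)) (by norm_num)
        (by norm_num)).const_mul r
      simp only [mul_zero] at this
      refine this.congr fun n => ?_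
      rw [one_div_pow]
      ring
    exact ((h1.pow 2).const_mul C).const_mul M
  have hfin := ge_of_tendsto' hlim fun n => (hsplit n).trans (by
    gcongr
    · have : (0 : ℝ) ≤ (1 / 2) ^ n := by positivity
      linarith
    · exact hrem n)
  refine hfin.trans ?_
  rw [← ENNReal.ofReal_add (by positivity) (by positivity),
    ← ENNReal.ofReal_add (by positivity) (by positivity)]
  apply ENNReal.ofReal_le_ofReal
  apply le_of_eq
  ring

end Pool.Agent.H1TV
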