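import Pool.Agent.H1TV.DefsP
import Pool.Agent.H1TV.Lk

/-!
Project TV: nearly straight vortex lines, up to an exceptional density. Statements.
-/

set_option autoImplicit false

open MeasureTheory Set Metric
open scoped ContDiff
open H459R3.NS Pool.Agent.W268.NS Pool.Agent.Q67.VD

namespace Pool.Agent.H1TV

open Pool.Agent.Q85.CC Pool.Agent.Q85.CL Pool.Agent.Q85.VL Pool.Agent.H2CV

/-- The arcs of the vortex lines inside of `D` are nearly straight, up to the integral of `k`. -/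
def StrA (v : V → V) (D : Set V) (ε : ℝ) (k : V → ℝ) : Prop :=
  ∀ (γ : ℝ → V) (l : ℝ), 0 < l → (∀ s ∈ Icc (0 : ℝ) l, γ s ∈ D ∧
    HasDerivWithinAt γ ((len (vort v (γ s)))⁻¹ • vort v (γ s)) (Icc 0 l) s) →
      (1 - ε - ∫ s in (0 : ℝ)..l, k (γ s)) * l ≤ len (γ l - γ 0)

/-- The arcs of the vortex lines inside of `D` are nearly straight, up to the integral of a
continuous function `k ≥ 0` with `∫ k |ω| ≤ ε`. -/
def StrK (v : V → V) (D : Set V) (ε : ℝ) : Prop :=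
  ∃ k : V → ℝ, Continuous k ∧ (∀ y, 0 ≤ k y) ∧ IntegrableOn (fun y => k y * om v y) D ∧
    ∫ y in D, k y * om v y ≤ ε ∧ StrA v D ε k

/-- The flux inequality with an exceptional density `k`. -/
def StmFlxK : Prop := ∃ C : ℝ, 0 < C ∧ ∀ (v : V → V) (x : V) (R m ℓ H A L D : ℝ) (h k χ : V → ℝ)
  (Q : Set V), SM v →
  0 < R → 0 < m → 0 < ℓ → 0 < H → 0 ≤ A → (∀ y z, |h y - h z| ≤ L * ‖y - z‖) →
  (∀ y z, |k y - k z| ≤ L * ‖y - z‖) → (∀ y, 0 ≤ h y) → (∀ y, 0 ≤ k y) →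
  ContDiff ℝ 1 χ → (∀ y, 0 ≤ χ y ∧ χ y ≤ 1) → (∀ y, χ y ≠ 0 → ‖y - x‖ ≤ R / 2) →
  (∀ y j, |pd j χ y| ≤ D) → MeasurableSet Q → Q ⊆ closedBall x R → (∀ y, χ y ≠ 0 → y ∈ Q) →
  (∀ (γ : ℝ → V) (l : ℝ), 0 < l → (∀ s ∈ Icc (0 : ℝ) l, γ s ∈ Dm v x R m ∧
    HasDerivWithinAt γ ((len (vort v (γ s)))⁻¹ • vort v (γ s)) (Icc 0 l) s) →
      H / ℓ * l + ∫ s in (0 : ℝ)..l, h (γ s) ≤ 2 * H + A * ∫ s in (0 : ℝ)..l, k (γ s)) →
    ∫ y, χ y * (kap m v y * (h y * om v y))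
      ≤ A * (∫ y in Dm v x R m, k y * om v y)
        + C * H * ((∫ y in {y | pd 0 χ y ≠ 0 ∨ pd 1 χ y ≠ 0 ∨ pd 2 χ y ≠ 0}, D * om v y)
          + ∫ y in Q, ∑ i, ∑ j, lkd (vc v i) m j y)

end Pool.Agent.H1TV
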