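import Pool.Agent.H1TV.Asm
import Pool.Agent.Q85.CL.MainD

/-!
Project TV: the vortex lines turn near the singular points (with the local theorem as a
hypothesis).
-/

set_option autoImplicit false

open MeasureTheory Set Metric Filter Topology
open scoped ContDiff
open H459R3.NS Pool.Agent.W268.NS Pool.Agent.Q67.VD

namespace Pool.Agent.H1TV

open Pool.Agent.Q85.CC Pool.Agent.Q85.CL Pool.Agent.Q85.VL Pool.Agent.H2CV

/-- A curve of length `l` along a vortex line with unit speed, inside of the part of the cube where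
the vorticity is larger than `M`, and the direction of the vorticity at its ends differs by more
than `ε`. -/
def TArc (v : V → V) (a : V) (R M ε : ℝ) : Prop :=
  ∃ (γ : ℝ → V) (l : ℝ), 0 < l ∧ (∀ s ∈ Icc (0 : ℝ) l, (‖γ s - a‖ ≤ R ∧ M < om v (γ s)) ∧
    HasDerivWithinAt γ (xi v (γ s)) (Icc 0 l) s) ∧ ε < len (xi v (γ l) - xi v (γ 0))

/-- The vortex lines turn near the point `a`. -/
def TConc (T : ℝ) (Ω : Set V) (u : ℝ → V → V) (a : V) : Prop :=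
  ∃ ε : ℝ, 0 < ε ∧ ∀ M T₀ R : ℝ, 0 ≤ T₀ → T₀ < T → 0 < R → closedBall a R ⊆ Ω →
    ∃ t ∈ Ioo T₀ T, TArc (u t) a R M ε

lemma TArc.mono {v : V → V} {a : V} {R R' M M' ε : ℝ} (h : TArc v a R M ε) (hR : R ≤ R')
    (hM : M' ≤ M) : TArc v a R' M' ε := by
  obtain ⟨γ, l, hl, h1, h2⟩ := h
  exact ⟨γ, l, hl, fun s hs => ⟨⟨(h1 s hs).1.1.trans hR, hM.trans_lt (h1 s hs).1.2⟩, (h1 s hs).2⟩,
    h2⟩

lemma turn_of_not {v : V → V} {a : V} {R M ε : ℝ} (h : ¬ TArc v a R M ε) :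
    Turn v (Dm v a R M) ε := by
  intro p q l ⟨hl, γ, h1, h2, h3⟩
  by_contra hcon
  refine h ⟨γ, l, hl, fun s hs => ⟨(h3 s hs).1, (h3 s hs).2⟩, ?_⟩
  rw [h1, h2]
  exact not_le.1 hcon

/-- The scaled field has the same lines. -/
lemma TArc.scale {v w : V → V} {c : ℝ} (hc : 0 < c) {a : V} {R M ε : ℝ}
    (h : ∀ y ∈ closedBall a R, ∀ᶠ z in 𝓝 y, w z = c • v z) (hw : TArc w a R (c * M) ε) :
    TArc v a R M ε := by
  obtain ⟨γ, l, hl, h1, h2⟩ := hw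
  have hmem : ∀ s ∈ Icc (0 : ℝ) l, γ s ∈ closedBall a R := fun s hs => by
    rw [mem_closedBall, dist_eq_norm]
    exact (h1 s hs).1.1
  have hxi : ∀ y ∈ closedBall a R, xi w y = xi v y := by
    intro y hy
    unfold xi
    rw [om_evD hc.le (h y hy), vort_evD (h y hy), smul_smul, mul_inv]
    congr 1
    field_simp
  refine ⟨γ, l, hl, fun s hs => ⟨⟨(h1 s hs).1.1, ?_⟩, ?_⟩, ?_⟩
  · have h3 := (h1 s hs).1.2
    rw [om_evD hc.le (h _ (hmem s hs))] at h3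
    exact lt_of_mul_lt_mul_left h3 hc.le
  · rw [← hxi _ (hmem s hs)]
    exact (h1 s hs).2
  · rw [← hxi _ (hmem l ⟨hl.le, le_rfl⟩), ← hxi _ (hmem 0 ⟨le_rfl, hl.le⟩)]
    exact h2

set_option maxHeartbeats 1600000 in
/-- The local theorem in open sets, general viscosity. -/
theorem tconc_DH (hTv : StmTv) (hDom : StmDom) {ν T E : ℝ} {Ω : Set V} {u : ℝ → V → V}
    {p : ℝ → V → ℝ} (hν : 0 < ν) (h : DSl ν T E Ω u p) {a : V} (ha : a ∈ Ω) (hs : Sing T u a) :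
    TConc T Ω u a := by
  have hT : 0 < T := by
    obtain ⟨t, ht, -⟩ := hs 0 1 one_pos
    exact ht.1.trans ht.2
  have hνi : 0 < ν⁻¹ := inv_pos.2 hν
  by_contra hcon
  unfold TConc at hcon
  push Not at hcon
  obtain ⟨R₁, hR₁, hsub₁⟩ := nhds_basis_closedBall.mem_iff.1 (h.openO.mem_nhds ha)
  obtain ⟨E', v, q, hL, hv⟩ := hDom ν T E Ω u p hν hT h a R₁ hR₁ hsub₁
  have hnb : ¬ ∃ B δ : ℝ, 0 < δ ∧ ∀ t ∈ Ioo 0 T, T - δ < t → ∀ x, ‖x - a‖ ≤ δ → ‖u t x‖ ≤ B := by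
    rintro ⟨B, δ, hδ, h⟩
    obtain ⟨t, ht, htδ, x, hx, hB⟩ := hs B δ hδ
    exact absurd (h t ht htδ x hx) (not_le.2 hB)
  refine hnb (back hν hR₁ hT hv (hTv (ν * T) E' (ball a R₁) v q (mul_pos hν hT) hL a
    (mem_ball_self hR₁) ?_))
  intro ε hε
  obtain ⟨M, T₀, R, hT0, hT₀, hR, hsub, hle⟩ := hcon ε hε
  refine ⟨ν⁻¹ * max M 1, ν * T₀, min R (R₁ / 2), mul_pos hνi (lt_max_of_lt_right one_pos),
    mul_lt_mul_of_pos_left hT₀ hν, lt_min hR (by positivity), fun t' ht' ht'0 => ?_⟩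
  obtain ⟨t, htd⟩ : ∃ t, t = t' / ν := ⟨_, rfl⟩
  have htν : ν * t = t' := by rw [htd]; field_simp
  have ht0 : 0 < t := by rw [htd]; positivity
  have ht : t ∈ Ioo T₀ T := by
    refine ⟨?_, ?_⟩
    · exact lt_of_mul_lt_mul_left (by rw [htν]; exact ht'.1) hν.le
    · exact lt_of_mul_lt_mul_left (by rw [htν]; exact ht'.2) hν.le
  have hI : t ∈ Ioo 0 T := ⟨ht0, ht.2⟩
  refine turn_of_not fun hA => hle t ht ?_
  have hev0 : ∀ y ∈ closedBall a (min R (R₁ / 2)), ∀ᶠ z in 𝓝 y, v t' z = ν⁻¹ • u t z := by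
    intro y hy
    refine ball_ev (a := a) (R := R₁) (fun z hz => ?_) ?_
    · rw [← hv t hI z hz, htν]
    · refine closedBall_subset_ball ?_ hy
      exact (min_le_right _ _).trans_lt (by linarith)
  exact (hA.scale hνi hev0).mono (min_le_left _ _) (le_max_left _ _)

lemma TConc.univ {T r : ℝ} {u : ℝ → V → V} {a : V} (hr : 0 < r) (h : TConc T (ball a r) u a) :
    TConc T univ u a := by
  obtain ⟨ε, hε, h⟩ := h
  refine ⟨ε, hε, fun M T₀ R hT0 hT₀ hR _ => ?_⟩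
  obtain ⟨t, ht, hA⟩ := h M T₀ (min R (r / 2)) hT0 hT₀ (lt_min hR (by positivity))
    (closedBall_subset_ball ((min_le_right _ _).trans_lt (by linarith)))
  exact ⟨t, ht, hA.mono (min_le_left _ _) le_rfl⟩

end Pool.Agent.H1TV
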