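import Mathlib

/-!
Project TV: after leaving the region nothing is gained, second version.
-/

set_option autoImplicit false

open MeasureTheory Set Metric Filter Topology
open scoped ENNReal NNReal

namespace Pool.Agent.H1TV

/-- After leaving the region, or after a long time, nothing is gained. -/
lemma gainK {S δ₀ H B P Λ : ℝ} {qq dd : ℝ → ℝ} (hS : 0 < S) (hB : 0 ≤ B) (hH : 0 ≤ H)
    (hΛ : 0 < Λ) (hδ₀ : 0 ≤ δ₀) (hδS : H ≤ δ₀ * (S / 2)) (hP1 : 4 * B ≤ P)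
    (hP2 : 8 * Λ * B * S ≤ P)
    (hc : ContinuousOn qq (Icc 0 S)) (h0 : ∀ s ∈ Icc 0 S, qq s ≤ B)
    (hd : ∀ s ∈ Icc 0 S, 0 ≤ dd s ∧ dd s ≤ 1)
    (hdL : ∀ s ∈ Icc 0 S, ∀ s' ∈ Icc 0 S, |dd s - dd s'| ≤ Λ * |s - s'|)
    (hA : ∀ σ : ℝ, 0 < σ → σ ≤ S → (∀ s ∈ Icc 0 σ, 0 < dd s) →
      ∫ s in (0 : ℝ)..σ, qq s ≤ H - δ₀ * σ) :
    (∀ σ ∈ Icc 0 S, ∫ s in (0 : ℝ)..σ, (qq s - P * (1 - dd s)) ≤ H) ∧
      ∀ σ ∈ Icc (S / 2) S, ∃ σ' ∈ Icc 0 (S / 2),
        ∫ s in (0 : ℝ)..σ, (qq s - P * (1 - dd s))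
          ≤ ∫ s in (0 : ℝ)..σ', (qq s - P * (1 - dd s)) := by
  have hP : 0 ≤ P := by linarith
  have hdc : ContinuousOn dd (Icc 0 S) := by
    have : LipschitzOnWith ⟨Λ, hΛ.le⟩ dd (Icc 0 S) := LipschitzOnWith.of_dist_le_mul
      fun s hs s' hs' => by
        rw [Real.dist_eq, Real.dist_eq]
        exact hdL s hs s' hs'
    exact this.continuousOn
  have hqc : ContinuousOn (fun s => qq s - P * (1 - dd s)) (Icc 0 S) :=
    hc.sub (continuousOn_const.mul (continuousOn_const.sub hdc))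
  have hhi : ∀ a b : ℝ, a ∈ Icc 0 S → b ∈ Icc 0 S → IntervalIntegrable qq volume a b :=
    fun a b ha hb => (hc.mono (uIcc_subset_Icc ha hb)).intervalIntegrable
  have hqi : ∀ a b : ℝ, a ∈ Icc 0 S → b ∈ Icc 0 S →
      IntervalIntegrable (fun s => qq s - P * (1 - dd s)) volume a b :=
    fun a b ha hb => (hqc.mono (uIcc_subset_Icc ha hb)).intervalIntegrable
  have h0S : (0 : ℝ) ∈ Icc 0 S := ⟨le_rfl, hS.le⟩
  have hq1 : ∀ s ∈ Icc 0 S, qq s - P * (1 - dd s) ≤ qq s := by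
    intro s hs
    have := mul_nonneg hP (show 0 ≤ 1 - dd s by linarith [(hd s hs).2])
    linarith
  obtain ⟨J, hJ⟩ : ∃ J : ℝ → ℝ, J = fun σ => ∫ s in (0 : ℝ)..σ, (qq s - P * (1 - dd s)) :=
    ⟨_, rfl⟩
  have hJ0 : J 0 = 0 := by rw [hJ]; exact intervalIntegral.integral_same
  have hJadd : ∀ a ∈ Icc 0 S, ∀ b ∈ Icc 0 S,
      J b = J a + ∫ s in a..b, (qq s - P * (1 - dd s)) := by
    intro a ha b hb
    rw [hJ]
    exact (intervalIntegral.integral_add_adjacent_intervals (hqi 0 a h0S ha) (hqi a b ha hb)).symm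
  have hJle : ∀ a ∈ Icc 0 S, ∀ b ∈ Icc 0 S, a ≤ b →
      ∫ s in a..b, (qq s - P * (1 - dd s)) ≤ (b - a) * B := by
    intro a ha b hb hab
    have h1 : ∫ s in a..b, (qq s - P * (1 - dd s)) ≤ ∫ _s in a..b, B :=
      intervalIntegral.integral_mono_on hab (hqi a b ha hb) (by simp) fun s hs => by
        have hsS : s ∈ Icc 0 S := ⟨ha.1.trans hs.1, hs.2.trans hb.2⟩
        exact (hq1 s hsS).trans (h0 s hsS)
    rwa [intervalIntegral.integral_const, smul_eq_mul] at h1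
  have hin : ∀ σ : ℝ, 0 < σ → σ ≤ S → (∀ s ∈ Icc 0 σ, 0 < dd s) → J σ ≤ H - δ₀ * σ := by
    intro σ h1 h2 h3
    refine le_trans ?_ (hA σ h1 h2 h3)
    rw [hJ]
    exact intervalIntegral.integral_mono_on h1.le (hqi 0 σ h0S ⟨h1.le, h2⟩)
      (hhi 0 σ h0S ⟨h1.le, h2⟩) fun s hs => hq1 s ⟨hs.1, hs.2.trans h2⟩
  have goal : (∀ σ ∈ Icc 0 S, J σ ≤ H) ∧
      ∀ σ ∈ Icc (S / 2) S, ∃ σ' ∈ Icc 0 (S / 2), J σ ≤ J σ' := by
    have hlate : ∀ σ : ℝ, S / 2 ≤ σ → H - δ₀ * σ ≤ 0 := fun σ hσ => by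
      have := mul_le_mul_of_nonneg_left hσ hδ₀
      linarith
    have hearly : ∀ σ : ℝ, 0 ≤ σ → H - δ₀ * σ ≤ H := fun σ hσ => by
      have := mul_nonneg hδ₀ hσ
      linarith
    have h0m : (0 : ℝ) ∈ Icc 0 (S / 2) := ⟨le_rfl, by positivity⟩
    -- the exit
    obtain ⟨Z, hZ⟩ : ∃ Z : Set ℝ, Z = {s | s ∈ Icc 0 S ∧ dd s ≤ 0} := ⟨_, rfl⟩
    have hZc : IsClosed Z := by
      have : Z = Icc 0 S ∩ dd ⁻¹' (Iic 0) := by rw [hZ]; rfl
      rw [this]
      exact hdc.preimage_isClosed_of_isClosed isClosed_Icc isClosed_Iic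
    rcases Z.eq_empty_or_nonempty with hZe | hZne
    · have h1 : ∀ s ∈ Icc 0 S, 0 < dd s := by
        intro s hs
        by_contra hcon
        have : s ∈ Z := by rw [hZ]; exact ⟨hs, not_lt.1 hcon⟩
        rw [hZe] at this
        exact this
      have h2 : ∀ σ : ℝ, 0 < σ → σ ≤ S → J σ ≤ H - δ₀ * σ := fun σ hσ hσS =>
        hin σ hσ hσS fun s hs => h1 s ⟨hs.1, hs.2.trans hσS⟩
      refine ⟨fun σ hσ => ?_, fun σ hσ => ⟨0, h0m, ?_⟩⟩
      · rcases hσ.1.eq_or_lt with h3 | h3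
        · rw [← h3, hJ0]
          exact hH
        · exact (h2 σ h3 hσ.2).trans (hearly σ hσ.1)
      · rw [hJ0]
        exact (h2 σ (by linarith [hσ.1]) hσ.2).trans (hlate σ hσ.1)
    · have hZb : BddBelow Z := ⟨0, fun s hs => by rw [hZ] at hs; exact hs.1.1⟩
      obtain ⟨s₁, hs₁⟩ : ∃ s₁, s₁ = sInf Z := ⟨_, rfl⟩
      have hs₁Z : s₁ ∈ Z := by rw [hs₁]; exact hZc.csInf_mem hZne hZb
      have hs₁S : s₁ ∈ Icc 0 S := by rw [hZ] at hs₁Z; exact hs₁Z.1
      have hds₁ : dd s₁ ≤ 0 := by rw [hZ] at hs₁Z; exact hs₁Z.2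
      have hpos : ∀ s, 0 ≤ s → s < s₁ → 0 < dd s := by
        intro s hs hss
        by_contra hcon
        have : s ∈ Z := by
          rw [hZ]
          exact ⟨⟨hs, hss.le.trans hs₁S.2⟩, not_lt.1 hcon⟩
        have h2 := csInf_le hZb this
        rw [← hs₁] at h2
        linarith
      have hbef : ∀ σ, 0 < σ → σ < s₁ → J σ ≤ H - δ₀ * σ := fun σ h1 h2 =>
        hin σ h1 (h2.le.trans hs₁S.2) fun s hs => hpos s hs.1 (hs.2.trans_lt h2)
      have hs₁J : J s₁ ≤ H - δ₀ * s₁ := by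
        rcases hs₁S.1.eq_or_lt with h2 | h2
        · rw [← h2, hJ0, mul_zero, sub_zero]
          exact hH
        refine le_of_forall_pos_le_add fun e he => ?_
        have hBd : 0 < B + δ₀ + 1 := by linarith
        obtain ⟨τ, hτd⟩ : ∃ τ, τ = max (s₁ / 2) (s₁ - e / (B + δ₀ + 1)) := ⟨_, rfl⟩
        have hτ1 : s₁ / 2 ≤ τ := by rw [hτd]; exact le_max_left _ _
        have hτ2 : s₁ - e / (B + δ₀ + 1) ≤ τ := by rw [hτd]; exact le_max_right _ _
        have hτ3 : τ < s₁ := by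
          rw [hτd]
          exact max_lt (by linarith) (by linarith [div_pos he hBd])
        have hτ0 : 0 < τ := by linarith
        have hτS : τ ∈ Icc 0 S := ⟨hτ0.le, hτ3.le.trans hs₁S.2⟩
        have h3 := hbef τ hτ0 hτ3
        have h4 := hJadd τ hτS s₁ hs₁S
        have h5 := hJle τ hτS s₁ hs₁S hτ3.le
        have h6 : (s₁ - τ) * (B + δ₀ + 1) ≤ e := by
          have h7 : s₁ - τ ≤ e / (B + δ₀ + 1) := by linarith
          rwa [le_div_iff₀ hBd] at h7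
        nlinarith
      -- after the exit
      have haft : ∀ σ ∈ Icc s₁ S, J σ ≤ J s₁ := by
        intro σ hσ
        have hσS : σ ∈ Icc 0 S := ⟨hs₁S.1.trans hσ.1, hσ.2⟩
        obtain ⟨e, he⟩ : ∃ e, e = 1 / (2 * Λ) := ⟨_, rfl⟩
        have he0 : 0 < e := by rw [he]; positivity
        have hΛe : Λ * e = 1 / 2 := by rw [he]; field_simp
        have hlow : ∀ s ∈ Icc 0 S, s₁ ≤ s → s ≤ s₁ + e → qq s - P * (1 - dd s) ≤ -(P / 4) := by
          intro s hs h1 h2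
          have h3 := (abs_le.1 (hdL s hs s₁ hs₁S)).2
          rw [abs_of_nonneg (by linarith)] at h3
          have h4 : Λ * (s - s₁) ≤ Λ * e := mul_le_mul_of_nonneg_left (by linarith) hΛ.le
          have h5 : dd s ≤ 1 / 2 := by linarith
          have h6 : P * (1 / 2) ≤ P * (1 - dd s) := mul_le_mul_of_nonneg_left (by linarith) hP
          have h7 := h0 s hs
          linarith
        have hadd := hJadd s₁ hs₁S σ hσS
        rcases le_total σ (s₁ + e) with h1 | h1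
        · have h2 : ∫ s in s₁..σ, (qq s - P * (1 - dd s)) ≤ ∫ _s in s₁..σ, (0 : ℝ) :=
            intervalIntegral.integral_mono_on hσ.1 (hqi s₁ σ hs₁S hσS) (by simp) fun s hs => by
              have := hlow s ⟨hs₁S.1.trans hs.1, hs.2.trans hσS.2⟩ hs.1 (hs.2.trans h1)
              linarith
          rw [intervalIntegral.integral_zero] at h2
          linarith
        · have heS : s₁ + e ∈ Icc 0 S := ⟨by linarith [hs₁S.1], by linarith [hσ.2]⟩
          have hadd1 := hJadd s₁ hs₁S _ heS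
          have hadd2 := hJadd _ heS σ hσS
          have h2 : ∫ s in s₁..(s₁ + e), (qq s - P * (1 - dd s)) ≤ ∫ _s in s₁..(s₁ + e), -(P / 4) :=
            intervalIntegral.integral_mono_on (by linarith) (hqi s₁ _ hs₁S heS) (by simp)
              fun s hs => hlow s ⟨hs₁S.1.trans hs.1, hs.2.trans heS.2⟩ hs.1 hs.2
          have h3 := hJle _ heS σ hσS h1
          rw [intervalIntegral.integral_const, smul_eq_mul] at h2
          have h4 : (σ - (s₁ + e)) * B ≤ S * B :=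
            mul_le_mul_of_nonneg_right (by linarith [hσ.2, hs₁S.1]) hB
          have h5 : 8 * (Λ * e) * B * S ≤ P * e := by
            have := mul_le_mul_of_nonneg_right hP2 he0.le
            linarith
          rw [hΛe] at h5
          have h6 : (s₁ + e - s₁) * -(P / 4) = -(P * e / 4) := by ring
          rw [h6] at h2
          linarith
      refine ⟨fun σ hσ => ?_, fun σ hσ => ?_⟩
      · rcases lt_or_ge σ s₁ with h1 | h1
        · rcases hσ.1.eq_or_lt with h3 | h3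
          · rw [← h3, hJ0]
            exact hH
          · exact (hbef σ h3 h1).trans (hearly σ hσ.1)
        · exact (haft σ ⟨h1, hσ.2⟩).trans (hs₁J.trans (hearly s₁ hs₁S.1))
      · have hσ0 : 0 < σ := by linarith [hσ.1]
        rcases le_or_gt s₁ (S / 2) with h1 | h1
        · exact ⟨s₁, ⟨hs₁S.1, h1⟩, haft σ ⟨h1.trans hσ.1, hσ.2⟩⟩
        · refine ⟨0, h0m, ?_⟩
          rw [hJ0]
          rcases lt_or_ge σ s₁ with h2 | h2
          · exact (hbef σ hσ0 h2).trans (hlate σ hσ.1)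
          · exact (haft σ ⟨h2, hσ.2⟩).trans (hs₁J.trans (hlate s₁ h1.le))
  rw [hJ] at goal
  exact goal

end Pool.Agent.H1TV
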