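import Pool.Agent.H1TV.Pot

/-!
Project TV: the maximal gain along the trajectories of a Lipschitz field, second version.
-/

set_option autoImplicit false

open MeasureTheory Set Metric Filter Topology
open scoped ENNReal NNReal

namespace Pool.Agent.H1TV

variable {E : Type*} [NormedAddCommGroup E] [NormedSpace ℝ E]

/-- The maximal gain along the trajectories. -/
lemma potK [CompleteSpace E] {N : E → E} {q : E → ℝ} {x : E} {R S H : ℝ} {K Lq : ℝ≥0}
    (hS : 0 < S)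
    (hN : LipschitzOnWith K N (closedBall x (R + S)))
    (hN1 : ∀ y ∈ closedBall x (R + S), ‖N y‖ ≤ 1)
    (hq : LipschitzOnWith Lq q (closedBall x (R + S)))
    (hgain : ∀ γ : ℝ → E, γ 0 ∈ closedBall x R → (∀ s, γ s ∈ closedBall x (R + S)) →
      (∀ s ∈ Icc 0 S, HasDerivWithinAt γ (N (γ s)) (Icc 0 S) s) →
      (∀ σ ∈ Icc 0 S, ∫ s in (0 : ℝ)..σ, q (γ s) ≤ H) ∧
        ∀ σ ∈ Icc (S / 2) S, ∃ σ' ∈ Icc 0 (S / 2),
          ∫ s in (0 : ℝ)..σ, q (γ s) ≤ ∫ s in (0 : ℝ)..σ', q (γ s)) :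
    ∃ F : E → ℝ, (∃ L, LipschitzWith L F) ∧ (∀ y ∈ closedBall x R, 0 ≤ F y ∧ F y ≤ H) ∧
      ∀ y ∈ ball x R, ∀ F' : E →L[ℝ] ℝ, HasFDerivAt F F' y → F' (N y) + q y ≤ 0 := by
  -- the trajectories
  have hex : ∀ y ∈ closedBall x R, ∃ γ : ℝ → E, γ 0 = y ∧
      (∀ s ∈ Icc 0 S, HasDerivWithinAt γ (N (γ s)) (Icc 0 S) s) ∧
      ∀ s, γ s ∈ closedBall x (R + S) := by
    intro y hy
    have hsub : closedBall y S ⊆ closedBall x (R + S) := by
      refine closedBall_subset_closedBall' ?_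
      rw [mem_closedBall] at hy
      linarith
    obtain ⟨γ, h1, h2, h3⟩ := traj_exists hS (hN.mono hsub) fun z hz => hN1 z (hsub hz)
    exact ⟨γ, h1, h2, fun s => hsub (h3 s)⟩
  choose! γ hγ0 hγd hγm using hex
  have hγc : ∀ y ∈ closedBall x R, ContinuousOn (γ y) (Icc 0 S) := fun y hy s hs =>
    (hγd y hy s hs).continuousWithinAt
  have hγr : ∀ y ∈ closedBall x R, ∀ s ∈ Ico 0 S, HasDerivWithinAt (γ y) (N (γ y s)) (Ici s) s :=
    fun y hy s hs => ((hγd y hy s ⟨hs.1, hs.2.le⟩).mono_of_mem_nhdsWithin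
      (Icc_mem_nhdsGE_of_mem hs))
  have hqc : ContinuousOn q (closedBall x (R + S)) := hq.continuousOn
  have hqγ : ∀ y ∈ closedBall x R, ContinuousOn (fun s => q (γ y s)) (Icc 0 S) := fun y hy =>
    hqc.comp (hγc y hy) fun s _ => hγm y hy s
  have hint : ∀ y ∈ closedBall x R, ∀ a b : ℝ, a ∈ Icc 0 S → b ∈ Icc 0 S →
      IntervalIntegrable (fun s => q (γ y s)) volume a b := by
    intro y hy a b ha hb
    refine ((hqγ y hy).mono ?_).intervalIntegrable
    exact uIcc_subset_Icc ha hb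
  obtain ⟨J, hJ⟩ : ∃ J : E → ℝ → ℝ, J = fun y σ => ∫ s in (0 : ℝ)..σ, q (γ y s) := ⟨_, rfl⟩
  have hJc : ∀ y ∈ closedBall x R, ContinuousOn (J y) (Icc 0 S) := by
    intro y hy
    have h1 := intervalIntegral.continuousOn_primitive_interval' (μ := volume)
      (hint y hy 0 S ⟨le_rfl, hS.le⟩ ⟨hS.le, le_rfl⟩) (a := 0) (by
        rw [uIcc_of_le hS.le]
        exact ⟨le_rfl, hS.le⟩)
    rw [uIcc_of_le hS.le] at h1
    rw [hJ]
    exact h1
  -- the maximum
  have hmax : ∀ y ∈ closedBall x R, ∃ σ ∈ Icc 0 (S / 2), ∀ σ' ∈ Icc 0 S, J y σ' ≤ J y σ := by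
    intro y hy
    obtain ⟨-, h2⟩ := hgain (γ y) (by rw [hγ0 y hy]; exact hy) (hγm y hy) (hγd y hy)
    obtain ⟨σ, hσ, h3⟩ := (isCompact_Icc (a := (0 : ℝ)) (b := S / 2)).exists_isMaxOn
      ⟨0, le_rfl, by positivity⟩ ((hJc y hy).mono (Icc_subset_Icc_right (by linarith)))
    refine ⟨σ, hσ, fun σ' hσ' => ?_⟩
    rcases le_total σ' (S / 2) with h | h
    · exact h3 ⟨hσ'.1, h⟩
    · obtain ⟨σ'', hσ'', h4⟩ := h2 σ' ⟨h, hσ'.2⟩
      have h5 : J y σ'' ≤ J y σ := h3 hσ''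
      have h6 : J y σ' ≤ J y σ'' := by
        rw [hJ]
        exact h4
      exact h6.trans h5
  choose! σ hσ hσm using hmax
  have hσS : ∀ y ∈ closedBall x R, σ y ∈ Icc 0 S := fun y hy =>
    ⟨(hσ y hy).1, by linarith [(hσ y hy).2]⟩
  obtain ⟨F₀, hF₀⟩ : ∃ F₀ : E → ℝ, F₀ = fun y => J y (σ y) := ⟨_, rfl⟩
  have hJ0 : ∀ y, J y 0 = 0 := by
    intro y
    rw [hJ]
    exact intervalIntegral.integral_same
  -- Lipschitz
  obtain ⟨Λ, hΛ⟩ : ∃ Λ : ℝ≥0, (Λ : ℝ) = S * (Lq * Real.exp (K * S)) := ⟨⟨_, by positivity⟩, rfl⟩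
  have hdist : ∀ y ∈ closedBall x R, ∀ y' ∈ closedBall x R, ∀ s ∈ Icc 0 S,
      dist (γ y s) (γ y' s) ≤ dist y y' * Real.exp (K * S) := by
    intro y hy y' hy' s hs
    have h1 := dist_le_of_trajectories_ODE_of_mem (v := fun _ => N)
      (s := fun _ => closedBall x (R + S)) (a := 0) (b := S) (f := γ y) (g := γ y')
      (δ := dist y y') (fun t _ => hN) (hγc y hy)
      (hγr y hy) (fun t _ => hγm y hy t) (hγc y' hy') (hγr y' hy') (fun t _ => hγm y' hy' t)
      (by rw [hγ0 y hy, hγ0 y' hy']) s hs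
    refine h1.trans (mul_le_mul_of_nonneg_left (Real.exp_le_exp.2 ?_) dist_nonneg)
    rw [sub_zero]
    exact mul_le_mul_of_nonneg_left hs.2 K.2
  have hJd : ∀ y ∈ closedBall x R, ∀ y' ∈ closedBall x R, ∀ τ ∈ Icc 0 S,
      J y τ - J y' τ ≤ Λ * dist y y' := by
    intro y hy y' hy' τ hτ
    have h0S : (0 : ℝ) ∈ Icc 0 S := ⟨le_rfl, hS.le⟩
    have e : J y τ - J y' τ = ∫ s in (0 : ℝ)..τ, (q (γ y s) - q (γ y' s)) := by
      rw [hJ]
      exact (intervalIntegral.integral_sub (hint y hy 0 τ h0S hτ) (hint y' hy' 0 τ h0S hτ)).symm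
    rw [e]
    have h1 : ∫ s in (0 : ℝ)..τ, (q (γ y s) - q (γ y' s))
        ≤ ∫ _s in (0 : ℝ)..τ, Lq * (dist y y' * Real.exp (K * S)) := by
      refine intervalIntegral.integral_mono_on hτ.1
        ((hint y hy 0 τ h0S hτ).sub (hint y' hy' 0 τ h0S hτ)) (by simp) fun s hs => ?_
      have hsS : s ∈ Icc 0 S := ⟨hs.1, hs.2.trans hτ.2⟩
      have h2 := hq.dist_le_mul (γ y s) (hγm y hy s) (γ y' s) (hγm y' hy' s)
      rw [Real.dist_eq] at h2
      refine (le_abs_self _).trans (h2.trans ?_)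
      exact mul_le_mul_of_nonneg_left (hdist y hy y' hy' s hsS) Lq.2
    refine h1.trans ?_
    rw [intervalIntegral.integral_const, sub_zero, smul_eq_mul, hΛ]
    have h3 : τ * (Lq * (dist y y' * Real.exp (K * S)))
        ≤ S * (Lq * (dist y y' * Real.exp (K * S))) :=
      mul_le_mul_of_nonneg_right hτ.2 (by positivity)
    linarith
  have hLip : LipschitzOnWith Λ F₀ (closedBall x R) := by
    refine LipschitzOnWith.of_le_add_mul Λ fun y hy y' hy' => ?_
    have h1 := hJd y hy y' hy' (σ y) (hσS y hy)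
    have h2 := hσm y' hy' (σ y) (hσS y hy)
    rw [hF₀]
    simp only
    linarith
  obtain ⟨F, hFL, hFe⟩ := hLip.extend_real
  have hF : ∀ y ∈ closedBall x R, F y = J y (σ y) := fun y hy => by
    rw [← hFe hy, hF₀]
  refine ⟨F, ⟨Λ, hFL⟩, fun y hy => ?_, fun y hy F' hF' => ?_⟩
  · rw [hF y hy]
    refine ⟨?_, ?_⟩
    · have := hσm y hy 0 ⟨le_rfl, hS.le⟩
      rwa [hJ0] at this
    · obtain ⟨h1, -⟩ := hgain (γ y) (by rw [hγ0 y hy]; exact hy) (hγm y hy) (hγd y hy)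
      rw [hJ]
      exact h1 _ (hσS y hy)
  · -- the derivative
    have hyc : y ∈ closedBall x R := ball_subset_closedBall hy
    obtain ⟨δ, hδ, hδb⟩ := Metric.isOpen_iff.1 isOpen_ball y hy
    -- the trajectory stays near `y`
    have h0S : (0 : ℝ) ∈ Icc 0 S := ⟨le_rfl, hS.le⟩
    have hcont : ContinuousWithinAt (γ y) (Icc 0 S) 0 := hγc y hyc 0 h0S
    have hnear : ∀ᶠ τ in 𝓝[Icc 0 S] (0 : ℝ), γ y τ ∈ ball x R := by
      refine hcont.eventually_mem ?_
      rw [hγ0 y hyc]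
      exact isOpen_ball.mem_nhds hy
    have hsmall : ∀ᶠ τ in 𝓝[Icc 0 S] (0 : ℝ), τ ≤ S / 2 :=
      nhdsWithin_le_nhds (Iic_mem_nhds (by linarith))
    -- the semigroup
    have hsemi : ∀ τ ∈ Icc 0 S, τ ≤ S / 2 → γ y τ ∈ ball x R →
        F (γ y τ) + ∫ s in (0 : ℝ)..τ, q (γ y s) ≤ F y := by
      intro τ hτ hτS hb
      have hyτ : γ y τ ∈ closedBall x R := ball_subset_closedBall hb
      rw [hF _ hyτ, hF y hyc]
      have heq : EqOn (γ (γ y τ)) (fun s => γ y (s + τ)) (Icc 0 (S - τ)) := by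
        refine ODE_solution_unique_of_mem_Icc_right (v := fun _ => N)
          (s := fun _ => closedBall x (R + S)) (K := K) (fun t _ => hN)
          ((hγc _ hyτ).mono (Icc_subset_Icc_right (by linarith [hτ.1])))
          (fun t ht => hγr _ hyτ t ⟨ht.1, by linarith [ht.2, hτ.1]⟩) (fun t _ => hγm _ hyτ t)
          ?_ (fun t ht => ?_) (fun t _ => hγm _ hyc _) ?_
        · refine (hγc y hyc).comp (by fun_prop) fun s hs => ?_
          exact ⟨by linarith [hs.1, hτ.1], by linarith [hs.2]⟩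
        · have h1 := hγr y hyc (t + τ) ⟨by linarith [ht.1, hτ.1], by linarith [ht.2]⟩
          have h2 : HasDerivWithinAt (fun s : ℝ => s + τ) 1 (Ici t) t :=
            ((hasDerivAt_id t).add_const τ).hasDerivWithinAt
          have h3 := HasDerivWithinAt.scomp t h1 h2 fun s hs => by
            show t + τ ≤ s + τ
            linarith [show t ≤ s from hs]
          rwa [one_smul] at h3
        · simp only [zero_add]
          rw [hγ0 _ hyτ]
      have hσ1 := hσ _ hyτ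
      have h1 : J (γ y τ) (σ (γ y τ)) = ∫ s in τ..(σ (γ y τ) + τ), q (γ y s) := by
        rw [hJ]
        simp only
        have h2 : ∫ s in (0 : ℝ)..σ (γ y τ), q (γ (γ y τ) s)
            = ∫ s in (0 : ℝ)..σ (γ y τ), q (γ y (s + τ)) := by
          refine intervalIntegral.integral_congr fun s hs => ?_
          rw [uIcc_of_le hσ1.1] at hs
          rw [heq ⟨hs.1, by linarith [hs.2, hσ1.2]⟩]
        rw [h2, intervalIntegral.integral_comp_add_right (fun s => q (γ y s)), zero_add]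
      have hend : σ (γ y τ) + τ ∈ Icc 0 S := ⟨by linarith [hσ1.1, hτ.1], by linarith [hσ1.2]⟩
      have h3 := hσm y hyc _ hend
      have h4 : J y (σ (γ y τ) + τ) = (∫ s in (0 : ℝ)..τ, q (γ y s))
          + ∫ s in τ..(σ (γ y τ) + τ), q (γ y s) := by
        rw [hJ]
        exact (intervalIntegral.integral_add_adjacent_intervals
          (hint y hyc 0 τ h0S hτ) (hint y hyc τ _ hτ hend)).symm
      linarith
    -- the derivative of `G`
    have hG1 : HasDerivWithinAt (fun τ => F (γ y τ)) (F' (N y)) (Icc 0 S) 0 := by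
      have h1 := hγd y hyc 0 h0S
      rw [hγ0 y hyc] at h1
      rw [← hγ0 y hyc] at hF'
      exact hF'.comp_hasDerivWithinAt 0 h1
    have hG2 : HasDerivWithinAt (fun τ => ∫ s in (0 : ℝ)..τ, q (γ y s)) (q y) (Ici 0) 0 := by
      have h1 : ContinuousWithinAt (fun s => q (γ y s)) (Icc 0 S) 0 := hqγ y hyc 0 h0S
      have h2 : ContinuousWithinAt (fun s => q (γ y s)) (Ioi 0) 0 := by
        refine (h1.mono Ioc_subset_Icc_self).mono_of_mem_nhdsWithin ?_
        exact Ioc_mem_nhdsGT hS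
      have h3 := intervalIntegral.integral_hasDerivWithinAt_right
        (a := 0) (b := 0) (f := fun s => q (γ y s)) (s := Ici 0) (t := Ioi 0) (by simp)
        (by
          refine ⟨Ioc 0 S, Ioc_mem_nhdsGT hS, ?_⟩
          exact ((hqγ y hyc).mono Ioc_subset_Icc_self).aestronglyMeasurable measurableSet_Ioc) h2
      simp only [hγ0 y hyc] at h3
      exact h3
    have hG : HasDerivWithinAt (fun τ => F (γ y τ) + ∫ s in (0 : ℝ)..τ, q (γ y s))
        (F' (N y) + q y) (Icc 0 S) 0 := hG1.add (hG2.mono Icc_subset_Ici_self)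
    rw [hasDerivWithinAt_iff_tendsto_slope] at hG
    have hne : (𝓝[Icc 0 S \ {0}] (0 : ℝ)).NeBot := by
      rw [Icc_sdiff_left, nhdsWithin_Ioc_eq_nhdsGT hS]
      infer_instance
    refine le_of_tendsto hG ?_
    have h1 : ∀ᶠ τ in 𝓝[Icc 0 S \ {0}] (0 : ℝ), τ ∈ Icc 0 S \ {0} := self_mem_nhdsWithin
    have h2 := hnear.filter_mono (nhdsWithin_mono (0 : ℝ) (sdiff_subset (s := Icc 0 S) (t := {0})))
    have h3 := hsmall.filter_mono (nhdsWithin_mono (0 : ℝ) (sdiff_subset (s := Icc 0 S) (t := {0})))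
    filter_upwards [h1, h2, h3] with τ hτ1 hτ2 hτ3
    have hτpos : 0 < τ := lt_of_le_of_ne hτ1.1.1 fun h => hτ1.2 h.symm
    have h4 := hsemi τ hτ1.1 hτ3 hτ2
    rw [slope_def_field]
    refine div_nonpos_of_nonpos_of_nonneg ?_ (by linarith)
    rw [intervalIntegral.integral_same, hγ0 y hyc]
    linarith

end Pool.Agent.H1TV
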