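import Pool.Agent.H1TV.PotV
import Pool.Agent.H1TV.PotK
import Pool.Agent.H1TV.GainK

/-!
Project TV: the potential along the vortex lines, with an exceptional density.
-/

set_option autoImplicit false

open MeasureTheory Set Metric Filter Topology
open scoped ContDiff ENNReal NNReal
open H459R3.NS Pool.Agent.W268.NS Pool.Agent.Q67.VD

namespace Pool.Agent.H1TV

open Pool.Agent.Q85.CC Pool.Agent.Q85.CL Pool.Agent.Q85.VL Pool.Agent.H2CV

/-- The potential. -/
lemma potVK {v : V → V} (hv : SM v) {x : V} {R m ℓ H A L : ℝ} {h k : V → ℝ} (hR : 0 < R)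
    (hm : 0 < m) (hℓ : 0 < ℓ) (hH : 0 < H) (hA : 0 ≤ A) (hL : ∀ y z, |h y - h z| ≤ L * ‖y - z‖)
    (hLk : ∀ y z, |k y - k z| ≤ L * ‖y - z‖) (h0 : ∀ y, 0 ≤ k y)
    (harc : ∀ (γ : ℝ → V) (l : ℝ), 0 < l → (∀ s ∈ Icc (0 : ℝ) l, γ s ∈ Dm v x R m ∧
      HasDerivWithinAt γ ((len (vort v (γ s)))⁻¹ • vort v (γ s)) (Icc 0 l) s) →
        H / ℓ * l + ∫ s in (0 : ℝ)..l, h (γ s) ≤ 2 * H + A * ∫ s in (0 : ℝ)..l, k (γ s)) :
    ∃ F : V → ℝ, (∃ L, LipschitzWith L F) ∧ (∀ y ∈ closedBall x R, 0 ≤ F y ∧ F y ≤ 2 * H) ∧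
      ∀ y, ‖y - x‖ ≤ R / 2 → 2 * m ≤ om v y → ∀ F' : V →L[ℝ] ℝ, HasFDerivAt F F' y →
        F' (vort v y) + (h y - A * k y) * om v y ≤ 0 := by
  obtain ⟨S, hSd⟩ : ∃ S, S = 4 * ℓ := ⟨_, rfl⟩
  have hS : 0 < S := by rw [hSd]; positivity
  -- constants
  obtain ⟨κ, hκ⟩ : ∃ κ : ℝ≥0, LipschitzOnWith κ (vort v) (closedBall x (R + S)) :=
    (vort_c1 hv).contDiffOn.exists_lipschitzOnWith one_ne_zero (convex_closedBall _ _)
      (isCompact_closedBall _ _)
  have hk' : ∀ y ∈ closedBall x (R + S), ∀ z ∈ closedBall x (R + S),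
      ‖vort v y - vort v z‖ ≤ κ * ‖y - z‖ := fun y hy z hz => by
    have := hκ.dist_le_mul y hy z hz
    rwa [dist_eq_norm, dist_eq_norm] at this
  have hL0 : 0 ≤ L := by
    have h1 := (abs_nonneg _).trans (hL (fun _ => 1) 0)
    have h2 : 0 < ‖(fun _ => 1 : V) - 0‖ := by
      rw [sub_zero, norm_pos_iff]
      intro h3
      have := congrFun h3 0
      norm_num at this
    exact nonneg_of_mul_nonneg_left h1 h2
  obtain ⟨B, hBd⟩ : ∃ B, B = |h x| + L * (R + S) := ⟨_, rfl⟩
  have hB : 0 ≤ B := by rw [hBd]; positivity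
  have hhB : ∀ y ∈ closedBall x (R + S), h y ≤ B := by
    intro y hy
    rw [mem_closedBall, dist_eq_norm] at hy
    have h1 := (abs_le.1 (hL y x)).2
    have h2 := mul_le_mul_of_nonneg_left hy hL0
    have h3 := le_abs_self (h x)
    rw [hBd]
    linarith
  obtain ⟨Λ, hΛd⟩ : ∃ Λ : ℝ, Λ = 2 / R + 2 * κ / m := ⟨_, rfl⟩
  have hΛ : 0 < Λ := by rw [hΛd]; positivity
  obtain ⟨P, hPd⟩ : ∃ P, P = 4 * B + 8 * Λ * B * S := ⟨_, rfl⟩
  have hP1 : 4 * B ≤ P := by
    rw [hPd]
    have : 0 ≤ 8 * Λ * B * S := by positivity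
    linarith
  have hP2 : 8 * Λ * B * S ≤ P := by rw [hPd]; linarith
  have hP : 0 ≤ P := by linarith
  obtain ⟨q, hqd⟩ : ∃ q : V → ℝ, q = fun y => h y - A * k y - P * (1 - dcut v x R m y) := ⟨_, rfl⟩
  have hdL : ∀ y ∈ closedBall x (R + S), ∀ z ∈ closedBall x (R + S),
      |dcut v x R m y - dcut v x R m z| ≤ Λ * ‖y - z‖ := fun y hy z hz => by
    rw [hΛd]
    exact dcut_lip hR hm (hk' y hy z hz)
  obtain ⟨Lq, hLq⟩ : ∃ Lq : ℝ≥0, (Lq : ℝ) = L + A * L + P * Λ := ⟨⟨_, by positivity⟩, rfl⟩
  have hqL : LipschitzOnWith Lq q (closedBall x (R + S)) := by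
    refine LipschitzOnWith.of_dist_le_mul fun y hy z hz => ?_
    rw [Real.dist_eq, dist_eq_norm, hLq, hqd]
    have e : h y - A * k y - P * (1 - dcut v x R m y)
        - (h z - A * k z - P * (1 - dcut v x R m z))
        = (h y - h z) + A * (k z - k y) + P * (dcut v x R m y - dcut v x R m z) := by ring
    simp only
    rw [e]
    refine (abs_add_le _ _).trans ?_
    have h3 := abs_add_le (h y - h z) (A * (k z - k y))
    rw [abs_mul, abs_of_nonneg hA] at h3
    rw [abs_mul, abs_of_nonneg hP]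
    have h1 := hL y z
    have h2 := mul_le_mul_of_nonneg_left (hdL y hy z hz) hP
    have h4 := hLk z y
    rw [norm_sub_rev] at h4
    have h5 := mul_le_mul_of_nonneg_left h4 hA
    linarith
  obtain ⟨KN, hKN⟩ : ∃ KN : ℝ≥0, (KN : ℝ) = 3 / m * κ := ⟨⟨_, by positivity⟩, rfl⟩
  have hN : LipschitzOnWith KN (fun y => sat m (vort v y)) (closedBall x (R + S)) := by
    refine LipschitzOnWith.of_dist_le_mul fun y hy z hz => ?_
    rw [dist_eq_norm, dist_eq_norm, hKN]
    refine (sat_lip hm _ _).trans ?_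
    have := mul_le_mul_of_nonneg_left (hk' y hy z hz) (show 0 ≤ 3 / m by positivity)
    linarith
  obtain ⟨F, hFL, hFb, hFd⟩ := potK (N := fun y => sat m (vort v y)) (q := q) (x := x) (R := R)
    (S := S) (H := 2 * H) hS hN (fun y _ => sat_norm hm _) hqL (by
      intro γ hγ0 hγm hγd
      have hγc : ContinuousOn γ (Icc 0 S) := fun s hs => (hγd s hs).continuousWithinAt
      have hγL : ∀ s ∈ Icc 0 S, ∀ s' ∈ Icc 0 S, ‖γ s - γ s'‖ ≤ |s - s'| := by
        intro s hs s' hs'
        have h1 := (convex_Icc (0 : ℝ) S).norm_image_sub_le_of_norm_hasDerivWithin_le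
          (f := γ) (C := 1) (fun t ht => hγd t ht) (fun t _ => sat_norm hm _) hs' hs
        rwa [one_mul, Real.norm_eq_abs] at h1
      have hcont : ∀ f : V → ℝ, (∀ y z, |f y - f z| ≤ L * ‖y - z‖) →
          ContinuousOn (fun s => f (γ s)) (Icc 0 S) := by
        intro f hf
        refine Continuous.comp_continuousOn ?_ hγc
        have : LipschitzWith ⟨L, hL0⟩ f := LipschitzWith.of_dist_le_mul fun y z => by
          rw [Real.dist_eq, dist_eq_norm]
          exact hf y z
        exact this.continuous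
      have hhc := hcont h hL
      have hkc := hcont k hLk
      have h1 := gainK (S := S) (δ₀ := H / ℓ) (H := 2 * H) (B := B) (P := P) (Λ := Λ)
        (qq := fun s => h (γ s) - A * k (γ s)) (dd := fun s => dcut v x R m (γ s)) hS hB
        (by positivity) hΛ (by positivity) (by
          rw [hSd]
          apply le_of_eq
          field_simp
          ring) hP1 hP2
        (hhc.sub (continuousOn_const.mul hkc)) (fun s _ => by
          have h2 := hhB _ (hγm s)
          have h3 := mul_nonneg hA (h0 (γ s))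
          linarith) (fun s _ => dcut_bd _ _ _ _ _)
        (fun s hs s' hs' => by
          refine (hdL _ (hγm s) _ (hγm s')).trans ?_
          exact mul_le_mul_of_nonneg_left (hγL s hs s' hs') hΛ.le)
        (fun σ hσ hσS hpos => by
          have h2 := harc γ σ hσ fun s hs => by
            have h2 := dcut_pos hR hm (hpos s hs)
            refine ⟨h2, ?_⟩
            have h3 := (hγd s ⟨hs.1, hs.2.trans hσS⟩).mono (Icc_subset_Icc_right hσS)
            have h4 : sat m (vort v (γ s)) = (len (vort v (γ s)))⁻¹ • vort v (γ s) := by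
              unfold sat
              rw [max_eq_left]
              exact h2.2.le
            simp only [h4] at h3
            exact h3
          have hsub : uIcc 0 σ ⊆ Icc 0 S := by
            rw [uIcc_of_le hσ.le]
            exact Icc_subset_Icc_right hσS
          have e : ∫ s in (0 : ℝ)..σ, (h (γ s) - A * k (γ s))
              = (∫ s in (0 : ℝ)..σ, h (γ s)) - A * ∫ s in (0 : ℝ)..σ, k (γ s) := by
            rw [← intervalIntegral.integral_const_mul]
            exact intervalIntegral.integral_sub (hhc.mono hsub).intervalIntegrable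
              ((continuousOn_const.mul hkc).mono hsub).intervalIntegrable
          rw [e]
          linarith)
      rw [hqd]
      exact h1)
  refine ⟨F, hFL, hFb, fun y hy1 hy2 F' hF' => ?_⟩
  have hyb : y ∈ ball x R := by
    rw [mem_ball, dist_eq_norm]
    linarith
  have h1 := hFd y hyb F' hF'
  have hom : 0 < om v y := by linarith
  have h2 : q y = h y - A * k y := by
    rw [hqd]
    simp only
    rw [dcut_one hR hm hy1 hy2]
    ring
  have h3 : sat m (vort v y) = (om v y)⁻¹ • vort v y := by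
    unfold sat
    rw [max_eq_left (show m ≤ len (vort v y) from by
      have : m ≤ om v y := by linarith
      exact this)]
    rfl
  simp only [h3, h2] at h1
  rw [map_smul, smul_eq_mul] at h1
  have h4 : F' (vort v y) + (h y - A * k y) * om v y
      = om v y * ((om v y)⁻¹ * F' (vort v y) + (h y - A * k y)) := by
    field_simp
  rw [h4]
  exact mul_nonpos_of_nonneg_of_nonpos hom.le h1

end Pool.Agent.H1TV
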