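import Pool.Agent.H1TV.Flx
import Pool.Agent.H1TV.PotVK
import Pool.Agent.H1TV.DefsK

/-!
Project TV: the flux inequality with an exceptional density.
-/

set_option autoImplicit false

open MeasureTheory Set Metric Filter Topology
open scoped ContDiff ENNReal NNReal
open H459R3.NS Pool.Agent.W268.NS Pool.Agent.Q67.VD

namespace Pool.Agent.H1TV

open Pool.Agent.Q85.CC Pool.Agent.Q85.CL Pool.Agent.Q85.VL Pool.Agent.H2CV

set_option maxHeartbeats 1600000 in
theorem flxK : StmFlxK := by
  refine ⟨144, by norm_num, ?_⟩
  intro v x R m ℓ H₀ A L D h k χ Q hv hR hm hℓ hH₀ hA hL hLk h0 hk0 hχ hχb hχs hχD hQm hQR hχQ harc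
  obtain ⟨F, ⟨CF, hFL⟩, hFb, hFd⟩ := potVK hv hR hm hℓ hH₀ hA hL hLk hk0 harc
  obtain ⟨H, hHd⟩ : ∃ H, H = 2 * H₀ := ⟨_, rfl⟩
  have hH : 0 ≤ H := by rw [hHd]; positivity
  rw [← hHd] at hFb
  have hL0 : 0 ≤ L := by
    have h1 := (abs_nonneg _).trans (hL (fun _ => 1) 0)
    have h2 : 0 < ‖(fun _ => 1 : V) - 0‖ := by
      rw [sub_zero, norm_pos_iff]
      intro h3
      have := congrFun h3 0
      norm_num at this
    exact nonneg_of_mul_nonneg_left h1 h2
  have hD : 0 ≤ D := (abs_nonneg _).trans (hχD x 0)
  have hcont : ∀ f : V → ℝ, (∀ y z, |f y - f z| ≤ L * ‖y - z‖) → Continuous f := by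
    intro f hf
    have : LipschitzWith ⟨L, hL0⟩ f := LipschitzWith.of_dist_le_mul fun y z => by
      rw [Real.dist_eq, dist_eq_norm]
      exact hf y z
    exact this.continuous
  have hhc := hcont h hL
  have hkc := hcont k hLk
  have hkb : ∀ y, 0 ≤ kap m v y ∧ kap m v y ≤ 1 := fun y =>
    ⟨Pool.Agent.H2VL.stp_nonneg _, Pool.Agent.H2VL.stp_le_one _⟩
  have hks := kap_smooth hv m
  -- the cut-off function
  have hχz : ∀ y, y ∉ closedBall x (R / 2) → χ y = 0 := by
    intro y hy
    by_contra hne
    have := hχs y hne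
    rw [mem_closedBall, dist_eq_norm] at hy
    exact hy this
  have hψc : HasCompactSupport (fun y => χ y * kap m v y) :=
    HasCompactSupport.intro (isCompact_closedBall x (R / 2)) fun y hy => by
      rw [hχz y hy, zero_mul]
  have hψs : ContDiff ℝ 1 (fun y => χ y * kap m v y) := hχ.mul hks
  have hvc1 : ∀ i, ContDiff ℝ 1 (vc v i) := fun i => (sm_vc hv i).of_le (by norm_cast)
  obtain ⟨W, hWd⟩ : ∃ W : Fin 3 → V → ℝ, W = fun i y => (χ y * kap m v y) * vc v i y := ⟨_, rfl⟩
  have hW : ∀ i, ContDiff ℝ 1 (W i) := fun i => by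
    rw [hWd]
    exact hψs.mul (hvc1 i)
  have hWc : ∀ i, HasCompactSupport (W i) := fun i => by
    rw [hWd]
    exact hψc.mul_right
  obtain ⟨hint, hint2, hibp⟩ := ibp hFL hW hWc
  -- the divergence
  have hdiv : ∀ y, ∑ i, pd i (W i) y = kap m v y * (∑ i, pd i χ y * vc v i y)
      + χ y * ∑ i, pd i (kap m v) y * vc v i y := by
    intro y
    have e1 : ∀ i, pd i (W i) y = (χ y * kap m v y) * pd i (vc v i) y
        + vc v i y * (χ y * pd i (kap m v) y + kap m v y * pd i χ y) := by
      intro i
      rw [hWd]
      have hA : HasFDerivAt χ (fderiv ℝ χ y) y :=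
        ((hχ.differentiable one_ne_zero).differentiableAt).hasFDerivAt
      have hB : HasFDerivAt (kap m v) (fderiv ℝ (kap m v) y) y :=
        ((hks.differentiable one_ne_zero).differentiableAt).hasFDerivAt
      have hC : HasFDerivAt (vc v i) (fderiv ℝ (vc v i) y) y :=
        (((hvc1 i).differentiable one_ne_zero).differentiableAt).hasFDerivAt
      have hE := ((hA.mul hB).mul hC).fderiv
      show fderiv ℝ (fun y => (χ y * kap m v y) * vc v i y) y (Pi.single i 1) = _
      have hE' : fderiv ℝ (fun y => (χ y * kap m v y) * vc v i y) y = _ := hE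
      rw [hE']
      simp only [_root_.add_apply, _root_.smul_apply, smul_eq_mul, Pi.mul_apply]
      rfl
    simp only [e1]
    have hdv := div_vc hv y
    simp only [Fin.sum_univ_three] at hdv ⊢
    linear_combination (χ y * kap m v y) * hdv
  -- the left side
  have hLHS : ∫ y, χ y * (kap m v y * ((h y - A * k y) * om v y))
      ≤ -∫ y, ∑ i, lineDeriv ℝ F y (Pi.single i 1) * W i y := by
    rw [← integral_neg]
    refine integral_mono_ae ?_ (integrable_finsetSum _ fun i _ => hint i).neg ?_
    · refine Continuous.integrable_of_hasCompactSupport ?_ ?_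
      · exact hχ.continuous.mul (hks.continuous.mul ((hhc.sub (continuous_const.mul hkc)).mul
          (om_cont' hv)))
      · exact HasCompactSupport.intro (isCompact_closedBall x (R / 2)) fun y hy => by
          rw [hχz y hy, zero_mul]
    · filter_upwards [hFL.ae_differentiableAt_of_real (μ := volume)] with y hy
      have h1 : ∀ i, lineDeriv ℝ F y (Pi.single i 1) = fderiv ℝ F y (Pi.single i 1) := fun i =>
        hy.lineDeriv_eq_fderiv
      have h2 : ∑ i, lineDeriv ℝ F y (Pi.single i 1) * W i y
          = (χ y * kap m v y) * fderiv ℝ F y (vort v y) := by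
        have h3 : fderiv ℝ F y (vort v y) = ∑ i, vc v i y * fderiv ℝ F y (Pi.single i 1) := by
          conv_lhs => rw [← Finset.univ_sum_single (vort v y)]
          rw [map_sum]
          refine Finset.sum_congr rfl fun j _ => ?_
          have e3 : (Pi.single j (vort v y j) : V) = vort v y j • (Pi.single j 1 : V) := by
            rw [← Pi.single_smul, smul_eq_mul, mul_one]
          rw [e3, map_smul]
          rfl
        rw [h3, hWd, Finset.mul_sum]
        refine Finset.sum_congr rfl fun i _ => ?_
        rw [h1 i]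
        ring
      rw [h2]
      by_cases hz : χ y = 0
      · rw [hz]
        simp
      · by_cases hk0 : kap m v y = 0
        · rw [hk0]
          simp
        · have h4 : 2 * m ≤ om v y := by
            have h5 := Pool.Agent.H2VL.stp_ne_zero hk0
            have h6 : 0 < om v y ^ 2 - 4 * m ^ 2 := by
              by_contra hcon
              have := div_nonpos_of_nonpos_of_nonneg (not_lt.1 hcon)
                (by positivity : 0 ≤ 5 * m ^ 2)
              linarith
            have h7 : 0 ≤ om v y := Pool.Agent.H2CV.len_nn _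
            nlinarith
          have h8 := hFd y (hχs y hz) h4 _ hy.hasFDerivAt
          have h9 : 0 ≤ χ y * kap m v y := mul_nonneg (hχb y).1 (hkb y).1
          nlinarith [mul_nonneg h9 (neg_nonneg.2 h8)]
  -- the right side
  obtain ⟨G, hG⟩ : ∃ G : Set V, G = {y | pd 0 χ y ≠ 0 ∨ pd 1 χ y ≠ 0 ∨ pd 2 χ y ≠ 0} := ⟨_, rfl⟩
  have hpdc : ∀ i, Continuous (pd i χ) := fun i =>
    (hχ.continuous_fderiv one_ne_zero).clm_apply continuous_const
  have hGm : MeasurableSet G := by
    rw [hG]
    have h1 : ∀ i, MeasurableSet {y | pd i χ y ≠ 0} := fun i =>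
      (isOpen_ne_fun (hpdc i) continuous_const).measurableSet
    exact (h1 0).union ((h1 1).union (h1 2))
  have hGsub : G ⊆ closedBall x (R / 2) := by
    intro y hy
    by_contra hn
    have h1 : ∀ i, pd i χ y = 0 := by
      intro i
      have h2 : χ =ᶠ[𝓝 y] fun _ => 0 := by
        filter_upwards [isClosed_closedBall.isOpen_compl.mem_nhds hn] with z hz
        exact hχz z hz
      unfold pd
      rw [h2.fderiv_eq]
      simp
    rw [hG] at hy
    rcases hy with h2 | h2 | h2 <;> exact h2 (h1 _)
  have hGI : IntegrableOn (fun y => D * om v y) G :=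
    ((continuous_const.mul (om_cont' hv)).continuousOn.integrableOn_compact
      (isCompact_closedBall x (R / 2))).mono_set hGsub
  have hKI : IntegrableOn (fun y => ∑ i, ∑ j, lkd (vc v i) m j y) Q :=
    (lks_int hv m x R).mono_set hQR
  have hRHS : ∫ y, (∑ i, pd i (W i) y) * F y
      ≤ ∫ y, (G.indicator (fun y => 2 * H * (D * om v y)) y
        + Q.indicator (fun y => 72 * H * ∑ i, ∑ j, lkd (vc v i) m j y) y) := by
    have hI1 : Integrable (G.indicator (fun y => 2 * H * (D * om v y))) :=
      (integrable_indicator_iff hGm).2 (hGI.const_mul _)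
    have hI2 : Integrable (Q.indicator
        (fun y => 72 * H * ∑ i, ∑ j, lkd (vc v i) m j y)) :=
      (integrable_indicator_iff hQm).2 (hKI.const_mul _)
    have hI0 : Integrable fun y => (∑ i, pd i (W i) y) * F y := by
      have h1 : Integrable fun y => ∑ i, pd i (W i) y * F y :=
        integrable_finsetSum Finset.univ fun i _ => hint2 i
      refine h1.congr (Eventually.of_forall fun y => ?_)
      simp only
      rw [Finset.sum_mul]
    refine integral_mono hI0 (hI1.add hI2) fun y => ?_
    have hG0 : 0 ≤ G.indicator (fun y => 2 * H * (D * om v y)) y :=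
      indicator_nonneg (fun y _ => mul_nonneg (by positivity)
        (mul_nonneg hD (Pool.Agent.H2CV.len_nn _))) y
    have hK0 : 0 ≤ Q.indicator (fun y => 72 * H * ∑ i, ∑ j, lkd (vc v i) m j y) y :=
      indicator_nonneg (fun y _ => mul_nonneg (by positivity) (lks_nn v m y)) y
    by_cases hy : y ∈ closedBall x (R / 2)
    · have hyR : y ∈ closedBall x R := closedBall_subset_closedBall (by linarith) hy
      obtain ⟨hF0, hFH⟩ := hFb y hyR
      simp only
      rw [hdiv]
      have h1 := (abs_le.1 (kap_grad hv hm y)).2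
      have h2 : χ y * ∑ i, pd i (kap m v) y * vc v i y
          ≤ 72 * ∑ i, ∑ j, lkd (vc v i) m j y := by
        have h3 := mul_le_mul_of_nonneg_left h1 (hχb y).1
        have h4 := mul_le_mul_of_nonneg_right (hχb y).2
          (mul_nonneg (by norm_num : (0 : ℝ) ≤ 72) (lks_nn v m y))
        linarith
      have h5 : (kap m v y * (∑ i, pd i χ y * vc v i y)) * F y
          ≤ G.indicator (fun y => 2 * H * (D * om v y)) y := by
        by_cases hyG : y ∈ G
        · rw [indicator_of_mem hyG]
          have h6 : |∑ i, pd i χ y * vc v i y| ≤ 2 * (D * om v y) := by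
            refine (Finset.abs_sum_le_sum_abs _ _).trans ?_
            have h7 : ∀ i, |pd i χ y * vc v i y| ≤ D * |vc v i y| := fun i => by
              rw [abs_mul]
              exact mul_le_mul_of_nonneg_right (hχD y i) (abs_nonneg _)
            have h8 : (∑ i, |vc v i y|) ≤ 2 * om v y := by
              have h9 : (∑ i, |vc v i y|) ^ 2 ≤ (2 * om v y) ^ 2 := by
                rw [mul_pow, om_sq]
                simp only [Fin.sum_univ_three]
                rw [← sq_abs (vc v 0 y), ← sq_abs (vc v 1 y), ← sq_abs (vc v 2 y)]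
                nlinarith [sq_nonneg (|vc v 0 y| - |vc v 1 y|), sq_nonneg (|vc v 0 y| - |vc v 2 y|),
                  sq_nonneg (|vc v 1 y| - |vc v 2 y|), sq_nonneg (|vc v 0 y|),
                  sq_nonneg (|vc v 1 y|), sq_nonneg (|vc v 2 y|)]
              exact (abs_le_of_sq_le_sq' h9 (mul_nonneg (by norm_num)
                (Pool.Agent.H2CV.len_nn _))).2
            calc ∑ i, |pd i χ y * vc v i y| ≤ ∑ i, D * |vc v i y| :=
                  Finset.sum_le_sum fun i _ => h7 i
              _ = D * ∑ i, |vc v i y| := by rw [Finset.mul_sum]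
              _ ≤ D * (2 * om v y) := mul_le_mul_of_nonneg_left h8 hD
              _ = _ := by ring
          have h7 : kap m v y * (∑ i, pd i χ y * vc v i y) ≤ 2 * (D * om v y) := by
            have h8 := mul_le_mul (hkb y).2 h6 (abs_nonneg _) zero_le_one
            have h9 := mul_le_mul_of_nonneg_left (le_abs_self (∑ i, pd i χ y * vc v i y))
              (hkb y).1
            linarith
          have h8 : 0 ≤ 2 * (D * om v y) :=
            mul_nonneg (by norm_num) (mul_nonneg hD (Pool.Agent.H2CV.len_nn _))
          calc (kap m v y * (∑ i, pd i χ y * vc v i y)) * F y ≤ (2 * (D * om v y)) * F y :=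
                mul_le_mul_of_nonneg_right h7 hF0
            _ ≤ (2 * (D * om v y)) * H := mul_le_mul_of_nonneg_left hFH h8
            _ = _ := by ring
        · have h6 : ∀ i, pd i χ y = 0 := by
            rw [hG] at hyG
            simp only [mem_ofPred_eq, not_or, not_not] at hyG
            intro i
            fin_cases i
            · exact hyG.1
            · exact hyG.2.1
            · exact hyG.2.2
          rw [indicator_of_notMem hyG]
          simp only [h6, zero_mul, Finset.sum_const_zero, mul_zero, le_refl]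
      have h6 : (χ y * ∑ i, pd i (kap m v) y * vc v i y) * F y
          ≤ Q.indicator (fun y => 72 * H * ∑ i, ∑ j, lkd (vc v i) m j y) y := by
        by_cases hz : χ y = 0
        · rw [hz, zero_mul, zero_mul]
          exact hK0
        rw [indicator_of_mem (hχQ y hz)]
        calc (χ y * ∑ i, pd i (kap m v) y * vc v i y) * F y
            ≤ (72 * ∑ i, ∑ j, lkd (vc v i) m j y) * F y := mul_le_mul_of_nonneg_right h2 hF0
          _ ≤ (72 * ∑ i, ∑ j, lkd (vc v i) m j y) * H :=
              mul_le_mul_of_nonneg_left hFH (mul_nonneg (by norm_num) (lks_nn v m y))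
          _ = _ := by ring
      rw [add_mul]
      exact add_le_add h5 h6
    · have h1 : ∀ i, pd i χ y = 0 := by
        by_contra hcon
        push Not at hcon
        obtain ⟨i, hi⟩ := hcon
        refine hy (hGsub ?_)
        rw [hG]
        fin_cases i
        · exact Or.inl hi
        · exact Or.inr (Or.inl hi)
        · exact Or.inr (Or.inr hi)
      simp only
      rw [hdiv, hχz y hy]
      simp only [h1, zero_mul, Finset.sum_const_zero, mul_zero, add_zero]
      exact add_nonneg hG0 hK0
  have hI1 : Integrable (G.indicator (fun y => 2 * H * (D * om v y))) :=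
    (integrable_indicator_iff hGm).2 (hGI.const_mul _)
  have hI2 : Integrable (Q.indicator
      (fun y => 72 * H * ∑ i, ∑ j, lkd (vc v i) m j y)) :=
    (integrable_indicator_iff hQm).2 (hKI.const_mul _)
  rw [integral_add hI1 hI2, integral_indicator hGm,
    integral_indicator hQm,
    integral_const_mul (2 * H) (fun y => D * om v y),
    integral_const_mul (72 * H) (fun y => ∑ i, ∑ j, lkd (vc v i) m j y)] at hRHS
  rw [hibp, neg_neg] at hLHS
  have hG1 : 0 ≤ ∫ y in G, D * om v y := integral_nonneg fun y =>
    mul_nonneg hD (Pool.Agent.H2CV.len_nn _)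
  have h1 : 0 ≤ H * ∫ y in G, D * om v y := mul_nonneg hH hG1
  rw [hG] at hRHS h1
  -- the exceptional density
  have hIh : Integrable fun y => χ y * (kap m v y * ((h y - A * k y) * om v y)) := by
    refine Continuous.integrable_of_hasCompactSupport ?_ ?_
    · exact hχ.continuous.mul (hks.continuous.mul ((hhc.sub (continuous_const.mul hkc)).mul
        (om_cont' hv)))
    · exact HasCompactSupport.intro (isCompact_closedBall x (R / 2)) fun y hy => by
        rw [hχz y hy, zero_mul]
  have hIk : Integrable fun y => χ y * (kap m v y * (k y * om v y)) := by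
    refine Continuous.integrable_of_hasCompactSupport ?_ ?_
    · exact hχ.continuous.mul (hks.continuous.mul (hkc.mul (om_cont' hv)))
    · exact HasCompactSupport.intro (isCompact_closedBall x (R / 2)) fun y hy => by
        rw [hχz y hy, zero_mul]
  have hDm : MeasurableSet (Dm v x R m) := by
    have e : Dm v x R m = closedBall x R ∩ {y | m < om v y} := by
      ext y
      simp only [Dm, mem_inter_iff, mem_closedBall, dist_eq_norm]
      rfl
    rw [e]
    exact isClosed_closedBall.measurableSet.inter
      (isOpen_lt continuous_const (om_cont' hv)).measurableSet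
  have hDsub : Dm v x R m ⊆ closedBall x R := fun y hy => by
    rw [mem_closedBall, dist_eq_norm]
    exact hy.1
  have hIkD : IntegrableOn (fun y => k y * om v y) (Dm v x R m) :=
    ((hkc.mul (om_cont' hv)).continuousOn.integrableOn_compact
      (isCompact_closedBall x R)).mono_set hDsub
  have hk1 : ∫ y, χ y * (kap m v y * (k y * om v y)) ≤ ∫ y in Dm v x R m, k y * om v y := by
    rw [← integral_indicator hDm]
    refine integral_mono hIk ((integrable_indicator_iff hDm).2 hIkD) fun y => ?_
    simp only
    have hko : 0 ≤ k y * om v y := mul_nonneg (hk0 y) (Pool.Agent.H2CV.len_nn _)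
    by_cases hz : χ y = 0
    · rw [hz, zero_mul]
      exact indicator_nonneg (fun y _ => mul_nonneg (hk0 y) (Pool.Agent.H2CV.len_nn _)) y
    by_cases hk00 : kap m v y = 0
    · rw [hk00, zero_mul, mul_zero]
      exact indicator_nonneg (fun y _ => mul_nonneg (hk0 y) (Pool.Agent.H2CV.len_nn _)) y
    have h5 := Pool.Agent.H2VL.stp_ne_zero hk00
    have h6 : 0 < om v y ^ 2 - 4 * m ^ 2 := by
      by_contra hcon
      have := div_nonpos_of_nonpos_of_nonneg (not_lt.1 hcon)
        (by positivity : 0 ≤ 5 * m ^ 2)
      linarith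
    have h7 : 0 ≤ om v y := Pool.Agent.H2CV.len_nn _
    have h8 : m < om v y := by nlinarith
    have hyD : y ∈ Dm v x R m := ⟨by linarith [hχs y hz], h8⟩
    rw [indicator_of_mem hyD]
    have h9 : kap m v y * (k y * om v y) ≤ k y * om v y :=
      mul_le_of_le_one_left hko (hkb y).2
    have h10 : 0 ≤ kap m v y * (k y * om v y) := mul_nonneg (hkb y).1 hko
    exact (mul_le_of_le_one_left h10 (hχb y).2).trans h9
  have hsplit : ∫ y, χ y * (kap m v y * (h y * om v y))
      = (∫ y, χ y * (kap m v y * ((h y - A * k y) * om v y)))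
        + A * ∫ y, χ y * (kap m v y * (k y * om v y)) := by
    rw [← integral_const_mul, ← integral_add hIh (hIk.const_mul A)]
    refine integral_congr_ae (Eventually.of_forall fun y => ?_)
    simp only
    ring
  have hk2 := mul_le_mul_of_nonneg_left hk1 hA
  have e3 : 2 * H * (∫ y in {y | pd 0 χ y ≠ 0 ∨ pd 1 χ y ≠ 0 ∨ pd 2 χ y ≠ 0}, D * om v y)
      = 2 * (H * (∫ y in {y | pd 0 χ y ≠ 0 ∨ pd 1 χ y ≠ 0 ∨ pd 2 χ y ≠ 0}, D * om v y)) := by ring
  have e4 : 144 * H₀ * ((∫ y in {y | pd 0 χ y ≠ 0 ∨ pd 1 χ y ≠ 0 ∨ pd 2 χ y ≠ 0}, D * om v y)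
      + ∫ y in Q, ∑ i, ∑ j, lkd (vc v i) m j y)
      = 72 * (H * (∫ y in {y | pd 0 χ y ≠ 0 ∨ pd 1 χ y ≠ 0 ∨ pd 2 χ y ≠ 0}, D * om v y))
        + 72 * H * ∫ y in Q, ∑ i, ∑ j, lkd (vc v i) m j y := by
    rw [hHd]
    ring
  rw [hsplit, e4]
  rw [e3] at hRHS
  linarith

end Pool.Agent.H1TV
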