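import Mathlib

/-!
Project TV: after leaving the region nothing is gained.
-/

set_option autoImplicit false

open MeasureTheory Set Metric Filter Topology
open scoped ENNReal NNReal

namespace Pool.Agent.H1TV

/-- After leaving the region nothing is gained. -/
lemma gain {S ℓ H B P Λ : ℝ} {hh dd : ℝ → ℝ} (hℓ : 0 < ℓ) (hℓS : ℓ ≤ S / 2)
    (hB : 0 ≤ B) (hH : 0 ≤ H) (hΛ : 0 < Λ) (hP1 : 4 * B ≤ P) (hP2 : 8 * Λ * B * S ≤ P)
    (hc : ContinuousOn hh (Icc 0 S)) (h0 : ∀ s ∈ Icc 0 S, 0 ≤ hh s ∧ hh s ≤ B)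
    (hd : ∀ s ∈ Icc 0 S, 0 ≤ dd s ∧ dd s ≤ 1)
    (hdL : ∀ s ∈ Icc 0 S, ∀ s' ∈ Icc 0 S, |dd s - dd s'| ≤ Λ * |s - s'|)
    (hA : ∀ σ : ℝ, 0 < σ → σ ≤ S → (∀ s ∈ Icc 0 σ, 0 < dd s) →
      σ ≤ ℓ ∧ ∫ s in (0 : ℝ)..σ, hh s ≤ H) :
    ∃ s₁ ∈ Icc 0 (S / 2), (∀ σ ∈ Icc 0 s₁, ∫ s in (0 : ℝ)..σ, (hh s - P * (1 - dd s)) ≤ H) ∧
      ∀ σ ∈ Icc s₁ S, ∫ s in s₁..σ, (hh s - P * (1 - dd s)) ≤ 0 := by
  have hS : 0 < S := by linarith
  have hP : 0 ≤ P := by linarith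
  have hdc : ContinuousOn dd (Icc 0 S) := by
    have : LipschitzOnWith ⟨Λ, hΛ.le⟩ dd (Icc 0 S) := LipschitzOnWith.of_dist_le_mul
      fun s hs s' hs' => by
        rw [Real.dist_eq, Real.dist_eq]
        exact hdL s hs s' hs'
    exact this.continuousOn
  have hqc : ContinuousOn (fun s => hh s - P * (1 - dd s)) (Icc 0 S) :=
    hc.sub (continuousOn_const.mul (continuousOn_const.sub hdc))
  have hhi : ∀ a b : ℝ, a ∈ Icc 0 S → b ∈ Icc 0 S → IntervalIntegrable hh volume a b :=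
    fun a b ha hb => (hc.mono (uIcc_subset_Icc ha hb)).intervalIntegrable
  have hqi : ∀ a b : ℝ, a ∈ Icc 0 S → b ∈ Icc 0 S →
      IntervalIntegrable (fun s => hh s - P * (1 - dd s)) volume a b :=
    fun a b ha hb => (hqc.mono (uIcc_subset_Icc ha hb)).intervalIntegrable
  -- the exit
  obtain ⟨Z, hZ⟩ : ∃ Z : Set ℝ, Z = {s | s ∈ Icc 0 S ∧ dd s ≤ 0} := ⟨_, rfl⟩
  have hZc : IsClosed Z := by
    have : Z = Icc 0 S ∩ dd ⁻¹' (Iic 0) := by rw [hZ]; rfl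
    rw [this]
    exact hdc.preimage_isClosed_of_isClosed isClosed_Icc isClosed_Iic
  have hZne : Z.Nonempty := by
    by_contra hne
    have h1 : ∀ s ∈ Icc 0 S, 0 < dd s := by
      intro s hs
      by_contra hcon
      exact hne ⟨s, by rw [hZ]; exact ⟨hs, not_lt.1 hcon⟩⟩
    have h2 := (hA S hS le_rfl h1).1
    linarith
  have hZb : BddBelow Z := ⟨0, fun s hs => by rw [hZ] at hs; exact hs.1.1⟩
  obtain ⟨s₁, hs₁⟩ : ∃ s₁, s₁ = sInf Z := ⟨_, rfl⟩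
  have hs₁Z : s₁ ∈ Z := by rw [hs₁]; exact hZc.csInf_mem hZne hZb
  have hs₁S : s₁ ∈ Icc 0 S := by rw [hZ] at hs₁Z; exact hs₁Z.1
  have hds₁ : dd s₁ ≤ 0 := by rw [hZ] at hs₁Z; exact hs₁Z.2
  have hpos : ∀ s, 0 ≤ s → s < s₁ → 0 < dd s := by
    intro s hs hss
    by_contra hcon
    have : s ∈ Z := by
      rw [hZ]
      exact ⟨⟨hs, hss.le.trans hs₁S.2⟩, not_lt.1 hcon⟩
    have h2 := csInf_le hZb this
    rw [← hs₁] at h2
    linarith
  have hAσ : ∀ σ, 0 < σ → σ < s₁ → σ ≤ ℓ ∧ ∫ s in (0 : ℝ)..σ, hh s ≤ H := fun σ h1 h2 =>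
    hA σ h1 (h2.le.trans hs₁S.2) fun s hs => hpos s hs.1 (hs.2.trans_lt h2)
  have hs₁ℓ : s₁ ≤ ℓ := by
    refine le_of_forall_lt fun σ hσ => ?_
    by_contra hcon
    have h1 : ℓ ≤ σ := not_lt.1 hcon
    have h2 := (hAσ ((σ + s₁) / 2) (by linarith) (by linarith)).1
    linarith
  have hq1 : ∀ s ∈ Icc 0 S, hh s - P * (1 - dd s) ≤ hh s := by
    intro s hs
    have := mul_nonneg hP (show 0 ≤ 1 - dd s by linarith [(hd s hs).2])
    linarith
  refine ⟨s₁, ⟨hs₁S.1, hs₁ℓ.trans hℓS⟩, fun σ hσ => ?_, fun σ hσ => ?_⟩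
  · have hσS : σ ∈ Icc 0 S := ⟨hσ.1, hσ.2.trans hs₁S.2⟩
    have h0S : (0 : ℝ) ∈ Icc 0 S := ⟨le_rfl, hS.le⟩
    have h1 : ∫ s in (0 : ℝ)..σ, (hh s - P * (1 - dd s)) ≤ ∫ s in (0 : ℝ)..σ, hh s :=
      intervalIntegral.integral_mono_on hσ.1 (hqi 0 σ h0S hσS) (hhi 0 σ h0S hσS) fun s hs =>
        hq1 s ⟨hs.1, hs.2.trans hσS.2⟩
    refine h1.trans ?_
    rcases hσ.1.eq_or_lt with h2 | h2
    · rw [← h2, intervalIntegral.integral_same]
      exact hH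
    refine le_of_forall_pos_le_add fun e he => ?_
    obtain ⟨τ, hτd⟩ : ∃ τ, τ = max (σ / 2) (σ - e / (B + 1)) := ⟨_, rfl⟩
    have hτ1 : σ / 2 ≤ τ := by rw [hτd]; exact le_max_left _ _
    have hτ2 : σ - e / (B + 1) ≤ τ := by rw [hτd]; exact le_max_right _ _
    have hτ3 : τ < σ := by
      rw [hτd]
      exact max_lt (by linarith) (by linarith [div_pos he (by linarith : 0 < B + 1)])
    have hτ0 : 0 < τ := by linarith
    have hτS : τ ∈ Icc 0 S := ⟨hτ0.le, hτ3.le.trans hσS.2⟩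
    rw [← intervalIntegral.integral_add_adjacent_intervals (hhi 0 τ h0S hτS) (hhi τ σ hτS hσS)]
    have h3 := (hAσ τ hτ0 (hτ3.trans_le hσ.2)).2
    have h4 : ∫ s in τ..σ, hh s ≤ ∫ _s in τ..σ, B :=
      intervalIntegral.integral_mono_on hτ3.le (hhi τ σ hτS hσS) (by simp) fun s hs =>
        (h0 s ⟨hτ0.le.trans hs.1, hs.2.trans hσS.2⟩).2
    rw [intervalIntegral.integral_const, smul_eq_mul] at h4
    have h5 : (σ - τ) * B ≤ e := by
      have h6 : σ - τ ≤ e / (B + 1) := by linarith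
      have h7 : (σ - τ) * (B + 1) ≤ e := by
        rwa [le_div_iff₀ (by linarith)] at h6
      nlinarith
    linarith
  · have hσS : σ ∈ Icc 0 S := ⟨hs₁S.1.trans hσ.1, hσ.2⟩
    obtain ⟨e, he⟩ : ∃ e, e = 1 / (2 * Λ) := ⟨_, rfl⟩
    have he0 : 0 < e := by rw [he]; positivity
    have hΛe : Λ * e = 1 / 2 := by rw [he]; field_simp
    have hlow : ∀ s ∈ Icc 0 S, s₁ ≤ s → s ≤ s₁ + e → hh s - P * (1 - dd s) ≤ -(P / 4) := by
      intro s hs h1 h2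
      have h3 := (abs_le.1 (hdL s hs s₁ hs₁S)).2
      rw [abs_of_nonneg (by linarith)] at h3
      have h4 : Λ * (s - s₁) ≤ Λ * e := mul_le_mul_of_nonneg_left (by linarith) hΛ.le
      have h5 : dd s ≤ 1 / 2 := by linarith
      have h6 : P * (1 / 2) ≤ P * (1 - dd s) := mul_le_mul_of_nonneg_left (by linarith) hP
      have h7 := (h0 s hs).2
      linarith
    rcases le_total σ (s₁ + e) with h1 | h1
    · have h2 : ∫ s in s₁..σ, (hh s - P * (1 - dd s)) ≤ ∫ _s in s₁..σ, (0 : ℝ) :=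
        intervalIntegral.integral_mono_on hσ.1 (hqi s₁ σ hs₁S hσS) (by simp) fun s hs => by
          have := hlow s ⟨hs₁S.1.trans hs.1, hs.2.trans hσS.2⟩ hs.1 (hs.2.trans h1)
          linarith
      rw [intervalIntegral.integral_zero] at h2
      exact h2
    · have heS : s₁ + e ∈ Icc 0 S := ⟨by linarith [hs₁S.1], by linarith [hσ.2]⟩
      rw [← intervalIntegral.integral_add_adjacent_intervals (hqi s₁ _ hs₁S heS)
        (hqi _ σ heS hσS)]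
      have h2 : ∫ s in s₁..(s₁ + e), (hh s - P * (1 - dd s)) ≤ ∫ _s in s₁..(s₁ + e), -(P / 4) :=
        intervalIntegral.integral_mono_on (by linarith) (hqi s₁ _ hs₁S heS) (by simp)
          fun s hs => hlow s ⟨hs₁S.1.trans hs.1, hs.2.trans heS.2⟩ hs.1 hs.2
      have h3 : ∫ s in (s₁ + e)..σ, (hh s - P * (1 - dd s)) ≤ ∫ _s in (s₁ + e)..σ, B :=
        intervalIntegral.integral_mono_on h1 (hqi _ σ heS hσS) (by simp) fun s hs => by
          have hsS : s ∈ Icc 0 S := ⟨heS.1.trans hs.1, hs.2.trans hσS.2⟩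
          exact (hq1 s hsS).trans (h0 s hsS).2
      rw [intervalIntegral.integral_const, smul_eq_mul] at h2 h3
      have h4 : (σ - (s₁ + e)) * B ≤ S * B :=
        mul_le_mul_of_nonneg_right (by linarith [hσ.2, hs₁S.1]) hB
      have h5 : 8 * (Λ * e) * B * S ≤ P * e := by
        have := mul_le_mul_of_nonneg_right hP2 he0.le
        linarith
      rw [hΛe] at h5
      have h6 : (s₁ + e - s₁) * -(P / 4) = -(P * e / 4) := by ring
      rw [h6] at h2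
      linarith

end Pool.Agent.H1TV
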