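import Pool.Agent.H1TV.Asm
import Pool.Agent.Q85.CL.Defs2

/-!
Project TV: the local theorem (with the statements of the parts as hypotheses).
-/

set_option autoImplicit false

open MeasureTheory Set Metric Filter Topology
open scoped ContDiff
open H459R3.NS Pool.Agent.W268.NS Pool.Agent.Q67.VD

namespace Pool.Agent.H1TV

open Pool.Agent.Q85.CC Pool.Agent.Q85.CL Pool.Agent.Q85.VL Pool.Agent.H2CV

set_option maxHeartbeats 1600000 in
/-- If the vortex lines do not turn near `a` then `a` is not singular. -/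
theorem tvP {P : (V → V) → Set V → ℝ → Prop} (hPm : PMono P) (hVel : StmVelL) (hEn : StmEnL) (hEnS : StmEnS) (hReg : Pool.Agent.Q95.CL.StmRegK)
    (hL1 : StmL1L) (hGood : StmGoodT) (hVelT : StmVelT) (hMorM : StmMorP P)
    (hPinM : StmPinP P) (hCvM : StmCvP P) (hLk : StmLk) (hShR : StmShlR) : StmTvP P := by
  intro T E O u p hT hu a ha hTu
  obtain ⟨C, ε₀, hC, hε₀, hMM⟩ := hMorM
  obtain ⟨m, T₁, R₁, hm, hT₁, hR₁, h1⟩ := hTu ε₀ hε₀
  obtain ⟨R₂, hR₂, hO⟩ := Metric.isOpen_iff.1 hu.openO a ha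
  have hO2 : closedBall a (R₂ / 2) ⊆ O := (closedBall_subset_ball (by linarith)).trans hO
  obtain ⟨CL, rL, hCL, hrL, hlk⟩ := hLk T E O u p hT hu (T / 2) (R₂ / 2) a (by positivity)
    (by linarith) (by positivity) hO2
  obtain ⟨R, hRd⟩ : ∃ R, R = min (min R₁ rL) (R₂ / 2) := ⟨_, rfl⟩
  have hR : 0 < R := by rw [hRd]; exact lt_min (lt_min hR₁ hrL) (by positivity)
  have hRR₁ : R ≤ R₁ := by rw [hRd]; exact (min_le_left _ _).trans (min_le_left _ _)
  have hRL : R ≤ rL := by rw [hRd]; exact (min_le_left _ _).trans (min_le_right _ _)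
  have hRR₂ : R ≤ R₂ / 2 := by rw [hRd]; exact min_le_right _ _
  have hOR : closedBall a R ⊆ O := (closedBall_subset_closedBall hRR₂).trans hO2
  obtain ⟨T₀, hT₀d⟩ : ∃ T₀, T₀ = max T₁ (T / 2) := ⟨_, rfl⟩
  have hT₀T : T₀ < T := by rw [hT₀d]; exact max_lt hT₁ (by linarith)
  have hT₀1 : T₁ ≤ T₀ := by rw [hT₀d]; exact le_max_left _ _
  have hT₀2 : T / 2 ≤ T₀ := by rw [hT₀d]; exact le_max_right _ _
  have hT₀0 : 0 < T₀ := by linarith
  have hIoo : ∀ t ∈ Ioo T₀ T, t ∈ Ioo 0 T := fun t ht => ⟨hT₀0.trans ht.1, ht.2⟩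
  obtain ⟨L, hL, hL1⟩ := hL1 T E O u p hT hu a R T₀ hR hOR hT₀0 hT₀T
  -- the Morrey bound
  obtain ⟨K, hKd⟩ : ∃ K, K = C * (L / (R / 4) + CL * (1 + m) * √(√(R / 4)) + m * (R / 4) ^ 2 + 1) :=
    ⟨_, rfl⟩
  have hC0 : 0 < C := by linarith
  have hK : 0 < K := by
    rw [hKd]
    have h2 : 0 ≤ L / (R / 4) := by positivity
    have h3 : 0 ≤ CL * (1 + m) * √(√(R / 4)) := by positivity
    have h4 : 0 ≤ m * (R / 4) ^ 2 := by positivity
    exact mul_pos hC0 (by linarith)
  have hMor : ∀ t ∈ Ioo T₀ T, MorB K a (R / 32) (om (u t)) := by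
    intro t ht x r hr hxr
    have hsm := slice_u hu.toLEq (hIoo t ht)
    have hx : ‖x - a‖ ≤ R / 32 := by linarith
    have hr' : r ≤ R / 4 / 8 := by linarith [norm_nonneg (x - a)]
    have htu := hPm _ _ _ _ _ (h1 t ⟨hT₀1.trans_lt ht.1, ht.2⟩ (hIoo t ht).1)
      (Dm_sub (x := x) (r := R / 4) (by linarith)) le_rfl
    have e1 := hMM (u t) x r (R / 4) m hsm hm hr hr' htu
    have e2 : ∫ y in closedBall x (R / 4), om (u t) y ≤ L := by
      refine (setIntegral_mono_set ((om_cont' hsm).continuousOn.integrableOn_compact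
        (isCompact_closedBall _ _)) (Eventually.of_forall fun y => om_nnL _ _) ?_).trans
        (hL1 t ⟨ht.1.le, ht.2⟩)
      refine (closedBall_subset_closedBall' ?_).eventuallyLE
      rw [dist_eq_norm]
      linarith
    have e3 := hlk t ⟨hT₀2.trans_lt ht.1, ht.2⟩ x (by
      rw [mem_closedBall, dist_eq_norm]
      linarith) (R / 4) m (by positivity) (by linarith) hm
    rw [abs_omL]
    refine e1.trans (mul_le_mul_of_nonneg_right ?_ hr.le)
    rw [hKd]
    refine mul_le_mul_of_nonneg_left ?_ hC0.le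
    have e4 : (∫ y in closedBall x (R / 4), om (u t) y) / (R / 4) ≤ L / (R / 4) :=
      div_le_div_of_nonneg_right e2 (by positivity)
    linarith
  exact asmP hPm hVel hEn hEnS hReg hGood hVelT hPinM hCvM hLk hShR hT hu hT₀0.le hT₀T hK
    (by positivity) ((closedBall_subset_closedBall (by linarith)).trans hOR) hMor hTu

end Pool.Agent.H1TV
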