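import Pool.Agent.H1TV.Defs
import Pool.Agent.H1TV.Pot
import Pool.Agent.H1TV.Gain
import Pool.Agent.H2CV.Shl2
import Pool.Agent.H2VL.Bas

/-!
Project TV: the potential along the vortex lines.
-/

set_option autoImplicit false

open MeasureTheory Set Metric Filter Topology
open scoped ContDiff ENNReal NNReal
open H459R3.NS Pool.Agent.W268.NS Pool.Agent.Q67.VD

namespace Pool.Agent.H1TV

open Pool.Agent.Q85.CC Pool.Agent.Q85.CL Pool.Agent.Q85.VL Pool.Agent.H2CV
open Pool.Agent.H2VL (len_add_le norm_le_len len_sub_comm)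

lemma len_le_two (a : V) : len a ≤ 2 * ‖a‖ := by
  have := Pool.Agent.H2VL.len_le_norm' a
  linarith [norm_nonneg a]

lemma len_lip (a b : V) : |len a - len b| ≤ 2 * ‖a - b‖ := by
  have h1 := len_add_le (a - b) b
  have h2 := len_add_le (b - a) a
  rw [sub_add_cancel] at h1 h2
  rw [len_sub_comm b a] at h2
  have h3 := len_le_two (a - b)
  rw [abs_le]
  constructor <;> linarith

/-- The truncated field. -/
noncomputable def sat (m : ℝ) (a : V) : V := (max (len a) m)⁻¹ • a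

lemma sat_lip {m : ℝ} (hm : 0 < m) (a b : V) : ‖sat m a - sat m b‖ ≤ 3 / m * ‖a - b‖ := by
  have hA : 0 < max (len a) m := lt_max_of_lt_right hm
  have hB : 0 < max (len b) m := lt_max_of_lt_right hm
  have e : sat m a - sat m b = (max (len a) m)⁻¹ • (a - b)
      + ((max (len a) m)⁻¹ - (max (len b) m)⁻¹) • b := by
    unfold sat
    rw [smul_sub, sub_smul]
    abel
  rw [e]
  refine (norm_add_le _ _).trans ?_
  rw [norm_smul, norm_smul, Real.norm_eq_abs, Real.norm_eq_abs, abs_of_pos (inv_pos.2 hA)]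
  have h1 : (max (len a) m)⁻¹ ≤ 1 / m := by
    rw [← one_div]
    exact one_div_le_one_div_of_le hm (le_max_right _ _)
  have h2 : |(max (len a) m)⁻¹ - (max (len b) m)⁻¹| * ‖b‖ ≤ 2 / m * ‖a - b‖ := by
    have e1 : (max (len a) m)⁻¹ - (max (len b) m)⁻¹
        = (max (len b) m - max (len a) m) * ((max (len a) m)⁻¹ * (max (len b) m)⁻¹) := by
      field_simp
    rw [e1, abs_mul, abs_of_pos (mul_pos (inv_pos.2 hA) (inv_pos.2 hB))]
    have h3 : |max (len b) m - max (len a) m| ≤ 2 * ‖a - b‖ := by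
      refine (abs_max_sub_max_le_abs _ _ _).trans ?_
      rw [norm_sub_rev]
      exact len_lip b a
    have h4 : (max (len b) m)⁻¹ * ‖b‖ ≤ 1 := by
      rw [inv_mul_le_iff₀ hB, mul_one]
      exact (norm_le_len b).trans (le_max_left _ _)
    calc |max (len b) m - max (len a) m| * ((max (len a) m)⁻¹ * (max (len b) m)⁻¹) * ‖b‖
        = |max (len b) m - max (len a) m| * (max (len a) m)⁻¹ * ((max (len b) m)⁻¹ * ‖b‖) := by
          ring
      _ ≤ |max (len b) m - max (len a) m| * (max (len a) m)⁻¹ * 1 :=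
          mul_le_mul_of_nonneg_left h4 (by positivity)
      _ ≤ (2 * ‖a - b‖) * (1 / m) * 1 := by
          refine mul_le_mul_of_nonneg_right ?_ zero_le_one
          exact mul_le_mul h3 h1 (by positivity) (by positivity)
      _ = _ := by ring
  have h5 : (max (len a) m)⁻¹ * ‖a - b‖ ≤ 1 / m * ‖a - b‖ :=
    mul_le_mul_of_nonneg_right h1 (norm_nonneg _)
  have e3 : 3 / m * ‖a - b‖ = 1 / m * ‖a - b‖ + 2 / m * ‖a - b‖ := by ring
  linarith

lemma sat_norm {m : ℝ} (hm : 0 < m) (a : V) : ‖sat m a‖ ≤ 1 := by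
  have hA : 0 < max (len a) m := lt_max_of_lt_right hm
  unfold sat
  rw [norm_smul, Real.norm_eq_abs, abs_of_pos (inv_pos.2 hA), inv_mul_le_iff₀ hA, mul_one]
  exact (norm_le_len a).trans (le_max_left _ _)

/-- The cut-off function of the region `Dm`. -/
noncomputable def dcut (v : V → V) (x : V) (R m : ℝ) (y : V) : ℝ :=
  max (min (min (2 * (R - ‖y - x‖) / R) ((om v y - m) / m)) 1) 0

lemma dcut_bd (v : V → V) (x : V) (R m : ℝ) (y : V) : 0 ≤ dcut v x R m y ∧ dcut v x R m y ≤ 1 :=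
  ⟨le_max_right _ _, max_le (min_le_right _ _) zero_le_one⟩

lemma dcut_pos {v : V → V} {x : V} {R m : ℝ} (hR : 0 < R) (hm : 0 < m) {y : V}
    (h : 0 < dcut v x R m y) : y ∈ Dm v x R m := by
  unfold dcut at h
  rw [lt_max_iff] at h
  rcases h with h | h
  · rw [lt_min_iff, lt_min_iff] at h
    obtain ⟨⟨h1, h2⟩, -⟩ := h
    rw [lt_div_iff₀ hR] at h1
    rw [lt_div_iff₀ hm] at h2
    exact ⟨by linarith, by linarith⟩
  · exact absurd h (lt_irrefl _)

lemma dcut_one {v : V → V} {x : V} {R m : ℝ} (hR : 0 < R) (hm : 0 < m) {y : V}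
    (h1 : ‖y - x‖ ≤ R / 2) (h2 : 2 * m ≤ om v y) : dcut v x R m y = 1 := by
  unfold dcut
  have h3 : 1 ≤ 2 * (R - ‖y - x‖) / R := by
    rw [le_div_iff₀ hR]
    linarith
  have h4 : 1 ≤ (om v y - m) / m := by
    rw [le_div_iff₀ hm]
    linarith
  rw [min_eq_right (le_min h3 h4)]
  exact max_eq_left zero_le_one

lemma dcut_lip {v : V → V} {x : V} {R m k : ℝ} (hR : 0 < R) (hm : 0 < m) {y z : V}
    (h : ‖vort v y - vort v z‖ ≤ k * ‖y - z‖) :
    |dcut v x R m y - dcut v x R m z| ≤ (2 / R + 2 * k / m) * ‖y - z‖ := by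
  unfold dcut
  refine (abs_max_sub_max_le_abs _ _ _).trans ?_
  have h1 := abs_min_sub_min_le_max (min (2 * (R - ‖y - x‖) / R) ((om v y - m) / m)) 1
    (min (2 * (R - ‖z - x‖) / R) ((om v z - m) / m)) 1
  refine h1.trans ?_
  have h2 := abs_min_sub_min_le_max (2 * (R - ‖y - x‖) / R) ((om v y - m) / m)
    (2 * (R - ‖z - x‖) / R) ((om v z - m) / m)
  have h3 : |2 * (R - ‖y - x‖) / R - 2 * (R - ‖z - x‖) / R| ≤ 2 / R * ‖y - z‖ := by
    have e : 2 * (R - ‖y - x‖) / R - 2 * (R - ‖z - x‖) / R = 2 / R * (‖z - x‖ - ‖y - x‖) := by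
      field_simp
      ring
    rw [e, abs_mul, abs_of_pos (by positivity : 0 < 2 / R)]
    refine mul_le_mul_of_nonneg_left ?_ (by positivity)
    refine (abs_norm_sub_norm_le _ _).trans ?_
    rw [show z - x - (y - x) = -(y - z) by abel, norm_neg]
  have h4 : |(om v y - m) / m - (om v z - m) / m| ≤ 2 * k / m * ‖y - z‖ := by
    have e : (om v y - m) / m - (om v z - m) / m = (om v y - om v z) / m := by ring
    rw [e, abs_div, abs_of_pos hm, div_le_iff₀ hm]
    have h5 : |om v y - om v z| ≤ 2 * ‖vort v y - vort v z‖ := len_lip _ _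
    have e2 : 2 * k / m * ‖y - z‖ * m = 2 * (k * ‖y - z‖) := by field_simp
    rw [e2]
    linarith
  have h5 : 0 ≤ 2 / R * ‖y - z‖ := by positivity
  have h6 : 0 ≤ 2 * k / m * ‖y - z‖ := (abs_nonneg _).trans h4
  have h7 : |(1 : ℝ) - 1| = 0 := by norm_num
  rw [h7]
  rw [add_mul]
  refine max_le (h2.trans (max_le ?_ ?_)) ?_ <;> linarith

/-- The potential. -/
lemma potV {v : V → V} (hv : SM v) {x : V} {R m ℓ H L : ℝ} {h : V → ℝ} (hR : 0 < R) (hm : 0 < m)
    (hℓ : 0 < ℓ) (hH : 0 ≤ H) (hL : ∀ y z, |h y - h z| ≤ L * ‖y - z‖) (h0 : ∀ y, 0 ≤ h y)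
    (harc : ∀ (γ : ℝ → V) (l : ℝ), 0 < l → (∀ s ∈ Icc (0 : ℝ) l, γ s ∈ Dm v x R m ∧
      HasDerivWithinAt γ ((len (vort v (γ s)))⁻¹ • vort v (γ s)) (Icc 0 l) s) →
        l ≤ ℓ ∧ ∫ s in (0 : ℝ)..l, h (γ s) ≤ H) :
    ∃ F : V → ℝ, (∃ L, LipschitzWith L F) ∧ (∀ y ∈ closedBall x R, 0 ≤ F y ∧ F y ≤ H) ∧
      ∀ y, ‖y - x‖ ≤ R / 2 → 2 * m ≤ om v y → ∀ F' : V →L[ℝ] ℝ, HasFDerivAt F F' y →
        F' (vort v y) + h y * om v y ≤ 0 := by
  obtain ⟨S, hSd⟩ : ∃ S, S = 2 * ℓ := ⟨_, rfl⟩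
  have hS : 0 < S := by rw [hSd]; positivity
  -- constants
  obtain ⟨k, hk⟩ : ∃ k : ℝ≥0, LipschitzOnWith k (vort v) (closedBall x (R + S)) :=
    (vort_c1 hv).contDiffOn.exists_lipschitzOnWith one_ne_zero (convex_closedBall _ _)
      (isCompact_closedBall _ _)
  have hk' : ∀ y ∈ closedBall x (R + S), ∀ z ∈ closedBall x (R + S),
      ‖vort v y - vort v z‖ ≤ k * ‖y - z‖ := fun y hy z hz => by
    have := hk.dist_le_mul y hy z hz
    rwa [dist_eq_norm, dist_eq_norm] at this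
  have hL0 : 0 ≤ L := by
    have h1 := (abs_nonneg _).trans (hL (fun _ => 1) 0)
    have h2 : 0 < ‖(fun _ => 1 : V) - 0‖ := by
      rw [sub_zero, norm_pos_iff]
      intro h3
      have := congrFun h3 0
      norm_num at this
    exact nonneg_of_mul_nonneg_left h1 h2
  obtain ⟨B, hBd⟩ : ∃ B, B = |h x| + L * (R + S) := ⟨_, rfl⟩
  have hB : 0 ≤ B := by rw [hBd]; positivity
  have hhB : ∀ y ∈ closedBall x (R + S), h y ≤ B := by
    intro y hy
    rw [mem_closedBall, dist_eq_norm] at hy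
    have h1 := (abs_le.1 (hL y x)).2
    have h2 := mul_le_mul_of_nonneg_left hy hL0
    have h3 := le_abs_self (h x)
    rw [hBd]
    linarith
  obtain ⟨Λ, hΛd⟩ : ∃ Λ : ℝ, Λ = 2 / R + 2 * k / m := ⟨_, rfl⟩
  have hΛ : 0 < Λ := by rw [hΛd]; positivity
  obtain ⟨P, hPd⟩ : ∃ P, P = 4 * B + 8 * Λ * B * S := ⟨_, rfl⟩
  have hP1 : 4 * B ≤ P := by
    rw [hPd]
    have : 0 ≤ 8 * Λ * B * S := by positivity
    linarith
  have hP2 : 8 * Λ * B * S ≤ P := by rw [hPd]; linarith
  have hP : 0 ≤ P := by linarith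
  obtain ⟨q, hqd⟩ : ∃ q : V → ℝ, q = fun y => h y - P * (1 - dcut v x R m y) := ⟨_, rfl⟩
  have hdL : ∀ y ∈ closedBall x (R + S), ∀ z ∈ closedBall x (R + S),
      |dcut v x R m y - dcut v x R m z| ≤ Λ * ‖y - z‖ := fun y hy z hz => by
    rw [hΛd]
    exact dcut_lip hR hm (hk' y hy z hz)
  obtain ⟨Lq, hLq⟩ : ∃ Lq : ℝ≥0, (Lq : ℝ) = L + P * Λ := ⟨⟨_, by positivity⟩, rfl⟩
  have hqL : LipschitzOnWith Lq q (closedBall x (R + S)) := by
    refine LipschitzOnWith.of_dist_le_mul fun y hy z hz => ?_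
    rw [Real.dist_eq, dist_eq_norm, hLq, hqd]
    have e : h y - P * (1 - dcut v x R m y) - (h z - P * (1 - dcut v x R m z))
        = (h y - h z) + P * (dcut v x R m y - dcut v x R m z) := by ring
    simp only
    rw [e]
    refine (abs_add_le _ _).trans ?_
    rw [abs_mul, abs_of_nonneg hP]
    have h1 := hL y z
    have h2 := mul_le_mul_of_nonneg_left (hdL y hy z hz) hP
    linarith
  obtain ⟨KN, hKN⟩ : ∃ KN : ℝ≥0, (KN : ℝ) = 3 / m * k := ⟨⟨_, by positivity⟩, rfl⟩
  have hN : LipschitzOnWith KN (fun y => sat m (vort v y)) (closedBall x (R + S)) := by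
    refine LipschitzOnWith.of_dist_le_mul fun y hy z hz => ?_
    rw [dist_eq_norm, dist_eq_norm, hKN]
    refine (sat_lip hm _ _).trans ?_
    have := mul_le_mul_of_nonneg_left (hk' y hy z hz) (show 0 ≤ 3 / m by positivity)
    linarith
  obtain ⟨F, hFL, hFb, hFd⟩ := pot (N := fun y => sat m (vort v y)) (q := q) (x := x) (R := R)
    (S := S) (H := H) hS hN (fun y _ => sat_norm hm _) hqL (by
      intro γ hγ0 hγm hγd
      have hγc : ContinuousOn γ (Icc 0 S) := fun s hs => (hγd s hs).continuousWithinAt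
      have hγL : ∀ s ∈ Icc 0 S, ∀ s' ∈ Icc 0 S, ‖γ s - γ s'‖ ≤ |s - s'| := by
        intro s hs s' hs'
        have h1 := (convex_Icc (0 : ℝ) S).norm_image_sub_le_of_norm_hasDerivWithin_le
          (f := γ) (C := 1) (fun t ht => hγd t ht) (fun t _ => sat_norm hm _) hs' hs
        rwa [one_mul, Real.norm_eq_abs] at h1
      obtain ⟨hhc⟩ : Nonempty (ContinuousOn (fun s => h (γ s)) (Icc 0 S)) := by
        refine ⟨Continuous.comp_continuousOn ?_ hγc⟩
        have : LipschitzWith ⟨L, hL0⟩ h := LipschitzWith.of_dist_le_mul fun y z => by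
          rw [Real.dist_eq, dist_eq_norm]
          exact hL y z
        exact this.continuous
      have h1 := gain (S := S) (ℓ := ℓ) (H := H) (B := B) (P := P) (Λ := Λ)
        (hh := fun s => h (γ s)) (dd := fun s => dcut v x R m (γ s)) hℓ (by rw [hSd]; linarith)
        hB hH hΛ hP1 hP2 hhc (fun s _ => ⟨h0 _, hhB _ (hγm s)⟩) (fun s _ => dcut_bd _ _ _ _ _)
        (fun s hs s' hs' => by
          refine (hdL _ (hγm s) _ (hγm s')).trans ?_
          exact mul_le_mul_of_nonneg_left (hγL s hs s' hs') hΛ.le)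
        (fun σ hσ hσS hpos => harc γ σ hσ fun s hs => by
          have h2 := dcut_pos hR hm (hpos s hs)
          refine ⟨h2, ?_⟩
          have h3 := (hγd s ⟨hs.1, hs.2.trans hσS⟩).mono (Icc_subset_Icc_right hσS)
          have h4 : sat m (vort v (γ s)) = (len (vort v (γ s)))⁻¹ • vort v (γ s) := by
            unfold sat
            rw [max_eq_left]
            exact h2.2.le
          simp only [h4] at h3
          exact h3)
      rw [hqd]
      exact h1)
  refine ⟨F, hFL, hFb, fun y hy1 hy2 F' hF' => ?_⟩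
  have hyb : y ∈ ball x R := by
    rw [mem_ball, dist_eq_norm]
    linarith
  have h1 := hFd y hyb F' hF'
  have hom : 0 < om v y := by linarith
  have h2 : q y = h y := by
    rw [hqd]
    simp only
    rw [dcut_one hR hm hy1 hy2]
    ring
  have h3 : sat m (vort v y) = (om v y)⁻¹ • vort v y := by
    unfold sat
    rw [max_eq_left (show m ≤ len (vort v y) from by
      have : m ≤ om v y := by linarith
      exact this)]
    rfl
  simp only [h3, h2] at h1
  rw [map_smul, smul_eq_mul] at h1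
  have h4 : F' (vort v y) + h y * om v y = om v y * ((om v y)⁻¹ * F' (vort v y) + h y) := by
    field_simp
  rw [h4]
  exact mul_nonpos_of_nonneg_of_nonpos hom.le h1

end Pool.Agent.H1TV
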